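import Pool.Agent.Lib.H38P.A1

/-!
# H38P, chunk A2 (S/M): intervals and `lam`
-/

open Finset

namespace H38P

variable {α : Type} [LinearOrder α] [Fintype α] {cr : α → α → α → Prop} {xx : α → α → α → α → Prop}

/-- Chunk A2 (S). -/
theorem mem_Io {a b x : α} : x ∈ Io a b ↔ a < x ∧ x < b := by
  unfold Io
  rw [Finset.mem_filter]
  exact ⟨fun h => h.2, fun h => ⟨Finset.mem_univ _, h⟩⟩

/-- Chunk A2 (S). -/
theorem Io_sub {a b c d : α} (h1 : c ≤ a) (h2 : b ≤ d) : Io a b ⊆ Io c d := by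
  intro x hx
  rw [mem_Io] at hx ⊢
  exact ⟨h1.trans_lt hx.1, hx.2.trans_le h2⟩

/-- Chunk A2 (S). `x < b`, `x = b` or `b < x`. -/
theorem Io_split (a b c : α) : Io a c ⊆ insert b (Io a b ∪ Io b c) := by
  intro x hx
  rw [mem_Io] at hx
  rw [Finset.mem_insert, Finset.mem_union, mem_Io, mem_Io]
  rcases lt_trichotomy x b with h | h | h
  · exact Or.inr (Or.inl ⟨hx.1, h⟩)
  · exact Or.inl h
  · exact Or.inr (Or.inr ⟨h, hx.2⟩)

/-- Chunk A2 (S/M). `pl_sum` for a family of two intervals (`s = univ : Finset Bool`), `I0 = Io a c`, `B0 = (Io a c)ᶜ`. -/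
theorem lam_add {K K' R F : ℕ} (hh : Hyp cr xx K K' R F) {a b c : α} (h1 : a ≤ b) (h2 : b ≤ c) :
    lam cr xx a b + lam cr xx b c ≤ lam cr xx a c := by
  have h := pl_sum hh (Finset.univ : Finset Bool) (fun i => cond i (Io a b) (Io b c))
    (fun i => (cond i (Io a b) (Io b c))ᶜ) (Io a c) (Io a c)ᶜ ?_ ?_ ?_
  · rw [Fintype.sum_bool] at h
    exact h
  · intro i _
    cases i
    · exact ⟨Io_sub h1 le_rfl, Finset.compl_subset_compl.2 (Io_sub h1 le_rfl)⟩
    · exact ⟨Io_sub le_rfl h2, Finset.compl_subset_compl.2 (Io_sub le_rfl h2)⟩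
  · intro i _ j _ hij
    cases i <;> cases j
    · exact absurd rfl hij
    · right
      intro x hx y hy
      exact (mem_Io.1 hy).2.trans (mem_Io.1 hx).1
    · left
      intro x hx y hy
      exact (mem_Io.1 hx).2.trans (mem_Io.1 hy).1
    · exact absurd rfl hij
  · intro i _ j _ hij
    cases i <;> cases j
    · exact absurd rfl hij
    · intro x hx
      rw [Finset.mem_compl]
      intro hx'
      exact lt_irrefl x ((mem_Io.1 hx).2.trans (mem_Io.1 hx').1)
    · intro x hx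
      rw [Finset.mem_compl]
      intro hx'
      exact lt_irrefl x ((mem_Io.1 hx').2.trans (mem_Io.1 hx).1)
    · exact absurd rfl hij

/-- Chunk A2 (S/M). Induction on `n`, `lam_add`; for `n = 0`: the left side is `0`. -/
theorem lam_sum {K K' R F : ℕ} (hh : Hyp cr xx K K' R F) (p : ℕ → α) (hp : Monotone p) (n : ℕ) :
    ∑ j ∈ range n, lam cr xx (p j) (p (j + 1)) ≤ lam cr xx (p 0) (p n) := by
  induction n with
  | zero =>
    rw [Finset.range_zero, Finset.sum_empty]
    exact Nat.zero_le _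
  | succ n ih =>
    rw [Finset.sum_range_succ]
    exact (Nat.add_le_add_right ih _).trans (lam_add hh (hp (Nat.zero_le n)) (hp (Nat.le_succ n)))

/-- Chunk A2 (S). `pl_mono`: if the edges inside `Io a b` which avoid `B` avoid all rays outside `Io u v`, then `pl ≤ lam u v`. -/
theorem pl_le_lam {a b u v : α} {B : Finset α} (h1 : u ≤ a) (h2 : b ≤ v)
    (h : ∀ x ∈ Io a b, ∀ y ∈ Io a b, (∀ z ∈ B, ¬ cr x y z) → ∀ z, z ∉ Io u v → ¬ cr x y z) :
    pl cr xx (Io a b) B ≤ lam cr xx u v := by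
  unfold lam
  exact pl_mono (Io_sub h1 h2) fun x hx y hy hB z hz => h x hx y hy hB z (Finset.mem_compl.1 hz)

end H38P
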