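import Pool.Agent.Lib.H38P.C6

/-!
# H38P, chunk C7 (M): assembly
-/

open Finset

namespace H38P

variable {α : Type} [LinearOrder α] [Fintype α] {cr : α → α → α → Prop} {xx : α → α → α → α → Prop}

/-- The cost of one step. -/
def Gc (F β : ℕ) : ℕ := 3 * (F * (β * (4 * (β + 1) ^ 2))) + 2 * (F * β) + F

/-- Chunk C7 (M). PROOF. Let `u, v` be a window with less than `2 ^ (δ + 1)` vertices; if it is empty take `X = ∅`. `heavy` with `n = 2 ^ δ`. Let `X1, X2, X3` be the sets of `left_part`, `last_part`, `right_part` (`L ≤ card α ≤ 2 ^ β`), and `Y = (X1 ∪ X2 ∪ X3 ∪ {a L} ∪ {b L}) ∩ Io u v`: `Cov (3 * K' + 2) Y`. `gm_pl` with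
`I = Io u v`, `B = {u, v}` gives `X`, `(Y \ X).card ≤ F * pl (Io u v) {u, v} ≤ F * lam u v` (`pl_le_lam`, `deto`). `Io u v \ X ⊆ (Io u (a L) \ X1) ∪ (Io (a L) (b L) \ X2) ∪ (Io (b L) v \ X3) ∪ (Y \ X)` (`Io_split`), and
`lam u (a L) + lam (a L) (b L) + lam (b L) v ≤ lam u v` (`lam_add` twice). -/
theorem St.step {K K' R F : ℕ} (hh : Hyp cr xx K K' R F) (hf : Faces cr) (hK : 3 * K' + 2 ≤ K) [Nontrivial α] {β : ℕ} (hR : β + 7 ≤ R)
    (hβ : Fintype.card α ≤ 2 ^ β) {c δ : ℕ} (hS : St cr xx K' c δ) : St cr xx K' (c + Gc F β) (δ + 1) := by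
  classical
  intro u v huv hrf hcard
  rcases (Io u v).eq_empty_or_nonempty with he | hne
  · refine ⟨∅, Finset.empty_subset _, cov_empty _, ?_⟩
    rw [he, Finset.empty_sdiff, Finset.card_empty]
    exact Nat.zero_le _
  have hcard' : (Io u v).card < 2 * 2 ^ δ := by
    rw [pow_succ] at hcard
    omega
  obtain ⟨L, a, b, m, h, s, hP, hL⟩ := heavy hf (Nat.two_pow_pos δ) u v huv hrf hcard' hne
  have hLβ : L ≤ 2 ^ β := hL.trans ((Finset.card_le_univ _).trans hβ)
  have hK2 : 2 * K' + 1 ≤ K := by omega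
  obtain ⟨X1, hX1, hc1, hb1⟩ := left_part hh hK2 hR hβ hS hP hLβ
  obtain ⟨X2, hX2, hc2, hb2⟩ := last_part hh hK2 hR hβ hS hP
  obtain ⟨X3, hX3, hc3, hb3⟩ := right_part hh hK2 hR hβ hS hP hLβ
  have hle := hP.path.le (Nat.zero_le L) le_rfl
  rw [hP.path.a0, hP.path.b0] at hle
  have hlt := hP.path.lt L le_rfl
  have hcov : Cov cr K ((X1 ∪ X2 ∪ X3 ∪ {a L} ∪ {b L}) ∩ Io u v) :=
    ((((hc1.union hc2).union hc3).union (cov_single (a L))).union (cov_single (b L))).mono (by omega) Finset.inter_subset_left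
  obtain ⟨X, hX, hXc, -, hXb⟩ := gm_pl hh (I := Io u v) (B := {u, v})
    (fun z hz => by
      rw [Finset.mem_insert, Finset.mem_singleton] at hz
      rcases hz with hz | hz
      · left
        intro x hx
        rw [hz]
        exact (mem_Io.1 hx).1
      · right
        intro x hx
        rw [hz]
        exact (mem_Io.1 hx).2)
    (Finset.card_le_two.trans (by omega)) Finset.inter_subset_right hcov
  refine ⟨X, hX.trans Finset.inter_subset_right, hXc, ?_⟩
  have hpl : pl cr xx (Io u v) {u, v} ≤ lam cr xx u v := by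
    refine pl_le_lam le_rfl le_rfl ?_
    intro x hx y hy hav z hz hc
    have hu : ¬ cr x y u := hav u (by simp)
    have hv : ¬ cr x y v := hav v (by simp)
    rcases lt_trichotomy z u with h1 | h1 | h1
    · rcases hh.deto u v huv hrf z (Or.inl h1) x hx y hy hc with h2 | h2
      · exact hu h2
      · exact hv h2
    · rw [h1] at hc
      exact hu hc
    · rcases lt_trichotomy z v with h2 | h2 | h2
      · exact hz (mem_Io.2 ⟨h1, h2⟩)
      · rw [h2] at hc
        exact hv hc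
      · rcases hh.deto u v huv hrf z (Or.inr h2) x hx y hy hc with h3 | h3
        · exact hu h3
        · exact hv h3
  have hsub : Io u v \ X ⊆ (Io u (a L) \ X1) ∪ (Io (a L) (b L) \ X2) ∪ (Io (b L) v \ X3) ∪
      (((X1 ∪ X2 ∪ X3 ∪ {a L} ∪ {b L}) ∩ Io u v) \ X) := by
    intro x hx
    rw [Finset.mem_sdiff] at hx
    simp only [Finset.mem_union, Finset.mem_sdiff, Finset.mem_inter, Finset.mem_singleton]
    by_cases h1 : x ∈ X1
    · exact Or.inr ⟨⟨Or.inl (Or.inl (Or.inl (Or.inl h1))), hx.1⟩, hx.2⟩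
    by_cases h2 : x ∈ X2
    · exact Or.inr ⟨⟨Or.inl (Or.inl (Or.inl (Or.inr h2))), hx.1⟩, hx.2⟩
    by_cases h3 : x ∈ X3
    · exact Or.inr ⟨⟨Or.inl (Or.inl (Or.inr h3)), hx.1⟩, hx.2⟩
    by_cases h4 : x = a L
    · exact Or.inr ⟨⟨Or.inl (Or.inr h4), hx.1⟩, hx.2⟩
    by_cases h5 : x = b L
    · exact Or.inr ⟨⟨Or.inr h5, hx.1⟩, hx.2⟩
    have h6 := mem_Io.1 hx.1
    left
    rcases lt_or_gt_of_ne h4 with h7 | h7
    · exact Or.inl (Or.inl ⟨mem_Io.2 ⟨h6.1, h7⟩, h1⟩)
    · rcases lt_or_gt_of_ne h5 with h8 | h8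
      · exact Or.inl (Or.inr ⟨mem_Io.2 ⟨h7, h8⟩, h2⟩)
      · exact Or.inr ⟨mem_Io.2 ⟨h8, h6.2⟩, h3⟩
  have hl1 := lam_add hh hle.1 hlt.le
  have hl2 := lam_add hh (hle.1.trans hlt.le) hle.2
  have hcl : c * lam cr xx u (a L) + c * lam cr xx (a L) (b L) + c * lam cr xx (b L) v ≤ c * lam cr xx u v := by
    rw [← Nat.mul_add, ← Nat.mul_add]
    exact Nat.mul_le_mul_left _ (by omega)
  have hFl : F * pl cr xx (Io u v) {u, v} ≤ F * lam cr xx u v := Nat.mul_le_mul_left _ hpl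
  refine (Finset.card_le_card hsub).trans ?_
  refine (Finset.card_union_le _ _).trans ?_
  refine (Nat.add_le_add ((Finset.card_union_le _ _).trans (Nat.add_le_add ((Finset.card_union_le _ _).trans
    (Nat.add_le_add hb1 hb2)) hb3)) (hXb.trans hFl)).trans ?_
  have hG : (c + Gc F β) * lam cr xx u v = c * lam cr xx u v +
      ((F * (β * (4 * (β + 1) ^ 2)) + F * β) * lam cr xx u v + F * (β * (4 * (β + 1) ^ 2)) * lam cr xx u v +
      (F * (β * (4 * (β + 1) ^ 2)) + F * β) * lam cr xx u v + F * lam cr xx u v) := by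
    unfold Gc
    ring
  rw [hG]
  omega

/-- Chunk C7 (S/M). **The main theorem of module D.** PROOF. `St cr xx K' 0 0` (empty windows), `St cr xx K' (δ * Gc F β) δ` by induction, `δ = β` (`(Io u v).card < card α`: `u` is not in it). At the end `gm_pl` with `I = Io u v`, `B = ∅` (`Cov.mono`: `K' ≤ K`) leaves at most `K` elements: `≤ F * pl (Io u v) ∅ + K ≤ F * pl univ ∅ + K`, and
`lam u v ≤ pl univ ∅` (`pl_mono`); `pl_ex` gives `M`. -/
theorem main {K K' R F : ℕ} (hh : Hyp cr xx K K' R F) (hf : Faces cr) (hK : 3 * K' + 2 ≤ K) [Nontrivial α] {β : ℕ} (hR : β + 7 ≤ R)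
    (hβ : Fintype.card α ≤ 2 ^ β) {u v : α} (huv : u < v) (hrf : RF cr u v) :
    ∃ M : Finset (α × α), PM xx M ∧ (Io u v).card ≤ (β * Gc F β + F) * M.card + K := by
  have h0 : St cr xx K' 0 0 := by
    intro u v _ _ hc
    have he : Io u v = ∅ := by
      rw [← Finset.card_eq_zero]
      rw [pow_zero] at hc
      omega
    refine ⟨∅, Finset.empty_subset _, cov_empty _, ?_⟩
    rw [he, Finset.empty_sdiff, Finset.card_empty]
    exact Nat.zero_le _
  have hall : ∀ δ : ℕ, St cr xx K' (δ * Gc F β) δ := by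
    intro δ
    induction δ with
    | zero =>
      rw [Nat.zero_mul]
      exact h0
    | succ δ ih =>
      have h1 := ih.step hh hf hK hR hβ
      rw [Nat.succ_mul]
      exact h1
  have hc : (Io u v).card < 2 ^ β := by
    refine lt_of_lt_of_le ?_ hβ
    rw [← Finset.card_univ]
    refine Finset.card_lt_card ?_
    rw [Finset.ssubset_iff_of_subset (Finset.subset_univ _)]
    exact ⟨u, Finset.mem_univ _, fun h => lt_irrefl u (mem_Io.1 h).1⟩
  obtain ⟨X, hX, hXc, hXb⟩ := hall β u v huv hrf hc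
  obtain ⟨X', hX', -, hXe, hXb'⟩ := gm_pl hh (I := Io u v) (B := ∅) (fun z hz => absurd hz (Finset.notMem_empty _))
    (by rw [Finset.card_empty]; exact Nat.zero_le _) hX (hXc.mono (by omega) (Finset.Subset.refl _))
  obtain ⟨M, hM, hMc⟩ := pl_ex cr xx (univ : Finset α) ∅
  refine ⟨M, hM.pm, ?_⟩
  have h1 : lam cr xx u v ≤ M.card := by
    rw [hMc]
    exact pl_mono (Finset.subset_univ _) (fun x _ y _ _ z hz => absurd hz (Finset.notMem_empty _))
  have h2 : pl cr xx (Io u v) ∅ ≤ M.card := by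
    rw [hMc]
    exact pl_mono (Finset.subset_univ _) (fun x _ y _ _ z hz => absurd hz (Finset.notMem_empty _))
  have h3 := hXe rfl
  have h4 : (Io u v).card ≤ (Io u v \ X).card + X.card := by
    have := Finset.card_le_card_sdiff_add_card (s := Io u v) (t := X)
    omega
  have h5 : X.card ≤ (X \ X').card + X'.card := Finset.card_le_card_sdiff_add_card
  have h6 : β * Gc F β * lam cr xx u v ≤ β * Gc F β * M.card := Nat.mul_le_mul_left _ h1
  have h7 : F * pl cr xx (Io u v) ∅ ≤ F * M.card := Nat.mul_le_mul_left _ h2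
  rw [Nat.add_mul]
  omega

end H38P
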