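import Pool.Agent.Lib.H38P.Defs

/-!
# H38P, chunk A1 (S/M): the number `pl`
-/

open Finset

namespace H38P

variable {α : Type} [LinearOrder α] [Fintype α] {cr : α → α → α → Prop} {xx : α → α → α → α → Prop}

/-- Chunk A1 (S). `Finset.le_sup`. -/
theorem le_pl {I B : Finset α} {M : Finset (α × α)} (h : Mat cr xx I B M) : M.card ≤ pl cr xx I B := by
  classical
  unfold pl
  exact Finset.le_sup (f := Finset.card) (Finset.mem_filter.2 ⟨Finset.mem_univ _, h⟩)

/-- Chunk A1 (S). The empty matching is in the filter; `Finset.exists_mem_eq_sup`. -/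
theorem pl_ex (cr : α → α → α → Prop) (xx : α → α → α → α → Prop) (I B : Finset α) :
    ∃ M, Mat cr xx I B M ∧ M.card = pl cr xx I B := by
  classical
  have hne : ((univ : Finset (Finset (α × α))).filter (fun M => Mat cr xx I B M)).Nonempty := by
    refine ⟨∅, Finset.mem_filter.2 ⟨Finset.mem_univ _, ⟨⟨?_, ?_, ?_⟩, ?_, ?_⟩⟩⟩
    · intro e he
      exact absurd he (Finset.notMem_empty e)
    · intro e he
      exact absurd he (Finset.notMem_empty e)
    · intro e he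
      exact absurd he (Finset.notMem_empty e)
    · intro e he
      exact absurd he (Finset.notMem_empty e)
    · intro e he
      exact absurd he (Finset.notMem_empty e)
  obtain ⟨M, hM, hM2⟩ := Finset.exists_mem_eq_sup _ hne Finset.card
  refine ⟨M, (Finset.mem_filter.1 hM).2, ?_⟩
  unfold pl
  exact hM2.symm

/-- Chunk A1 (S). Take `M` of `pl_ex` for `I, B`; it is a `Mat` for `I', B'`. -/
theorem pl_mono {I B I' B' : Finset α} (hI : I ⊆ I')
    (h : ∀ x ∈ I, ∀ y ∈ I, (∀ z ∈ B, ¬ cr x y z) → ∀ z ∈ B', ¬ cr x y z) : pl cr xx I B ≤ pl cr xx I' B' := by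
  obtain ⟨M, hM, hc⟩ := pl_ex cr xx I B
  rw [← hc]
  refine le_pl ⟨hM.pm, fun e he => ⟨hI (hM.ins e he).1, hI (hM.ins e he).2⟩, fun e he z hz => ?_⟩
  exact h e.1 (hM.ins e he).1 e.2 (hM.ins e he).2 (hM.av e he) z hz

/-- Chunk A1 (M). PROOF. Take matchings `M i` of `pl_ex`; the union over `i ∈ s` (`Finset.biUnion`) is a `Mat` for `I0`, `B0`, and the `M i` are
pairwise disjoint (an edge in `M i` and `M j`, `i ≠ j`, has its first vertex in `I i` and in `I j`, contradiction with `h2`), so the card is the sum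
(`Finset.card_biUnion`). PM: for `e, f` in the same `M i` clear. For `e ∈ M i`, `f ∈ M j`, `i ≠ j`: by `h2` all vertices of `e` are less than all
vertices of `f` or conversely, so they are different, and no crossing by `loc` (and `xsymm`): `e` avoids the rays of the vertices of `f` by `h3`
(`I j ⊆ B i`) and conversely. -/
theorem pl_sum {K K' R F : ℕ} (hh : Hyp cr xx K K' R F) {ι : Type} (s : Finset ι) (I B : ι → Finset α) (I0 B0 : Finset α)
    (h1 : ∀ i ∈ s, I i ⊆ I0 ∧ B0 ⊆ B i)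
    (h2 : ∀ i ∈ s, ∀ j ∈ s, i ≠ j → (∀ x ∈ I i, ∀ y ∈ I j, x < y) ∨ (∀ x ∈ I i, ∀ y ∈ I j, y < x))
    (h3 : ∀ i ∈ s, ∀ j ∈ s, i ≠ j → I j ⊆ B i) : ∑ i ∈ s, pl cr xx (I i) (B i) ≤ pl cr xx I0 B0 := by
  classical
  choose M hM hc using fun i => pl_ex cr xx (I i) (B i)
  have hlt : ∀ i ∈ s, ∀ j ∈ s, i ≠ j → ∀ e ∈ M i, ∀ f ∈ M j,
      (e.1 < f.1 ∧ e.1 < f.2 ∧ e.2 < f.1 ∧ e.2 < f.2) ∨ (f.1 < e.1 ∧ f.1 < e.2 ∧ f.2 < e.1 ∧ f.2 < e.2) := by
    intro i hi j hj hij e he f hf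
    have he' := (hM i).ins e he
    have hf' := (hM j).ins f hf
    rcases h2 i hi j hj hij with h | h
    · left
      exact ⟨h _ he'.1 _ hf'.1, h _ he'.1 _ hf'.2, h _ he'.2 _ hf'.1, h _ he'.2 _ hf'.2⟩
    · right
      exact ⟨h _ he'.1 _ hf'.1, h _ he'.2 _ hf'.1, h _ he'.1 _ hf'.2, h _ he'.2 _ hf'.2⟩
  have hcross : ∀ i ∈ s, ∀ j ∈ s, i ≠ j → ∀ e ∈ M i, ∀ f ∈ M j, ¬ xx e.1 e.2 f.1 f.2 := by
    intro i hi j hj hij e he f hf
    have he' := (hM i).ins e he
    have hf' := (hM j).ins f hf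
    have a1 : ¬ cr e.1 e.2 f.1 := (hM i).av e he _ (h3 i hi j hj hij hf'.1)
    have a2 : ¬ cr e.1 e.2 f.2 := (hM i).av e he _ (h3 i hi j hj hij hf'.2)
    have a3 : ¬ cr f.1 f.2 e.1 := (hM j).av f hf _ (h3 j hj i hi hij.symm he'.1)
    have a4 : ¬ cr f.1 f.2 e.2 := (hM j).av f hf _ (h3 j hj i hi hij.symm he'.2)
    have n1 := (hM i).pm.ne e he
    have n2 := (hM j).pm.ne f hf
    rcases hlt i hi j hj hij e he f hf with ⟨b1, b2, b3, b4⟩ | ⟨b1, b2, b3, b4⟩
    · exact hh.loc _ _ _ _ n1 n2 b1 b2 b3 b4 a1 a2 a3 a4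
    · intro hx
      exact hh.loc _ _ _ _ n2 n1 b1 b2 b3 b4 a3 a4 a1 a2 (hh.xsymm _ _ _ _ hx)
  have hmat : Mat cr xx I0 B0 (s.biUnion M) := by
    refine ⟨⟨?_, ?_, ?_⟩, ?_, ?_⟩
    · intro e he
      obtain ⟨i, hi, he⟩ := Finset.mem_biUnion.1 he
      exact (hM i).pm.ne e he
    · intro e he f hf hef
      obtain ⟨i, hi, he⟩ := Finset.mem_biUnion.1 he
      obtain ⟨j, hj, hf⟩ := Finset.mem_biUnion.1 hf
      by_cases hij : i = j
      · subst hij
        exact (hM i).pm.disj e he f hf hef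
      · rcases hlt i hi j hj hij e he f hf with ⟨b1, b2, b3, b4⟩ | ⟨b1, b2, b3, b4⟩
        · exact ⟨b1.ne, b2.ne, b3.ne, b4.ne⟩
        · exact ⟨b1.ne', b3.ne', b2.ne', b4.ne'⟩
    · intro e he f hf hef
      obtain ⟨i, hi, he⟩ := Finset.mem_biUnion.1 he
      obtain ⟨j, hj, hf⟩ := Finset.mem_biUnion.1 hf
      by_cases hij : i = j
      · subst hij
        exact (hM i).pm.plane e he f hf hef
      · exact hcross i hi j hj hij e he f hf
    · intro e he
      obtain ⟨i, hi, he⟩ := Finset.mem_biUnion.1 he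
      exact ⟨(h1 i hi).1 ((hM i).ins e he).1, (h1 i hi).1 ((hM i).ins e he).2⟩
    · intro e he z hz
      obtain ⟨i, hi, he⟩ := Finset.mem_biUnion.1 he
      exact (hM i).av e he z ((h1 i hi).2 hz)
  have hcard : (s.biUnion M).card = ∑ i ∈ s, (M i).card := by
    apply Finset.card_biUnion
    intro i hi j hj hij
    refine Finset.disjoint_left.2 ?_
    intro e he he'
    rcases hlt i hi j hj hij e he e he' with ⟨b1, _⟩ | ⟨b1, _⟩
    · exact lt_irrefl _ b1
    · exact lt_irrefl _ b1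
  rw [← Finset.sum_congr rfl fun i _ => hc i, ← hcard]
  exact le_pl hmat

end H38P
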