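import Pool.Agent.Lib.H38P.A1

/-!
# H38P, chunk A3 (S/M): covers by chains
-/

open Finset

namespace H38P

variable {α : Type} [LinearOrder α] [Fintype α] {cr : α → α → α → Prop} {xx : α → α → α → α → Prop}

/-- Chunk A3 (S). -/
theorem Cov.mono {K K' : ℕ} {X X' : Finset α} (h : Cov cr K X) (hK : K ≤ K') (hX : X' ⊆ X) : Cov cr K' X' := by
  obtain ⟨S, h1, h2, h3⟩ := h
  exact ⟨S, h1.trans hK, fun x hx => h2 x (hX hx), h3⟩

/-- Chunk A3 (S). The union of the two families. -/
theorem Cov.union {K K' : ℕ} {X X' : Finset α} (h : Cov cr K X) (h' : Cov cr K' X') : Cov cr (K + K') (X ∪ X') := by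
  classical
  obtain ⟨S, h1, h2, h3⟩ := h
  obtain ⟨S', h1', h2', h3'⟩ := h'
  refine ⟨S ∪ S', (Finset.card_union_le _ _).trans (Nat.add_le_add h1 h1'), ?_, ?_⟩
  · intro x hx
    rcases Finset.mem_union.1 hx with hx | hx
    · obtain ⟨c, hc, hxc⟩ := h2 x hx
      exact ⟨c, Finset.mem_union_left _ hc, hxc⟩
    · obtain ⟨c, hc, hxc⟩ := h2' x hx
      exact ⟨c, Finset.mem_union_right _ hc, hxc⟩
  · intro c hc
    rcases Finset.mem_union.1 hc with hc | hc
    · exact h3 c hc
    · exact h3' c hc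

/-- Chunk A3 (S). The chain `{z}` with any ray `r ≠ z` (`r < z` or `z < r`). -/
theorem cov_single [Nontrivial α] (z : α) : Cov cr 1 {z} := by
  obtain ⟨r, hr⟩ := exists_ne z
  refine ⟨{({z}, r)}, by rw [Finset.card_singleton], ?_, ?_⟩
  · intro x hx
    exact ⟨({z}, r), Finset.mem_singleton_self _, hx⟩
  · intro c hc
    rw [Finset.mem_singleton] at hc
    rw [hc]
    refine ⟨?_, ?_⟩
    · rcases lt_or_gt_of_ne hr with h | h
      · left
        intro x hx
        rw [Finset.mem_singleton] at hx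
        rw [hx]
        exact h
      · right
        intro x hx
        rw [Finset.mem_singleton] at hx
        rw [hx]
        exact h
    · intro x hx y hy hxy
      rw [Finset.mem_singleton] at hx hy
      exact absurd (hx.trans hy.symm) hxy

/-- Chunk A3 (S). The empty family. -/
theorem cov_empty (K : ℕ) : Cov cr K (∅ : Finset α) := by
  refine ⟨∅, by rw [Finset.card_empty]; exact Nat.zero_le _, ?_, ?_⟩
  · intro x hx
    exact absurd hx (Finset.notMem_empty x)
  · intro c hc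
    exact absurd hc (Finset.notMem_empty c)

/-- Chunk A3 (S). `Hyp.gm`, `le_pl` and `(X \ X').card = X.card - X'.card` (`Finset.card_sdiff_of_subset`). -/
theorem gm_pl {K K' R F : ℕ} (hh : Hyp cr xx K K' R F) {I B X : Finset α} (h1 : ∀ z ∈ B, Out I z) (h2 : B.card ≤ R)
    (h3 : X ⊆ I) (h4 : Cov cr K X) :
    ∃ X' ⊆ X, Cov cr K' X' ∧ (B = ∅ → X'.card ≤ K) ∧ (X \ X').card ≤ F * pl cr xx I B := by
  obtain ⟨X', g1, g2, g3, M, hM, g4⟩ := hh.gm I B X h1 h2 h3 h4
  refine ⟨X', g1, g2, g3, ?_⟩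
  rw [Finset.card_sdiff_of_subset g1]
  have h5 : F * M.card ≤ F * pl cr xx I B := Nat.mul_le_mul_left F (le_pl hM)
  omega

end H38P
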