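import Pool.Agent.Lib.H38P.A2
import Pool.Agent.Lib.H38P.A3

/-!
# H38P, chunk B1 (M): merging along a dyadic tree
-/

open Finset

namespace H38P

variable {α : Type} [LinearOrder α] [Fintype α] {cr : α → α → α → Prop} {xx : α → α → α → α → Prop}

theorem b1_split (A : ℕ → ℕ) (k t : ℕ) : ∑ i ∈ Ico (t * 2 ^ (k + 1)) ((t + 1) * 2 ^ (k + 1)), A i =
    ∑ i ∈ Ico (2 * t * 2 ^ k) ((2 * t + 1) * 2 ^ k), A i + ∑ i ∈ Ico ((2 * t + 1) * 2 ^ k) ((2 * t + 1 + 1) * 2 ^ k), A i := by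
  have e1 : t * 2 ^ (k + 1) = 2 * t * 2 ^ k := by ring
  have e2 : (t + 1) * 2 ^ (k + 1) = (2 * t + 1 + 1) * 2 ^ k := by ring
  rw [e1, e2]
  exact (Finset.sum_Ico_consecutive A (Nat.mul_le_mul_right _ (by omega)) (Nat.mul_le_mul_right _ (by omega))).symm

/-- Chunk B1 (M). PROOF. Induction on `b`. `b = 0`: `X = X0 t`, `JJ p 0 t = Io (p t) (p (t + 1))`. Step: `JJ p (b + 1) t ⊆ insert z (J1 ∪ J2)` with
`J1 = JJ p b (2 * t)`, `J2 = JJ p b (2 * t + 1)`, `z = p ((2 * t + 1) * 2 ^ b)` (`Io_split`; `2 * t * 2 ^ b = t * 2 ^ (b + 1)`), and `J1, J2 ⊆ JJ p (b + 1) t`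
(`Io_sub`, `hp`). Let `X1, X2` be the sets for `J1, J2`. `Y = (X1 ∪ X2 ∪ {z}) ∩ JJ p (b + 1) t` satisfies `Cov (K' + K' + 1) Y`, so `gm_pl` (with `I = JJ p (b + 1) t`, `B (b + 1) t`)
gives `X ⊆ Y`, `Cov K' X`, `(Y \ X).card ≤ F * pl (JJ p (b + 1) t) (B (b + 1) t)`. `JJ p (b + 1) t \ X ⊆ (J1 \ X1) ∪ (J2 \ X2) ∪ (Y \ X)`. The sums: the range
`Ico (t * 2 ^ (b + 1)) ((t + 1) * 2 ^ (b + 1))` is the union of those of `2 * t` and `2 * t + 1` (`Finset.sum_Ico_consecutive`), the same for every `c < b`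
(`b + 1 - 1 - c = (b - 1 - c) + 1`), and the new term is `c = b`: `Ico (t * 2 ^ 0) ((t + 1) * 2 ^ 0) = {t}`. -/
theorem tree {K K' R F : ℕ} (hh : Hyp cr xx K K' R F) (hK : 2 * K' + 1 ≤ K) [Nontrivial α] (p : ℕ → α) (hp : Monotone p)
    (B : ℕ → ℕ → Finset α) (hB : ∀ b t, ∀ z ∈ B b t, Out (JJ p b t) z) (hR : ∀ b t, (B b t).card ≤ R) (X0 : ℕ → Finset α)
    (h0 : ∀ t, X0 t ⊆ Io (p t) (p (t + 1)) ∧ Cov cr K' (X0 t)) (b : ℕ) : ∀ t : ℕ, ∃ X ⊆ JJ p b t, Cov cr K' X ∧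
      (JJ p b t \ X).card ≤ ∑ i ∈ Ico (t * 2 ^ b) ((t + 1) * 2 ^ b), (Io (p i) (p (i + 1)) \ X0 i).card +
        F * ∑ c ∈ range b, ∑ i ∈ Ico (t * 2 ^ (b - 1 - c)) ((t + 1) * 2 ^ (b - 1 - c)), pl cr xx (JJ p (c + 1) i) (B (c + 1) i) := by
  induction b with
  | zero =>
    intro t
    have e1 : JJ p 0 t = Io (p t) (p (t + 1)) := by
      unfold JJ
      rw [pow_zero, mul_one, mul_one]
    refine ⟨X0 t, ?_, (h0 t).2, ?_⟩
    · rw [e1]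
      exact (h0 t).1
    · rw [e1, pow_zero, mul_one, mul_one, Nat.Ico_succ_singleton, Finset.sum_singleton, Finset.range_zero,
        Finset.sum_empty, mul_zero, add_zero]
  | succ b ih =>
    intro t
    obtain ⟨X1, hX1, hC1, hS1⟩ := ih (2 * t)
    obtain ⟨X2, hX2, hC2, hS2⟩ := ih (2 * t + 1)
    have hJ : JJ p (b + 1) t ⊆ insert (p ((2 * t + 1) * 2 ^ b)) (JJ p b (2 * t) ∪ JJ p b (2 * t + 1)) := by
      have e1 : t * 2 ^ (b + 1) = 2 * t * 2 ^ b := by ring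
      have e2 : (t + 1) * 2 ^ (b + 1) = (2 * t + 1 + 1) * 2 ^ b := by ring
      unfold JJ
      rw [e1, e2]
      exact Io_split _ _ _
    have hYc : Cov cr K ((insert (p ((2 * t + 1) * 2 ^ b)) (X1 ∪ X2)) ∩ JJ p (b + 1) t) := by
      have h1 := (hC1.union hC2).union (cov_single (cr := cr) (p ((2 * t + 1) * 2 ^ b)))
      refine h1.mono (by omega) ?_
      intro x hx
      have h2 := (mem_inter.1 hx).1
      rw [mem_insert] at h2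
      rw [mem_union, mem_singleton]
      exact h2.symm
    obtain ⟨X, hXY, hCX, -, hXc⟩ := gm_pl hh (hB (b + 1) t) (hR (b + 1) t)
      (inter_subset_right : (insert (p ((2 * t + 1) * 2 ^ b)) (X1 ∪ X2)) ∩ JJ p (b + 1) t ⊆ JJ p (b + 1) t) hYc
    refine ⟨X, hXY.trans inter_subset_right, hCX, ?_⟩
    have hsub : JJ p (b + 1) t \ X ⊆ ((JJ p b (2 * t) \ X1) ∪ (JJ p b (2 * t + 1) \ X2)) ∪
        (((insert (p ((2 * t + 1) * 2 ^ b)) (X1 ∪ X2)) ∩ JJ p (b + 1) t) \ X) := by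
      intro x hx
      rw [mem_sdiff] at hx
      have h1 := hJ hx.1
      rw [mem_insert, mem_union] at h1
      rw [mem_union, mem_union, mem_sdiff, mem_sdiff, mem_sdiff, mem_inter, mem_insert, mem_union]
      rcases h1 with h1 | h1 | h1
      · exact Or.inr ⟨⟨Or.inl h1, hx.1⟩, hx.2⟩
      · by_cases h2 : x ∈ X1
        · exact Or.inr ⟨⟨Or.inr (Or.inl h2), hx.1⟩, hx.2⟩
        · exact Or.inl (Or.inl ⟨h1, h2⟩)
      · by_cases h2 : x ∈ X2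
        · exact Or.inr ⟨⟨Or.inr (Or.inr h2), hx.1⟩, hx.2⟩
        · exact Or.inl (Or.inr ⟨h1, h2⟩)
    have hc := (card_le_card hsub).trans ((card_union_le _ _).trans (Nat.add_le_add_right (card_union_le _ _) _))
    rw [b1_split, Finset.sum_range_succ]
    have e3 : ∑ c ∈ range b, ∑ i ∈ Ico (t * 2 ^ (b + 1 - 1 - c)) ((t + 1) * 2 ^ (b + 1 - 1 - c)), pl cr xx (JJ p (c + 1) i) (B (c + 1) i) =
        ∑ c ∈ range b, ∑ i ∈ Ico (2 * t * 2 ^ (b - 1 - c)) ((2 * t + 1) * 2 ^ (b - 1 - c)), pl cr xx (JJ p (c + 1) i) (B (c + 1) i) +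
        ∑ c ∈ range b, ∑ i ∈ Ico ((2 * t + 1) * 2 ^ (b - 1 - c)) ((2 * t + 1 + 1) * 2 ^ (b - 1 - c)), pl cr xx (JJ p (c + 1) i) (B (c + 1) i) := by
      rw [← Finset.sum_add_distrib]
      refine Finset.sum_congr rfl fun c hc => ?_
      have hcb := Finset.mem_range.1 hc
      have e4 : b + 1 - 1 - c = (b - 1 - c) + 1 := by omega
      rw [e4]
      exact b1_split (fun i => pl cr xx (JJ p (c + 1) i) (B (c + 1) i)) (b - 1 - c) t
    have e5 : b + 1 - 1 - b = 0 := by omega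
    rw [e3, e5, pow_zero, mul_one, mul_one, Nat.Ico_succ_singleton, Finset.sum_singleton]
    have e6 : F * (∑ c ∈ range b, ∑ i ∈ Ico (2 * t * 2 ^ (b - 1 - c)) ((2 * t + 1) * 2 ^ (b - 1 - c)), pl cr xx (JJ p (c + 1) i) (B (c + 1) i) +
        ∑ c ∈ range b, ∑ i ∈ Ico ((2 * t + 1) * 2 ^ (b - 1 - c)) ((2 * t + 1 + 1) * 2 ^ (b - 1 - c)), pl cr xx (JJ p (c + 1) i) (B (c + 1) i) +
        pl cr xx (JJ p (b + 1) t) (B (b + 1) t)) =
        F * ∑ c ∈ range b, ∑ i ∈ Ico (2 * t * 2 ^ (b - 1 - c)) ((2 * t + 1) * 2 ^ (b - 1 - c)), pl cr xx (JJ p (c + 1) i) (B (c + 1) i) +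
        F * ∑ c ∈ range b, ∑ i ∈ Ico ((2 * t + 1) * 2 ^ (b - 1 - c)) ((2 * t + 1 + 1) * 2 ^ (b - 1 - c)), pl cr xx (JJ p (c + 1) i) (B (c + 1) i) +
        F * pl cr xx (JJ p (b + 1) t) (B (b + 1) t) := by ring
    rw [e6]
    omega

end H38P
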