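import Mathlib

/-!
# H38P, chunk B2 (S/M): the top differing bit
-/

namespace H38P

/-- Chunk B2 (S/M). PROOF. Let `e` be the least exponent with `s / 2 ^ e = t / 2 ^ e` (`Nat.find`; `e = β` works: both are `0`). `e ≠ 0`; `q = e - 1`. Then
`a = s / 2 ^ q ≠ b = t / 2 ^ q`, `a ≤ b` (`Nat.div_le_div_right`), `a / 2 = b / 2` (`Nat.div_div_eq_div_mul`): `b = a + 1`, `a` even, `b` odd
(`Nat.testBit_eq_decide_div_mod_eq` or `Nat.testBit_to_div_mod`). -/
theorem top_bit {s t β : ℕ} (h : s < t) (ht : t < 2 ^ β) :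
    ∃ q < β, s / 2 ^ q + 1 = t / 2 ^ q ∧ s.testBit q = false ∧ t.testBit q = true := by
  induction β generalizing s t with
  | zero =>
    rw [pow_zero] at ht
    omega
  | succ β ih =>
    by_cases h2 : s / 2 = t / 2
    · refine ⟨0, by omega, ?_, ?_, ?_⟩
      · rw [pow_zero, Nat.div_one, Nat.div_one]
        omega
      · rw [Nat.testBit_zero]
        have h3 : s % 2 = 0 := by omega
        simp [h3]
      · rw [Nat.testBit_zero]
        have h3 : t % 2 = 1 := by omega
        simp [h3]
    · have h3 : s / 2 < t / 2 := by omega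
      have h4 : t / 2 < 2 ^ β := by
        rw [pow_succ] at ht
        omega
      obtain ⟨q, hq, e1, e2, e3⟩ := ih h3 h4
      refine ⟨q + 1, by omega, ?_, ?_, ?_⟩
      · rw [pow_succ', ← Nat.div_div_eq_div_mul, ← Nat.div_div_eq_div_mul]
        exact e1
      · rw [Nat.testBit_succ]
        exact e2
      · rw [Nat.testBit_succ]
        exact e3

/-- Chunk B2 (S). -/
theorem bit_of_div {s t q : ℕ} (h : s / 2 ^ q = t / 2 ^ q) : s.testBit q = t.testBit q := by
  rw [Nat.testBit_eq_decide_div_mod_eq, Nat.testBit_eq_decide_div_mod_eq, h]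

end H38P
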