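import Pool.Agent.Lib.H38P.A2

/-!
# H38P, chunk B3 (M): an edge which crosses a ray of a group crosses a hub ray of the closed group
-/

open Finset

namespace H38P

variable {α : Type} [LinearOrder α] [Fintype α] {cr : α → α → α → Prop} {xx : α → α → α → α → Prop}

/-- Chunk B3 (S). `min` is monotone, `Face.mono`. -/
theorem pp_mono {u v : α} {m : ℕ} {h : ℕ → α} (hF : Face cr u v m h) {s : ℕ} (hs : s ≤ m) : Monotone (pp h s) := by
  intro i j hij
  show h (min i s) ≤ h (min j s)
  have h1 : min i s ≤ min j s := min_le_min hij le_rfl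
  rcases h1.lt_or_eq with h2 | h2
  · exact (hF.mono _ _ h2 (le_trans (min_le_right _ _) hs)).le
  · rw [h2]

/-- Chunk B3 (M). PROOF. `p = pp h s`. Let `k` be the least number with `z ≤ p k` (`Nat.find`; `z < p ((t + 1) * 2 ^ b)`). `k ≤ (t + 1) * 2 ^ b` and `t * 2 ^ b < k`
(`p` is monotone and `p (t * 2 ^ b) < z`). If `z = p k = h (min k s)`: take `min k s`; `t * 2 ^ b < s`, otherwise `p (t * 2 ^ b) = h s ≥ p k`. If `z < p k`: `p (k - 1) < z` (minimality), so
`k ≤ s` (otherwise `p (k - 1) = h s = p k`), `p (k - 1) = h (k - 1)`, `p k = h k`, and `z ∈ Io (h (k - 1)) (h k)`, so `RF` (`Face.rf`), and `Hyp.deti` gives `k - 1` or `k`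
(`x < p (t * 2 ^ b) ≤ h (k - 1)` or `h k ≤ p ((t + 1) * 2 ^ b) < x`, the same for `y`). -/
theorem hub_cross {K K' R F : ℕ} (hh : Hyp cr xx K K' R F) {u v : α} {m : ℕ} {h : ℕ → α} (hF : Face cr u v m h) {s : ℕ} (hs : s ≤ m)
    {b t : ℕ} {x y z : α} (hz : z ∈ JJ (pp h s) b t)
    (hx : x < pp h s (t * 2 ^ b) ∨ pp h s ((t + 1) * 2 ^ b) < x)
    (hy : y < pp h s (t * 2 ^ b) ∨ pp h s ((t + 1) * 2 ^ b) < y) (hc : cr x y z) :
    ∃ k, t * 2 ^ b ≤ k ∧ k ≤ (t + 1) * 2 ^ b ∧ k ≤ s ∧ cr x y (h k) := by
  classical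
  have hmono := pp_mono hF hs
  have hz' : pp h s (t * 2 ^ b) < z ∧ z < pp h s ((t + 1) * 2 ^ b) := by
    have := hz
    unfold JJ Io at this
    exact (Finset.mem_filter.1 this).2
  have hex : ∃ k, z ≤ pp h s k := ⟨_, hz'.2.le⟩
  obtain ⟨k, hk⟩ : ∃ k, k = Nat.find hex := ⟨_, rfl⟩
  have hk1 : z ≤ pp h s k := by rw [hk]; exact Nat.find_spec hex
  have hk2 : ∀ j < k, pp h s j < z := by
    intro j hj
    rw [hk] at hj
    exact not_le.1 (Nat.find_min hex hj)
  have hk3 : k ≤ (t + 1) * 2 ^ b := by rw [hk]; exact Nat.find_min' hex hz'.2.le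
  have hk4 : t * 2 ^ b < k := by
    by_contra hcon
    have := hmono (not_lt.1 hcon)
    exact absurd (lt_of_lt_of_le hz'.1 hk1) (not_lt.2 this)
  rcases hk1.lt_or_eq with hlt | heq
  · have hk0 : 1 ≤ k := by omega
    have hkm : pp h s (k - 1) < z := hk2 (k - 1) (by omega)
    have hks : k ≤ s := by
      by_contra hcon
      have e1 : pp h s (k - 1) = h s := by
        show h (min (k - 1) s) = h s
        rw [min_eq_right (by omega)]
      have e2 : pp h s k = h s := by
        show h (min k s) = h s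
        rw [min_eq_right (by omega)]
      rw [e1] at hkm
      rw [e2] at hk1
      exact absurd hkm (not_lt.2 hk1)
    have e1 : pp h s (k - 1) = h (k - 1) := by
      show h (min (k - 1) s) = h (k - 1)
      rw [min_eq_left (by omega)]
    have e2 : pp h s k = h k := by
      show h (min k s) = h k
      rw [min_eq_left hks]
    rw [e1] at hkm
    rw [e2] at hlt
    have hkk : k - 1 + 1 = k := by omega
    have hzI : z ∈ Io (h (k - 1)) (h k) := by
      unfold Io
      exact Finset.mem_filter.2 ⟨Finset.mem_univ _, hkm, hlt⟩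
    have hrf : RF cr (h (k - 1)) (h k) := by
      rcases hF.rf (k - 1) (by omega) with h1 | h1
      · rwa [hkk] at h1
      · rw [hkk] at h1
        rw [h1] at hzI
        exact absurd hzI (Finset.notMem_empty _)
    have a1 : pp h s (t * 2 ^ b) ≤ h (k - 1) := by
      rw [← e1]; exact hmono (by omega)
    have a2 : h k ≤ pp h s ((t + 1) * 2 ^ b) := by
      rw [← e2]; exact hmono hk3
    have hx' : x < h (k - 1) ∨ h k < x := by
      rcases hx with h1 | h1
      · exact Or.inl (lt_of_lt_of_le h1 a1)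
      · exact Or.inr (lt_of_le_of_lt a2 h1)
    have hy' : y < h (k - 1) ∨ h k < y := by
      rcases hy with h1 | h1
      · exact Or.inl (lt_of_lt_of_le h1 a1)
      · exact Or.inr (lt_of_le_of_lt a2 h1)
    rcases hh.deti (h (k - 1)) (h k) (lt_trans hkm hlt) hrf z hzI x y hx' hy' hc with h1 | h1
    · exact ⟨k - 1, by omega, by omega, by omega, h1⟩
    · exact ⟨k, by omega, hk3, hks, h1⟩
  · have hts : t * 2 ^ b < s := by
      by_contra hcon
      have e1 : pp h s (t * 2 ^ b) = h s := by
        show h (min _ s) = h s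
        rw [min_eq_right (by omega)]
      have e2 : pp h s k = h s := by
        show h (min k s) = h s
        rw [min_eq_right (by omega)]
      have := hz'.1
      rw [e1, heq, e2] at this
      exact lt_irrefl _ this
    refine ⟨min k s, ?_, ?_, min_le_right _ _, ?_⟩
    · exact le_min hk4.le hts.le
    · exact le_trans (min_le_left _ _) hk3
    · have : pp h s k = h (min k s) := rfl
      rw [← this, ← heq]
      exact hc

end H38P
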