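import Pool.Agent.Lib.H38P.B2
import Pool.Agent.Lib.H38P.B3

/-!
# H38P, chunk B4 (M/L): an edge avoiding the special rays crosses rays of groups on the left with one bit different only
-/

open Finset

namespace H38P

variable {α : Type} [LinearOrder α] [Fintype α] {cr : α → α → α → Prop} {xx : α → α → α → α → Prop}

/-- Chunk B4 (S). A nonempty group: `t * 2 ^ b < s`, so `t < 2 ^ β`. (`pp h s (t * 2 ^ b) < pp h s ((t + 1) * 2 ^ b)`; if `s ≤ t * 2 ^ b` both are `h s`.) -/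
theorem idx_lt {h : ℕ → α} {s b t β : ℕ} {x : α} (hx : x ∈ JJ (pp h s) b t) (hβ : s ≤ 2 ^ β) : t * 2 ^ b < s ∧ t < 2 ^ β := by
  have h1 : t * 2 ^ b < s := by
    by_contra hcon
    have h2 : s ≤ t * 2 ^ b := not_lt.1 hcon
    have h3 : s ≤ (t + 1) * 2 ^ b := h2.trans (Nat.mul_le_mul_right _ (Nat.le_succ t))
    unfold JJ at hx
    rw [mem_Io] at hx
    unfold pp at hx
    rw [min_eq_right h2, min_eq_right h3] at hx
    exact lt_asymm hx.1 hx.2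
  refine ⟨h1, ?_⟩
  have h2 : t ≤ t * 2 ^ b := Nat.le_mul_of_pos_right t (by positivity)
  omega

/-- Chunk B4 (M/L). PROOF. `p = pp h s`. Let `T` be the set of the `t' < t` such that `x y` crosses a ray of `JJ p b t'`. If `T` is empty take `q = 0`. Otherwise let `t2` be the greatest element
of `T`; `top_bit` for `t2 < t < 2 ^ β` (`idx_lt`) gives `q < β` with `t2 / 2 ^ q + 1 = t / 2 ^ q`, bit `q` of `t2` is `0`, of `t` is `1`. Claim: `t1 / 2 ^ q = t2 / 2 ^ q` for every `t1 ∈ T` (then `bit_of_div`).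
`t1 ≤ t2`, so `≤`. Suppose `t1 / 2 ^ q < t2 / 2 ^ q`. `hub_cross` (`x, y > p (t * 2 ^ b) ≥ p ((t' + 1) * 2 ^ b)`) gives crossed hubs `h k1`, `k1 ≤ (t1 + 1) * 2 ^ b`, and `h k2`, `t2 * 2 ^ b ≤ k2 ≤ (t2 + 1) * 2 ^ b ≤ t * 2 ^ b`.
`j = bq t q * 2 ^ b = (t / 2 ^ q - 1) * 2 ^ q * 2 ^ b` satisfies `k1 ≤ j ≤ k2` (`t1 + 1 ≤ (t1 / 2 ^ q + 1) * 2 ^ q ≤ (t / 2 ^ q - 1) * 2 ^ q = (t2 / 2 ^ q) * 2 ^ q ≤ t2`). The edge avoids the rays `p j`, `p (t * 2 ^ b) = h (t * 2 ^ b)` (`t * 2 ^ b < s`, `idx_lt`) and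
`p ((t + 1) * 2 ^ b) = h (min ((t + 1) * 2 ^ b) s)` (`BF`). `k2 < t * 2 ^ b` (not equal), `j ≤ k2 < s` so `p j = h j`, `j ≠ k1, k2`: contradiction with `loopL` for `k1 < j < k2 < t * 2 ^ b < min ((t + 1) * 2 ^ b) s ≤ m`. -/
theorem bitL {K K' R F : ℕ} (hh : Hyp cr xx K K' R F) {u v g g' : α} {m : ℕ} {h : ℕ → α} (hF : Face cr u v m h) {s β : ℕ} (hs : s ≤ m)
    (hβ : s ≤ 2 ^ β) {b t : ℕ} {x y : α} (hx : x ∈ JJ (pp h s) b t) (hy : y ∈ JJ (pp h s) b t)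
    (hav : ∀ z ∈ BF (pp h s) u v g g' β b t, ¬ cr x y z) :
    ∃ q ≤ β, ∀ t' < t, ∀ z ∈ JJ (pp h s) b t', cr x y z → t'.testBit q ≠ t.testBit q := by
  classical
  have hpm := pp_mono hF hs
  obtain ⟨hts, htβ⟩ := idx_lt hx hβ
  set T : Finset ℕ := (range t).filter (fun t' => ∃ z ∈ JJ (pp h s) b t', cr x y z) with hT
  have hmem : ∀ t', t' ∈ T ↔ t' < t ∧ ∃ z ∈ JJ (pp h s) b t', cr x y z := by
    intro t'
    rw [hT, mem_filter, mem_range]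
  rcases T.eq_empty_or_nonempty with hE | hNE
  · refine ⟨0, Nat.zero_le _, fun t' ht' z hz hc => ?_⟩
    have h1 : t' ∈ T := (hmem t').2 ⟨ht', z, hz, hc⟩
    rw [hE] at h1
    exact absurd h1 (Finset.notMem_empty _)
  obtain ⟨t2, ht2⟩ : ∃ t2, t2 = T.max' hNE := ⟨_, rfl⟩
  have ht2T : t2 ∈ T := ht2 ▸ T.max'_mem hNE
  have hmax : ∀ t1 ∈ T, t1 ≤ t2 := fun t1 h1 => ht2 ▸ T.le_max' t1 h1
  obtain ⟨ht2t, z2, hz2, hc2⟩ := (hmem t2).1 ht2T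
  obtain ⟨q, hqβ, hq1, hq2, hq3⟩ := top_bit ht2t htβ
  refine ⟨q, hqβ.le, fun t1 ht1 z1 hz1 hc1 => ?_⟩
  have ht1T : t1 ∈ T := (hmem t1).2 ⟨ht1, z1, hz1, hc1⟩
  suffices hcl : t1 / 2 ^ q = t2 / 2 ^ q by
    rw [bit_of_div hcl, hq2, hq3]
    decide
  by_contra hne
  have hlt : t1 / 2 ^ q < t2 / 2 ^ q := lt_of_le_of_ne (Nat.div_le_div_right (hmax t1 ht1T)) hne
  have hx' := hx
  have hy' := hy
  unfold JJ at hx' hy'
  rw [mem_Io] at hx' hy'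
  have hhub : ∀ t0 < t, ∀ z ∈ JJ (pp h s) b t0, cr x y z →
      ∃ k, t0 * 2 ^ b ≤ k ∧ k ≤ (t0 + 1) * 2 ^ b ∧ k ≤ s ∧ cr x y (h k) := by
    intro t0 ht0 z hz hc
    have h1 : pp h s ((t0 + 1) * 2 ^ b) ≤ pp h s (t * 2 ^ b) := hpm (Nat.mul_le_mul_right _ ht0)
    exact hub_cross hh hF hs hz (Or.inr (lt_of_le_of_lt h1 hx'.1)) (Or.inr (lt_of_le_of_lt h1 hy'.1)) hc
  obtain ⟨k1, hk1a, hk1b, hk1s, hk1c⟩ := hhub t1 ht1 z1 hz1 hc1
  obtain ⟨k2, hk2a, hk2b, hk2s, hk2c⟩ := hhub t2 ht2t z2 hz2 hc2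
  have hbq : bq t q = t2 / 2 ^ q * 2 ^ q := by
    unfold bq
    rw [hq3, if_pos rfl, ← hq1, Nat.add_sub_cancel]
  have hj2 : bq t q * 2 ^ b ≤ k2 := by
    refine le_trans (Nat.mul_le_mul_right _ ?_) hk2a
    rw [hbq]
    exact Nat.div_mul_le_self t2 (2 ^ q)
  have hj1 : k1 ≤ bq t q * 2 ^ b := by
    refine hk1b.trans (Nat.mul_le_mul_right _ ?_)
    rw [hbq]
    have h1 : t1 < (t1 / 2 ^ q + 1) * 2 ^ q := by
      have := Nat.lt_mul_div_succ t1 (show 0 < 2 ^ q by positivity)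
      rw [mul_comm]
      exact this
    exact le_trans h1 (Nat.mul_le_mul_right _ hlt)
  have hk2t : k2 ≤ t * 2 ^ b := hk2b.trans (Nat.mul_le_mul_right _ ht2t)
  have hpt : pp h s (t * 2 ^ b) = h (t * 2 ^ b) := by
    unfold pp
    rw [min_eq_left hts.le]
  have hav1 : ¬ cr x y (h (t * 2 ^ b)) := by
    rw [← hpt]
    refine hav _ (mem_union_left _ ?_)
    simp
  have hk2lt : k2 < t * 2 ^ b := by
    refine lt_of_le_of_ne hk2t ?_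
    intro h1
    rw [h1] at hk2c
    exact hav1 hk2c
  have hjs : bq t q * 2 ^ b ≤ s := by omega
  have hpj : pp h s (bq t q * 2 ^ b) = h (bq t q * 2 ^ b) := by
    unfold pp
    rw [min_eq_left hjs]
  have hav2 : ¬ cr x y (h (bq t q * 2 ^ b)) := by
    rw [← hpj]
    refine hav _ (mem_union_right _ (mem_image.2 ⟨q, mem_range.2 (by omega), rfl⟩))
  have hk1j : k1 < bq t q * 2 ^ b := by
    refine lt_of_le_of_ne hj1 ?_
    intro h1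
    rw [← h1] at hav2
    exact hav2 hk1c
  have hjk2 : bq t q * 2 ^ b < k2 := by
    refine lt_of_le_of_ne hj2 ?_
    intro h1
    rw [h1] at hav2
    exact hav2 hk2c
  have hav3 : ¬ cr x y (h (min ((t + 1) * 2 ^ b) s)) := by
    have h1 : h (min ((t + 1) * 2 ^ b) s) = pp h s ((t + 1) * 2 ^ b) := rfl
    rw [h1]
    refine hav _ (mem_union_left _ ?_)
    simp
  have htm : t * 2 ^ b < min ((t + 1) * 2 ^ b) s := by
    refine lt_min ?_ hts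
    exact Nat.mul_lt_mul_of_pos_right (Nat.lt_succ_self t) (by positivity)
  have hxI : x ∈ Io (h (t * 2 ^ b)) (h (min ((t + 1) * 2 ^ b) s)) := by
    rw [← hpt]
    exact hx
  have hyI : y ∈ Io (h (t * 2 ^ b)) (h (min ((t + 1) * 2 ^ b) s)) := by
    rw [← hpt]
    exact hy
  exact hav2 (hF.loopL k1 (bq t q * 2 ^ b) k2 (t * 2 ^ b) (min ((t + 1) * 2 ^ b) s) hk1j hjk2 hk2lt htm
    ((min_le_right _ _).trans hs) x hxI y hyI hav1 hav3 hk1c hk2c)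

end H38P
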