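import Pool.Agent.Lib.H38P.B4

/-!
# H38P, chunk B5 (M/L): the same on the right
-/

open Finset

namespace H38P

variable {α : Type} [LinearOrder α] [Fintype α] {cr : α → α → α → Prop} {xx : α → α → α → α → Prop}

/-- Chunk B5 (M/L). PROOF. As `bitL` (chunk B4). `p = pp h s`. Let `T` be the set of the `t' > t` such that `x y` crosses a ray of `JJ p b t'` (`t' < 2 ^ β` by `idx_lt`). If `T` is empty take `q = 0`. Otherwise let `t1` be the least element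
of `T` (`Nat.find`); `top_bit` for `t < t1 < 2 ^ β` gives `q < β` with `t / 2 ^ q + 1 = t1 / 2 ^ q`, bit `q` of `t` is `0`, of `t1` is `1`. Claim: `t2 / 2 ^ q = t1 / 2 ^ q` for every `t2 ∈ T`. Suppose `t1 / 2 ^ q < t2 / 2 ^ q`. `hub_cross` gives crossed hubs
`h k1`, `t1 * 2 ^ b ≤ k1 ≤ (t1 + 1) * 2 ^ b`, `k1 ≤ s` and `h k2`, `t2 * 2 ^ b ≤ k2 ≤ s`. `j = bq t q * 2 ^ b = (t / 2 ^ q + 2) * 2 ^ q * 2 ^ b` satisfies `k1 ≤ j ≤ k2`
(`t1 + 1 ≤ (t1 / 2 ^ q + 1) * 2 ^ q = (t / 2 ^ q + 2) * 2 ^ q ≤ (t2 / 2 ^ q) * 2 ^ q ≤ t2`). The edge avoids `p j = h j` (`j ≤ k2 ≤ s`), `h (t * 2 ^ b)`, and `p ((t + 1) * 2 ^ b) = h ((t + 1) * 2 ^ b)` (`(t + 1) * 2 ^ b ≤ t1 * 2 ^ b ≤ k1 ≤ s`), so `(t + 1) * 2 ^ b < k1 < j < k2 ≤ m`: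
contradiction with `loopR`. -/
theorem bitR {K K' R F : ℕ} (hh : Hyp cr xx K K' R F) {u v g g' : α} {m : ℕ} {h : ℕ → α} (hF : Face cr u v m h) {s β : ℕ} (hs : s ≤ m)
    (hβ : s ≤ 2 ^ β) {b t : ℕ} {x y : α} (hx : x ∈ JJ (pp h s) b t) (hy : y ∈ JJ (pp h s) b t)
    (hav : ∀ z ∈ BF (pp h s) u v g g' β b t, ¬ cr x y z) :
    ∃ q ≤ β, ∀ t', t < t' → ∀ z ∈ JJ (pp h s) b t', cr x y z → t'.testBit q ≠ t.testBit q := by
  classical
  by_cases hT : ∃ t', t < t' ∧ ∃ z ∈ JJ (pp h s) b t', cr x y z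
  swap
  · exact ⟨0, Nat.zero_le _, fun t' ht' z hz hc => absurd ⟨t', ht', z, hz, hc⟩ hT⟩
  obtain ⟨htt1, z1, hz1, hc1⟩ := Nat.find_spec hT
  set t1 := Nat.find hT with ht1
  have hmin : ∀ t', (t < t' ∧ ∃ z ∈ JJ (pp h s) b t', cr x y z) → t1 ≤ t' := fun t' h' => Nat.find_min' hT h'
  have hmono := pp_mono hF hs
  obtain ⟨q, hq, hdiv, hb0, hb1⟩ := top_bit htt1 (idx_lt hz1 hβ).2
  refine ⟨q, hq.le, ?_⟩
  intro t2 htt2 z2 hz2 hc2
  have h12 : t1 ≤ t2 := hmin t2 ⟨htt2, z2, hz2, hc2⟩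
  have hdle : t1 / 2 ^ q ≤ t2 / 2 ^ q := Nat.div_le_div_right h12
  rcases Nat.eq_or_lt_of_le hdle with heq | hlt
  · rw [← bit_of_div heq, hb1, hb0]
    decide
  exfalso
  have hxl : ∀ t', t < t' → x < pp h s (t' * 2 ^ b) := by
    intro t' h'
    have := (Finset.mem_filter.1 hx).2.2
    exact lt_of_lt_of_le this (hmono (Nat.mul_le_mul_right _ h'))
  have hyl : ∀ t', t < t' → y < pp h s (t' * 2 ^ b) := by
    intro t' h'
    have := (Finset.mem_filter.1 hy).2.2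
    exact lt_of_lt_of_le this (hmono (Nat.mul_le_mul_right _ h'))
  obtain ⟨k1, hk1a, hk1b, hk1s, hk1c⟩ := hub_cross hh hF hs hz1 (Or.inl (hxl t1 htt1)) (Or.inl (hyl t1 htt1)) hc1
  obtain ⟨k2, hk2a, hk2b, hk2s, hk2c⟩ := hub_cross hh hF hs hz2 (Or.inl (hxl t2 htt2)) (Or.inl (hyl t2 htt2)) hc2
  have hpos : 0 < 2 ^ q := Nat.two_pow_pos q
  have e1 : t1 + 1 ≤ (t / 2 ^ q + 2) * 2 ^ q := by
    have h1 := Nat.div_add_mod t1 (2 ^ q)
    have h2 := Nat.mod_lt t1 hpos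
    rw [← hdiv] at h1
    nlinarith
  have e2 : (t / 2 ^ q + 2) * 2 ^ q ≤ t2 := by
    have h1 := Nat.div_mul_le_self t2 (2 ^ q)
    have h2 : t / 2 ^ q + 2 ≤ t2 / 2 ^ q := by omega
    exact le_trans (Nat.mul_le_mul_right _ h2) h1
  set j := bq t q * 2 ^ b with hj
  have hbq : bq t q = (t / 2 ^ q + 2) * 2 ^ q := by
    unfold bq
    rw [hb0]
    simp
  have hk1j : k1 ≤ j := by
    rw [hj, hbq]
    exact le_trans hk1b (Nat.mul_le_mul_right _ e1)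
  have hjk2 : j ≤ k2 := by
    rw [hj, hbq]
    exact le_trans (Nat.mul_le_mul_right _ e2) hk2a
  have hjs : j ≤ s := le_trans hjk2 hk2s
  have hcj : ¬ cr x y (h j) := by
    have : pp h s j = h j := by rw [pp, min_eq_left hjs]
    rw [← this]
    apply hav
    unfold BF
    rw [Finset.mem_union]
    right
    rw [Finset.mem_image]
    exact ⟨q, Finset.mem_range.2 (by omega), rfl⟩
  have hts : t * 2 ^ b < s := (idx_lt hx hβ).1
  have hc0 : ¬ cr x y (h (t * 2 ^ b)) := by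
    have : pp h s (t * 2 ^ b) = h (t * 2 ^ b) := by rw [pp, min_eq_left hts.le]
    rw [← this]
    apply hav
    unfold BF
    simp
  have hk1t : (t + 1) * 2 ^ b ≤ k1 := le_trans (Nat.mul_le_mul_right _ htt1) hk1a
  have hpt : pp h s ((t + 1) * 2 ^ b) = h ((t + 1) * 2 ^ b) := by
    rw [pp, min_eq_left (le_trans hk1t hk1s)]
  have hpt0 : pp h s (t * 2 ^ b) = h (t * 2 ^ b) := by rw [pp, min_eq_left hts.le]
  have hc1' : ¬ cr x y (h ((t + 1) * 2 ^ b)) := by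
    rw [← hpt]
    apply hav
    unfold BF
    simp
  have hk1t' : (t + 1) * 2 ^ b ≠ k1 := by
    intro h'
    rw [h'] at hc1'
    exact hc1' hk1c
  have hk1j' : k1 ≠ j := by
    intro h'
    rw [h'] at hk1c
    exact hcj hk1c
  have hjk2' : j ≠ k2 := by
    intro h'
    rw [← h'] at hk2c
    exact hcj hk2c
  have hx' : x ∈ Io (h (t * 2 ^ b)) (h ((t + 1) * 2 ^ b)) := by
    rw [← hpt, ← hpt0]
    exact hx
  have hy' : y ∈ Io (h (t * 2 ^ b)) (h ((t + 1) * 2 ^ b)) := by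
    rw [← hpt, ← hpt0]
    exact hy
  have htlt : t * 2 ^ b < (t + 1) * 2 ^ b := by
    have : 0 < 2 ^ b := Nat.two_pow_pos b
    nlinarith
  exact hcj (hF.loopR k1 j k2 (t * 2 ^ b) ((t + 1) * 2 ^ b) htlt (lt_of_le_of_ne hk1t hk1t')
    (lt_of_le_of_ne hk1j hk1j') (lt_of_le_of_ne hjk2 hjk2') (le_trans hk2s hs) x hx' y hy' hc0 hc1' hk1c hk2c)

end H38P
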