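import Pool.Agent.Lib.H38P.A1

/-!
# H38P, chunk B6 (M): matchings in classes
-/

open Finset

namespace H38P

variable {α : Type} [LinearOrder α] [Fintype α] {cr : α → α → α → Prop} {xx : α → α → α → α → Prop}

/-- Chunk B6 (M). PROOF. Let `M t` be the matchings of `pl_ex` for `J t, B t`. For `c : γ` let `U c` be the union over `t < T` of the edges `e` of `M t` with `cl t e = c`. `U c` is a `Mat` for `I0, B0` (`hJ`, `hcl`; two edges of
the same `M t`: clear; two edges of different `M t`, `M t'`: separated by `hsep`, so disjoint, and not crossing by `loc` and `hc`), so `(U c).card ≤ pl I0 B0` (`le_pl`). `∑ (M t).card = ∑ over t and c of the number of edges of class c`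
(`Finset.card_eq_sum_card_fiberwise`) `= ∑ over c of (U c).card` (disjoint union) `≤ Fintype.card γ * pl`. -/
theorem class_pl {K K' R F : ℕ} (hh : Hyp cr xx K K' R F) {γ : Type} [Fintype γ] [DecidableEq γ] (T : ℕ) (J B : ℕ → Finset α)
    (I0 B0 : Finset α) (cl : ℕ → α × α → γ) (hJ : ∀ t < T, J t ⊆ I0) (hsep : ∀ t t', t < t' → ∀ x ∈ J t, ∀ y ∈ J t', x < y)
    (hcl : ∀ t < T, ∀ x ∈ J t, ∀ y ∈ J t, (∀ z ∈ B t, ¬ cr x y z) → ∀ z ∈ B0, ¬ cr x y z)
    (hc : ∀ t < T, ∀ t' < T, t ≠ t' → ∀ x ∈ J t, ∀ y ∈ J t, ∀ x' ∈ J t', ∀ y' ∈ J t', (∀ z ∈ B t, ¬ cr x y z) →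
      (∀ z ∈ B t', ¬ cr x' y' z) → cl t (x, y) = cl t' (x', y') → ¬ cr x y x' ∧ ¬ cr x y y') :
    ∑ t ∈ range T, pl cr xx (J t) (B t) ≤ Fintype.card γ * pl cr xx I0 B0 := by
  classical
  choose M hM hMc using fun t => pl_ex cr xx (J t) (B t)
  set U : γ → Finset (α × α) := fun c => (range T).biUnion fun t => (M t).filter fun e => cl t e = c with hU
  have memU : ∀ c e, e ∈ U c ↔ ∃ t, t < T ∧ e ∈ M t ∧ cl t e = c := by
    intro c e
    simp only [hU, mem_biUnion, mem_range, mem_filter]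
  -- separation
  have sep : ∀ t t', t ≠ t' → ∀ e ∈ M t, ∀ f ∈ M t', (e.1 ≠ f.1 ∧ e.1 ≠ f.2 ∧ e.2 ≠ f.1 ∧ e.2 ≠ f.2) := by
    intro t t' htt e he f hf
    obtain ⟨e1, e2⟩ := (hM t).ins e he
    obtain ⟨f1, f2⟩ := (hM t').ins f hf
    rcases lt_or_gt_of_ne htt with h | h
    · exact ⟨(hsep t t' h _ e1 _ f1).ne, (hsep t t' h _ e1 _ f2).ne, (hsep t t' h _ e2 _ f1).ne, (hsep t t' h _ e2 _ f2).ne⟩
    · exact ⟨(hsep t' t h _ f1 _ e1).ne', (hsep t' t h _ f2 _ e1).ne', (hsep t' t h _ f1 _ e2).ne', (hsep t' t h _ f2 _ e2).ne'⟩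
  have nocr : ∀ t t', t < t' → t < T → t' < T → ∀ e ∈ M t, ∀ f ∈ M t', cl t e = cl t' f → ¬ xx e.1 e.2 f.1 f.2 := by
    intro t t' htt hT hT' e he f hf hcc
    obtain ⟨e1, e2⟩ := (hM t).ins e he
    obtain ⟨f1, f2⟩ := (hM t').ins f hf
    have a1 := hc t hT t' hT' htt.ne _ e1 _ e2 _ f1 _ f2 ((hM t).av e he) ((hM t').av f hf) hcc
    have a2 := hc t' hT' t hT htt.ne' _ f1 _ f2 _ e1 _ e2 ((hM t').av f hf) ((hM t).av e he) hcc.symm
    exact hh.loc _ _ _ _ ((hM t).pm.ne e he) ((hM t').pm.ne f hf) (hsep t t' htt _ e1 _ f1) (hsep t t' htt _ e1 _ f2)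
      (hsep t t' htt _ e2 _ f1) (hsep t t' htt _ e2 _ f2) a1.1 a1.2 a2.1 a2.2
  have hmat : ∀ c, Mat cr xx I0 B0 (U c) := by
    intro c
    refine ⟨⟨?_, ?_, ?_⟩, ?_, ?_⟩
    · intro e he
      obtain ⟨t, ht, he, -⟩ := (memU c e).1 he
      exact (hM t).pm.ne e he
    · intro e he f hf hef
      obtain ⟨t, ht, he, -⟩ := (memU c e).1 he
      obtain ⟨t', ht', hf, -⟩ := (memU c f).1 hf
      by_cases htt : t = t'
      · subst htt
        exact (hM t).pm.disj e he f hf hef
      · exact sep t t' htt e he f hf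
    · intro e he f hf hef
      obtain ⟨t, ht, he, hce⟩ := (memU c e).1 he
      obtain ⟨t', ht', hf, hcf⟩ := (memU c f).1 hf
      by_cases htt : t = t'
      · subst htt
        exact (hM t).pm.plane e he f hf hef
      · rcases lt_or_gt_of_ne htt with h | h
        · exact nocr t t' h ht ht' e he f hf (hce.trans hcf.symm)
        · intro hx
          exact nocr t' t h ht' ht f hf e he (hcf.trans hce.symm) (hh.xsymm _ _ _ _ hx)
    · intro e he
      obtain ⟨t, ht, he, -⟩ := (memU c e).1 he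
      exact ⟨hJ t ht ((hM t).ins e he).1, hJ t ht ((hM t).ins e he).2⟩
    · intro e he z hz
      obtain ⟨t, ht, he, -⟩ := (memU c e).1 he
      exact hcl t ht _ ((hM t).ins e he).1 _ ((hM t).ins e he).2 ((hM t).av e he) z hz
  have hcardU : ∀ c, (U c).card = ∑ t ∈ range T, ((M t).filter fun e => cl t e = c).card := by
    intro c
    rw [hU]
    apply card_biUnion
    intro t _ t' _ htt
    rw [Function.onFun, Finset.disjoint_left]
    intro e he he'
    rw [mem_filter] at he he'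
    exact (sep t t' htt e he.1 e he'.1).1 rfl
  calc ∑ t ∈ range T, pl cr xx (J t) (B t) = ∑ t ∈ range T, (M t).card := by
        apply sum_congr rfl; intro t _; rw [hMc]
    _ = ∑ t ∈ range T, ∑ c : γ, ((M t).filter fun e => cl t e = c).card := by
        apply sum_congr rfl
        intro t _
        exact card_eq_sum_card_fiberwise (fun e _ => mem_coe.2 (mem_univ _))
    _ = ∑ c : γ, (U c).card := by
        rw [sum_comm]
        apply sum_congr rfl
        intro c _
        rw [hcardU]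
    _ ≤ ∑ _c : γ, pl cr xx I0 B0 := sum_le_sum fun c _ => le_pl (hmat c)
    _ = Fintype.card γ * pl cr xx I0 B0 := by
        rw [sum_const, card_univ, smul_eq_mul]

end H38P
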