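import Pool.Agent.Lib.H38P.B5
import Pool.Agent.Lib.H38P.B6

/-!
# H38P, chunk B7 (M): the payment for one level of a face
-/

open Finset

namespace H38P

variable {α : Type} [LinearOrder α] [Fintype α] {cr : α → α → α → Prop} {xx : α → α → α → α → Prop}

/-- Chunk B7 (S/M). PROOF. `z ∉ Nd u v g g'`: `z ≤ u` or `v ≤ z` or `g ≤ z ≤ g'`. `z = u, v, g, g'`: hypothesis. `z < u` or `v < z`: `deto` for `u, v`. `g < z < g'`: `RF cr g g'` and `deti` (`x, y < g`). -/
theorem loc_Nd {K K' R F : ℕ} (hh : Hyp cr xx K K' R F) {u v g g' : α} (huv : RF cr u v) (hg : g ≤ g') (hgv : g' ≤ v)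
    (hrf : RF cr g g' ∨ Io g g' = ∅) {x y : α} (hx : x ∈ Io u g) (hy : y ∈ Io u g) (hu : ¬ cr x y u) (hv : ¬ cr x y v)
    (h1 : ¬ cr x y g) (h2 : ¬ cr x y g') (z : α) (hz : z ∉ Nd u v g g') : ¬ cr x y z := by
  have hxg := (mem_Io.1 hx)
  have hyg := (mem_Io.1 hy)
  have huv' : u < v := lt_of_lt_of_le (lt_of_lt_of_le (hxg.1.trans hxg.2) hg) hgv
  have hxv : x ∈ Io u v := mem_Io.2 ⟨hxg.1, lt_of_lt_of_le (lt_of_lt_of_le hxg.2 hg) hgv⟩
  have hyv : y ∈ Io u v := mem_Io.2 ⟨hyg.1, lt_of_lt_of_le (lt_of_lt_of_le hyg.2 hg) hgv⟩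
  intro hc
  rcases lt_trichotomy z u with h | h | h
  · rcases hh.deto u v huv' huv z (Or.inl h) x hxv y hyv hc with h' | h'
    · exact hu h'
    · exact hv h'
  · rw [h] at hc
    exact hu hc
  · rcases lt_trichotomy z v with h' | h' | h'
    · have h3 : ¬ (z < g ∨ g' < z) := by
        intro h4
        apply hz
        unfold Nd
        rw [Finset.mem_filter]
        exact ⟨Finset.mem_univ _, h, h', h4⟩
      push Not at h3
      rcases eq_or_lt_of_le h3.1 with h5 | h5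
      · rw [← h5] at hc
        exact h1 hc
      · rcases eq_or_lt_of_le h3.2 with h6 | h6
        · rw [h6] at hc
          exact h2 hc
        · have h7 : z ∈ Io g g' := mem_Io.2 ⟨h5, h6⟩
          rcases hrf with h8 | h8
          · rcases hh.deti g g' (h5.trans h6) h8 z h7 x y (Or.inl hxg.2) (Or.inl hyg.2) hc with h9 | h9
            · exact h1 h9
            · exact h2 h9
          · rw [h8] at h7
            exact absurd h7 (Finset.notMem_empty _)
    · rw [h'] at hc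
      exact hv hc
    · rcases hh.deto u v huv' huv z (Or.inr h') x hxv y hyv hc with h9 | h9
      · exact hu h9
      · exact hv h9

theorem b7_bq (t q : ℕ) : bq t q ≤ t ∨ t + 1 ≤ bq t q := by
  have hpos : 0 < 2 ^ q := Nat.two_pow_pos q
  have h1 : t / 2 ^ q * 2 ^ q ≤ t := Nat.div_mul_le_self _ _
  have h2 : t < (t / 2 ^ q + 1) * 2 ^ q := by
    rw [mul_comm]
    exact Nat.lt_mul_div_succ t hpos
  unfold bq
  split_ifs with h
  · left
    exact (Nat.mul_le_mul_right _ (Nat.sub_le _ _)).trans h1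
  · right
    have h3 : (t / 2 ^ q + 1) * 2 ^ q ≤ (t / 2 ^ q + 2) * 2 ^ q := Nat.mul_le_mul_right _ (by omega)
    omega

/-- Chunk B7 (S). The rays of `BF` are outside the group. PROOF. `p = pp h s` is monotone (`pp_mono`), `u = p 0`; `v = h m`, `g = h s`, `g'` are `≥ h s ≥ p j` for all `j`. `bq t q ≤ t` if bit `q` of `t` is `1`, `bq t q ≥ t + 1` otherwise
(`t < (t / 2 ^ q + 1) * 2 ^ q`). -/
theorem BF_out {u v g' : α} {m : ℕ} {h : ℕ → α} (hF : Face cr u v m h) {s β : ℕ} (hs : s ≤ m) (hg : h s ≤ g') (b t : ℕ) :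
    ∀ z ∈ BF (pp h s) u v (h s) g' β b t, Out (JJ (pp h s) b t) z := by
  have hm := pp_mono hF hs
  intro z hz
  have hps : ∀ j, pp h s j ≤ h s := by
    intro j
    have h1 : pp h s j ≤ pp h s (max j s) := hm (le_max_left _ _)
    have h2 : pp h s (max j s) = h s := by
      unfold pp
      rw [min_eq_right (le_max_right _ _)]
    rwa [h2] at h1
  have hsv : h s ≤ v := by
    rw [← hF.hm]
    rcases eq_or_lt_of_le hs with h1 | h1
    · rw [h1]
    · exact (hF.mono s m h1 le_rfl).le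
  have hup : ∀ j, u ≤ pp h s j := by
    intro j
    have h1 : pp h s 0 ≤ pp h s j := hm (Nat.zero_le _)
    have h2 : pp h s 0 = u := by
      unfold pp
      rw [Nat.zero_min, hF.h0]
    rwa [h2] at h1
  have hleft : ∀ z, z ≤ pp h s (t * 2 ^ b) → Out (JJ (pp h s) b t) z := fun z hz =>
    Or.inl fun x hx => lt_of_le_of_lt hz (mem_Io.1 hx).1
  have hright : ∀ z, pp h s ((t + 1) * 2 ^ b) ≤ z → Out (JJ (pp h s) b t) z := fun z hz =>
    Or.inr fun x hx => lt_of_lt_of_le (mem_Io.1 hx).2 hz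
  unfold BF at hz
  rw [Finset.mem_union] at hz
  rcases hz with hz | hz
  · simp only [Finset.mem_insert, Finset.mem_singleton] at hz
    rcases hz with hz | hz | hz | hz | hz | hz
    · exact hleft z hz.le
    · exact hright z hz.ge
    · exact hleft z (hz.le.trans (hup _))
    · exact hright z ((hps _).trans (hsv.trans hz.ge))
    · exact hright z ((hps _).trans hz.ge)
    · exact hright z ((hps _).trans (hg.trans hz.ge))
  · rw [Finset.mem_image] at hz
    obtain ⟨q, -, hq⟩ := hz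
    rcases b7_bq t q with h1 | h1
    · refine hleft z ?_
      rw [← hq]
      exact hm (Nat.mul_le_mul_right _ h1)
    · refine hright z ?_
      rw [← hq]
      exact hm (Nat.mul_le_mul_right _ h1)

/-- Chunk B7 (S). `6 + (β + 1)`. -/
theorem BF_card (p : ℕ → α) (u v g g' : α) (β b t : ℕ) : (BF p u v g g' β b t).card ≤ β + 7 := by
  unfold BF
  refine (Finset.card_union_le _ _).trans ?_
  have h1 : (({p (t * 2 ^ b), p ((t + 1) * 2 ^ b), u, v, g, g'} : Finset α)).card ≤ 6 := Finset.card_le_six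
  have h2 : ((range (β + 1)).image (fun q => p (bq t q * 2 ^ b))).card ≤ β + 1 :=
    Finset.card_image_le.trans (Finset.card_range _).le
  omega

/-- Chunk B7 (M). PROOF. `class_pl` with `J t = JJ (pp h s) b t`, `B t = BF ..`, `I0 = Io u (h s)`, `B0 = (Nd u v (h s) g')ᶜ`, `γ = Fin (β + 1) × Bool × Fin (β + 1) × Bool` (card `4 (β + 1)²`) and the class
`(qL, t.testBit qL, qR, t.testBit qR)` with `qL, qR` chosen by `bitL`, `bitR` (if they exist, otherwise `0`: write `open Classical`, `if h : ∃ q ≤ β, .. then choose .. else 0`). `hc`: say `t < t'`: `x y` crosses no ray `z` of `J t'`, since `t'.testBit qR = t.testBit qR` (`qR` is the same for both);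
`t' < t`: the same with `qL`. `hcl`: `loc_Nd`. -/
theorem level_sum {K K' R F : ℕ} (hh : Hyp cr xx K K' R F) {u v g' : α} {m : ℕ} {h : ℕ → α} (hF : Face cr u v m h) (huv : RF cr u v)
    {s β : ℕ} (hs : s ≤ m) (hβ : s ≤ 2 ^ β) (hg : h s ≤ g') (hgv : g' ≤ v) (hrf : RF cr (h s) g' ∨ Io (h s) g' = ∅) (b T : ℕ) :
    ∑ t ∈ range T, pl cr xx (JJ (pp h s) b t) (BF (pp h s) u v (h s) g' β b t) ≤
      4 * (β + 1) ^ 2 * pl cr xx (Io u (h s)) (Nd u v (h s) g')ᶜ := by
  classical
  have hm := pp_mono hF hs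
  have hps : ∀ j, pp h s j ≤ h s := by
    intro j
    have h1 : pp h s j ≤ pp h s (max j s) := hm (le_max_left _ _)
    have h2 : pp h s (max j s) = h s := by
      unfold pp
      rw [min_eq_right (le_max_right _ _)]
    rwa [h2] at h1
  have hup : ∀ j, u ≤ pp h s j := by
    intro j
    have h1 : pp h s 0 ≤ pp h s j := hm (Nat.zero_le _)
    have h2 : pp h s 0 = u := by
      unfold pp
      rw [Nat.zero_min, hF.h0]
    rwa [h2] at h1
  obtain ⟨qL, hqL⟩ : ∃ qL : ℕ → α × α → Fin (β + 1), ∀ t e, (∃ q : Fin (β + 1), ∀ t' < t, ∀ z ∈ JJ (pp h s) b t',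
      cr e.1 e.2 z → t'.testBit q ≠ t.testBit q) → ∀ t' < t, ∀ z ∈ JJ (pp h s) b t',
      cr e.1 e.2 z → t'.testBit (qL t e) ≠ t.testBit (qL t e) := by
    refine ⟨fun t e => if h : ∃ q : Fin (β + 1), ∀ t' < t, ∀ z ∈ JJ (pp h s) b t',
      cr e.1 e.2 z → t'.testBit q ≠ t.testBit q then h.choose else 0, fun t e hex => ?_⟩
    simp only [dif_pos hex]
    exact hex.choose_spec
  obtain ⟨qR, hqR⟩ : ∃ qR : ℕ → α × α → Fin (β + 1), ∀ t e, (∃ q : Fin (β + 1), ∀ t', t < t' → ∀ z ∈ JJ (pp h s) b t',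
      cr e.1 e.2 z → t'.testBit q ≠ t.testBit q) → ∀ t', t < t' → ∀ z ∈ JJ (pp h s) b t',
      cr e.1 e.2 z → t'.testBit (qR t e) ≠ t.testBit (qR t e) := by
    refine ⟨fun t e => if h : ∃ q : Fin (β + 1), ∀ t', t < t' → ∀ z ∈ JJ (pp h s) b t',
      cr e.1 e.2 z → t'.testBit q ≠ t.testBit q then h.choose else 0, fun t e hex => ?_⟩
    simp only [dif_pos hex]
    exact hex.choose_spec
  have key := class_pl hh (γ := Fin (β + 1) × Bool × Fin (β + 1) × Bool) T (fun t => JJ (pp h s) b t)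
    (fun t => BF (pp h s) u v (h s) g' β b t) (Io u (h s)) (Nd u v (h s) g')ᶜ
    (fun t e => (qL t e, t.testBit (qL t e), qR t e, t.testBit (qR t e)))
    (fun t _ => Io_sub (hup _) (hps _))
    (fun t t' htt x hx y hy => lt_of_lt_of_le (mem_Io.1 hx).2
      ((hm (Nat.mul_le_mul_right _ (by omega : t + 1 ≤ t'))).trans (mem_Io.1 hy).1.le)) ?_ ?_
  · refine key.trans (le_of_eq ?_)
    congr 1
    simp only [Fintype.card_prod, Fintype.card_fin, Fintype.card_bool]
    ring
  · intro t _ x hx y hy hav z hz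
    have hmem : ∀ w ∈ ({pp h s (t * 2 ^ b), pp h s ((t + 1) * 2 ^ b), u, v, h s, g'} : Finset α), ¬ cr x y w :=
      fun w hw => hav w (by unfold BF; exact Finset.mem_union_left _ hw)
    have hx' : x ∈ Io u (h s) := Io_sub (hup _) (hps _) hx
    have hy' : y ∈ Io u (h s) := Io_sub (hup _) (hps _) hy
    refine loc_Nd hh huv hg hgv hrf hx' hy' (hmem u (by simp)) (hmem v (by simp)) (hmem (h s) (by simp))
      (hmem g' (by simp)) z ?_
    rwa [Finset.mem_compl] at hz
  · intro t _ t' _ hne x hx y hy x' hx' y' hy' hav hav' hcl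
    simp only [Prod.mk.injEq] at hcl
    obtain ⟨c1, c2, c3, c4⟩ := hcl
    rcases lt_or_gt_of_ne hne with hlt | hlt
    · obtain ⟨q, hq, hq'⟩ := bitR hh hF hs hβ hx hy hav
      have h5 := hqR t (x, y) ⟨⟨q, by omega⟩, hq'⟩ t' hlt
      rw [c3] at c4 h5
      exact ⟨fun hc => h5 x' hx' hc c4.symm, fun hc => h5 y' hy' hc c4.symm⟩
    · obtain ⟨q, hq, hq'⟩ := bitL hh hF hs hβ hx hy hav
      have h5 := hqL t (x, y) ⟨⟨q, by omega⟩, hq'⟩ t' hlt
      rw [c1] at c2 h5
      exact ⟨fun hc => h5 x' hx' hc c2.symm, fun hc => h5 y' hy' hc c2.symm⟩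

end H38P
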