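import Pool.Agent.Lib.H38P.B1
import Pool.Agent.Lib.H38P.B7

/-!
# H38P, chunk B8 (M): the part of a face on the left of a hole
-/

open Finset

namespace H38P

variable {α : Type} [LinearOrder α] [Fintype α] {cr : α → α → α → Prop} {xx : α → α → α → α → Prop}

/-- Chunk B8 (M). PROOF. `p = pp h s`, `tree` with `B = BF p u v (h s) g' β`, `X0' j = X0 j` for `j < s` and `∅` otherwise (`Io (p j) (p (j + 1)) = ∅` for `j ≥ s`), for `b = β`, `t = 0`: `JJ p β 0 = Io (p 0) (p (2 ^ β)) = Io u (h s)`. The first sum is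
over `j < 2 ^ β`, the terms with `j ≥ s` vanish, the others are at most `c * lam (p j) (p (j + 1))`; `lam_sum` (all terms). The second: for each `c < β` the inner sum is over `Ico 0 (2 ^ (β - 1 - c))`, `level_sum`. -/
theorem faceL {K K' R F : ℕ} (hh : Hyp cr xx K K' R F) (hK : 2 * K' + 1 ≤ K) [Nontrivial α] {u v g' : α} {m : ℕ} {h : ℕ → α}
    (hF : Face cr u v m h) (huv : RF cr u v) {s β : ℕ} (hR : β + 7 ≤ R) (hs : s ≤ m) (hβ : s ≤ 2 ^ β) (hg : h s ≤ g') (hgv : g' ≤ v)
    (hrf : RF cr (h s) g' ∨ Io (h s) g' = ∅) (X0 : ℕ → Finset α) (c : ℕ)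
    (h0 : ∀ j < s, X0 j ⊆ Io (h j) (h (j + 1)) ∧ Cov cr K' (X0 j) ∧
      (Io (h j) (h (j + 1)) \ X0 j).card ≤ c * lam cr xx (h j) (h (j + 1))) :
    ∃ X ⊆ Io u (h s), Cov cr K' X ∧ (Io u (h s) \ X).card ≤ c * lam cr xx u (h s) +
      F * (β * (4 * (β + 1) ^ 2 * pl cr xx (Io u (h s)) (Nd u v (h s) g')ᶜ)) := by
  classical
  have hm := pp_mono hF hs
  have hpj : ∀ j, j ≤ s → pp h s j = h j := by
    intro j hj
    unfold pp
    rw [min_eq_left hj]
  have hps : ∀ j, s ≤ j → pp h s j = h s := by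
    intro j hj
    unfold pp
    rw [min_eq_right hj]
  obtain ⟨X, hX, hXc, hXb⟩ := tree hh hK (pp h s) hm (fun b t => BF (pp h s) u v (h s) g' β b t)
    (fun b t => BF_out hF hs hg b t) (fun b t => (BF_card _ _ _ _ _ _ _ _).trans hR)
    (fun j => if j < s then X0 j else ∅) (fun j => by
      by_cases hj : j < s
      · simp only [if_pos hj]
        rw [hpj j hj.le, hpj (j + 1) hj]
        exact ⟨(h0 j hj).1, (h0 j hj).2.1⟩
      · simp only [if_neg hj]
        exact ⟨Finset.empty_subset _, cov_empty _⟩) β 0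
  have hJ : JJ (pp h s) β 0 = Io u (h s) := by
    unfold JJ
    rw [Nat.zero_mul, hpj 0 (Nat.zero_le _), hF.h0, Nat.zero_add, Nat.one_mul, hps _ hβ]
  rw [hJ] at hX hXb
  refine ⟨X, hX, hXc, hXb.trans (Nat.add_le_add ?_ ?_)⟩
  · rw [Nat.zero_mul, Nat.zero_add, Nat.one_mul, ← Finset.range_eq_Ico]
    have h1 : ∀ j ∈ range (2 ^ β), (Io (pp h s j) (pp h s (j + 1)) \ (if j < s then X0 j else ∅)).card ≤
        c * lam cr xx (pp h s j) (pp h s (j + 1)) := by
      intro j _
      by_cases hj : j < s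
      · rw [if_pos hj, hpj j hj.le, hpj (j + 1) hj]
        exact (h0 j hj).2.2
      · rw [if_neg hj, hps j (by omega), hps (j + 1) (by omega)]
        have h2 : Io (h s) (h s) = ∅ := by
          rw [Finset.eq_empty_iff_forall_notMem]
          intro x hx
          have := mem_Io.1 hx
          exact lt_asymm this.1 this.2
        rw [h2, Finset.empty_sdiff, Finset.card_empty]
        exact Nat.zero_le _
    refine (Finset.sum_le_sum h1).trans ?_
    rw [← Finset.mul_sum]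
    refine Nat.mul_le_mul_left _ ?_
    have h3 := lam_sum hh (pp h s) hm (2 ^ β)
    rw [hpj 0 (Nat.zero_le _), hF.h0, hps _ hβ] at h3
    exact h3
  · refine Nat.mul_le_mul_left _ ?_
    have h4 : ∀ b ∈ range β, ∑ i ∈ Ico (0 * 2 ^ (β - 1 - b)) ((0 + 1) * 2 ^ (β - 1 - b)),
        pl cr xx (JJ (pp h s) (b + 1) i) (BF (pp h s) u v (h s) g' β (b + 1) i) ≤
        4 * (β + 1) ^ 2 * pl cr xx (Io u (h s)) (Nd u v (h s) g')ᶜ := by
      intro b _
      rw [Nat.zero_mul, Nat.zero_add, Nat.one_mul, ← Finset.range_eq_Ico]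
      exact level_sum hh hF huv hs hβ hg hgv hrf (b + 1) _
    refine (Finset.sum_le_sum h4).trans ?_
    rw [Finset.sum_const, Finset.card_range, smul_eq_mul]

end H38P
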