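import Pool.Agent.Lib.H87G.Defs

/-! # H38P, file Base: closed families, products and blocks -/

set_option autoImplicit false

namespace H38P

open Pool.H87G

/-- the constant `1` (`true`) -/
def one : POp Bool where
  ar := 0
  dom := Set.univ
  fn := fun _ => true

/-- the sum modulo 2 -/
def add : POp Bool where
  ar := 2
  dom := Set.univ
  fn := fun v => xor (v 0) (v 1)

/-- The partial product of three arguments `v 0, v 1, v 2`: it has six arguments and is defined iff the other three are
the products `v 3 = v 0 v 1`, `v 4 = v 0 v 2`, `v 5 = v 1 v 2`; its value is `v 0 v 1 v 2`. -/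
def tri : POp Bool where
  ar := 6
  dom := {v | v 3 = (v 0 && v 1) ∧ v 4 = (v 0 && v 2) ∧ v 5 = (v 1 && v 2)}
  fn := fun v => v 0 && v 1 && v 2

/-- the operations of the partial algebra `A_2` (the underlying set is `Bool`) -/
def Alg : Set (POp Bool) := {one, add, tri}

/-- closed under the operations of `Alg` -/
structure Ok {Ω : Type} (V : Set (Ω → Bool)) : Prop where
  one : (fun _ => true) ∈ V
  add : ∀ f g : Ω → Bool, f ∈ V → g ∈ V → (fun z => xor (f z) (g z)) ∈ V
  tri : ∀ f g h : Ω → Bool, f ∈ V → g ∈ V → h ∈ V → (fun z => f z && g z) ∈ V → (fun z => f z && h z) ∈ V →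
    (fun z => g z && h z) ∈ V → (fun z => f z && g z && h z) ∈ V

theorem ok_of {Ω : Type} {V : Set (Ω → Bool)} (h : Closed Alg V) : Ok V := by
  constructor
  · exact h one (Or.inl rfl) (fun i => i.elim0) (fun i => i.elim0) (fun _ => Set.mem_univ _)
  · intro f g hf hg
    exact h add (Or.inr (Or.inl rfl)) (![f, g] : Fin 2 → Ω → Bool) (by
      intro (i : Fin 2)
      fin_cases i
      · exact hf
      · exact hg) (fun _ => Set.mem_univ _)
  · intro f g k hf hg hk h1 h2 h3
    exact h tri (Or.inr (Or.inr rfl)) (![f, g, k, fun z => f z && g z, fun z => f z && k z, fun z => g z && k z] :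
      Fin 6 → Ω → Bool) (by
      intro (i : Fin 6)
      fin_cases i
      · exact hf
      · exact hg
      · exact hk
      · exact h1
      · exact h2
      · exact h3) (fun t => ⟨rfl, rfl, rfl⟩)

/-- all functions of `x` are there -/
def Kn {Ω X : Type} (V : Set (Ω → Bool)) (x : Ω → X) : Prop := ∀ F : X → Bool, (fun z => F (x z)) ∈ V

theorem ok_zero {Ω : Type} {V : Set (Ω → Bool)} (h : Ok V) : (fun _ => false) ∈ V := by
  have := h.add _ _ h.one h.one
  simpa using this

/-- Everything is a sum of points. -/
theorem of_points {X : Type} [Finite X] {N : Set (X → Bool)} (h0 : (fun _ => false) ∈ N)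
    (hadd : ∀ f g, f ∈ N → g ∈ N → (fun p => xor (f p) (g p)) ∈ N)
    (hp : ∀ q : X, ∀ f : X → Bool, (∀ p, f p = true ↔ p = q) → f ∈ N) (F : X → Bool) : F ∈ N := by
  classical
  have : Fintype X := Fintype.ofFinite X
  have key : ∀ A : Finset X, ∀ f : X → Bool, (∀ p, f p = true ↔ p ∈ A) → f ∈ N := by
    intro A
    induction A using Finset.induction with
    | empty =>
      intro f hf
      have h1 : f = fun _ => false := by
        funext p
        have := hf p
        simp at this
        simpa using this
      rw [h1]
      exact h0
    | insert a A ha ih =>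
      intro f hf
      have h1 := hadd (fun p => decide (p = a)) (fun p => decide (p ∈ A)) (hp a _ (fun p => by simp)) (ih _ (fun p => by simp))
      have h2 : (fun p => xor (decide (p = a)) (decide (p ∈ A))) = f := by
        funext p
        have h3 := hf p
        rw [Finset.mem_insert] at h3
        by_cases h4 : p = a
        · subst h4
          have h5 : f p = true := h3.2 (Or.inl rfl)
          simp [ha, h5]
        · by_cases h5 : p ∈ A
          · have h6 : f p = true := h3.2 (Or.inr h5)
            simp [h4, h5, h6]
          · have h6 : f p = false := by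
              rw [← Bool.not_eq_true, h3]
              tauto
            simp [h4, h5, h6]
      rw [h2] at h1
      exact h1
  exact key (Finset.univ.filter fun p => F p = true) F (fun p => by simp)

/-- A family of functions of several coordinates which is closed under sums and products and contains the functions of
single coordinates contains everything. -/
theorem of_coord {ι X : Type} [Finite ι] [Finite X] {N : Set ((ι → X) → Bool)} (h0 : (fun _ => false) ∈ N)
    (h1 : (fun _ => true) ∈ N)
    (hadd : ∀ f g, f ∈ N → g ∈ N → (fun p => xor (f p) (g p)) ∈ N)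
    (hmul : ∀ f g, f ∈ N → g ∈ N → (fun p => f p && g p) ∈ N)
    (hs : ∀ i, ∀ g : X → Bool, (fun p => g (p i)) ∈ N) (F : (ι → X) → Bool) : F ∈ N := by
  classical
  have : Fintype ι := Fintype.ofFinite ι
  refine of_points h0 hadd (fun q f hf => ?_) F
  have key : ∀ A : Finset ι, (fun p : ι → X => decide (∀ i ∈ A, p i = q i)) ∈ N := by
    intro A
    induction A using Finset.induction with
    | empty => simpa using h1
    | insert a A ha ih =>
      have h2 := hmul _ _ (hs a fun t => decide (t = q a)) ih
      have h3 : (fun p : ι → X => decide (∀ i ∈ insert a A, p i = q i)) =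
          fun p => decide (p a = q a) && decide (∀ i ∈ A, p i = q i) := by
        funext p
        simp
      rw [h3]
      exact h2
  have h2 : f = fun p : ι → X => decide (∀ i ∈ (Finset.univ : Finset ι), p i = q i) := by
    funext p
    have h3 := hf p
    rw [Bool.eq_iff_iff, h3, decide_eq_true_iff]
    constructor
    · rintro rfl i _
      rfl
    · intro h
      funext i
      exact h i (Finset.mem_univ i)
  rw [h2]
  exact key _

/-- Two known words whose letters are pairwise known together are known together. -/
theorem join {Ω ι κ X Y : Type} [Finite ι] [Finite κ] [Finite X] [Finite Y] {V : Set (Ω → Bool)} (hV : Ok V)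
    {x : Ω → ι → X} {y : Ω → κ → Y} (hx : Kn V x) (hy : Kn V y) (h : ∀ i j, Kn V fun z => (x z i, y z j)) :
    Kn V fun z => (x z, y z) := by
  have s1 : ∀ j, ∀ g : Y → Bool, ∀ F : (ι → X) → Bool, (fun z => F (x z) && g (y z j)) ∈ V := by
    intro j g F
    have := of_coord (N := {F : (ι → X) → Bool | (fun z => F (x z) && g (y z j)) ∈ V}) ?_ ?_ ?_ ?_ ?_ F
    · exact this
    · simpa using ok_zero hV
    · have := hy fun p => g (p j)
      simpa using this
    · intro f f' hf hf'
      have h1 := hV.add _ _ hf hf'
      have h2 : (fun z => xor (f (x z)) (f' (x z)) && g (y z j)) =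
          fun z => xor (f (x z) && g (y z j)) (f' (x z) && g (y z j)) := by
        funext z
        cases f (x z) <;> cases f' (x z) <;> cases g (y z j) <;> rfl
      show (fun z => xor (f (x z)) (f' (x z)) && g (y z j)) ∈ V
      rw [h2]
      exact h1
    · intro f f' hf hf'
      exact hV.tri (fun z => f (x z)) (fun z => f' (x z)) (fun z => g (y z j)) (hx _) (hx _) (hy fun p => g (p j))
        (hx fun p => f p && f' p) hf hf'
    · intro i g'
      exact h i j fun p => g' p.1 && g p.2
  have s2 : ∀ F : (ι → X) → Bool, ∀ G : (κ → Y) → Bool, (fun z => F (x z) && G (y z)) ∈ V := by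
    intro F G
    have := of_coord (N := {G : (κ → Y) → Bool | (fun z => F (x z) && G (y z)) ∈ V}) ?_ ?_ ?_ ?_ ?_ G
    · exact this
    · simpa using ok_zero hV
    · simpa using hx F
    · intro f f' hf hf'
      have h1 := hV.add _ _ hf hf'
      have h2 : (fun z => F (x z) && xor (f (y z)) (f' (y z))) =
          fun z => xor (F (x z) && f (y z)) (F (x z) && f' (y z)) := by
        funext z
        cases F (x z) <;> cases f (y z) <;> cases f' (y z) <;> rfl
      show (fun z => F (x z) && xor (f (y z)) (f' (y z))) ∈ V
      rw [h2]
      exact h1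
    · intro f f' hf hf'
      have h1 := hV.tri (fun z => F (x z)) (fun z => f (y z)) (fun z => f' (y z)) (hx _) (hy _) (hy _) hf hf'
        (hy fun p => f p && f' p)
      have h2 : (fun z => F (x z) && (f (y z) && f' (y z))) = fun z => F (x z) && f (y z) && f' (y z) := by
        funext z
        rw [Bool.and_assoc]
      show (fun z => F (x z) && (f (y z) && f' (y z))) ∈ V
      rw [h2]
      exact h1
    · intro j g
      exact s1 j g F
  intro H
  have h0 : (fun _ => false) ∈ {H : (ι → X) × (κ → Y) → Bool | (fun z => H (x z, y z)) ∈ V} := by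
    show (fun _ => false) ∈ V
    exact ok_zero hV
  have := of_points (N := {H : (ι → X) × (κ → Y) → Bool | (fun z => H (x z, y z)) ∈ V}) h0
    (fun f g hf hg => hV.add _ _ hf hg) (fun q f hf => ?_) H
  · exact this
  · classical
    have h1 := s2 (fun p => decide (p = q.1)) (fun p => decide (p = q.2))
    have h2 : (fun z => f (x z, y z)) = fun z => decide (x z = q.1) && decide (y z = q.2) := by
      funext z
      rw [Bool.eq_iff_iff, hf, Bool.and_eq_true, decide_eq_true_iff, decide_eq_true_iff, Prod.ext_iff]
    show (fun z => f (x z, y z)) ∈ V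
    rw [h2]
    exact h1

end H38P
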