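import Pool.Agent.Lib.H38P.A2

/-!
# H38P, chunk C1 (M): the opposite order

`αᵒᵈ` is the type `α` with the opposite order; finite sets, `cr` and `xx` are the same.
-/

open Finset

namespace H38P

variable {α : Type} [LinearOrder α] [Fintype α] {cr : α → α → α → Prop} {xx : α → α → α → α → Prop}

/-- Chunk C1 (S). -/
theorem Io_dual (a b : α) : Io (α := αᵒᵈ) a b = Io (α := α) b a := by
  refine @Finset.ext α _ _ fun x => ?_
  have h1 : x ∈ Io (α := αᵒᵈ) a b ↔ x < a ∧ b < x := mem_Io (α := αᵒᵈ)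
  exact h1.trans (and_comm.trans (mem_Io (α := α)).symm)

/-- Chunk C1 (S). -/
theorem Nd_dual (u v g g' : α) : Nd (α := αᵒᵈ) u v g g' = Nd (α := α) v u g' g := by
  refine @Finset.ext α _ _ fun x => ?_
  have h1 : x ∈ Nd (α := αᵒᵈ) u v g g' ↔ x < u ∧ v < x ∧ (g < x ∨ x < g') := by
    unfold Nd
    exact Finset.mem_filter.trans ⟨fun h => h.2, fun h => ⟨Finset.mem_univ _, h⟩⟩
  have h2 : x ∈ Nd (α := α) v u g' g ↔ v < x ∧ x < u ∧ (x < g' ∨ g < x) := by
    unfold Nd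
    exact Finset.mem_filter.trans ⟨fun h => h.2, fun h => ⟨Finset.mem_univ _, h⟩⟩
  refine h1.trans (Iff.trans ?_ h2.symm)
  constructor
  · rintro ⟨h3, h4, h5⟩
    exact ⟨h4, h3, h5.symm⟩
  · rintro ⟨h3, h4, h5⟩
    exact ⟨h4, h3, h5.symm⟩

/-- Chunk C1 (S). -/
theorem Out_dual (I : Finset α) (r : α) : Out (α := αᵒᵈ) I r ↔ Out (α := α) I r := by
  exact ⟨fun h => Or.symm h, fun h => Or.symm h⟩

/-- Chunk C1 (S). -/
theorem Cov_dual (K : ℕ) (X : Finset α) : Cov (α := αᵒᵈ) cr K X ↔ Cov (α := α) cr K X := by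
  constructor
  · rintro ⟨S, h1, h2, h3⟩
    exact ⟨S, h1, h2, fun c hc => ⟨(Out_dual (α := α) c.1 c.2).1 (h3 c hc).1, (h3 c hc).2⟩⟩
  · rintro ⟨S, h1, h2, h3⟩
    exact ⟨S, h1, h2, fun c hc => ⟨(Out_dual (α := α) c.1 c.2).2 (h3 c hc).1, (h3 c hc).2⟩⟩

/-- Chunk C1 (S). The definition does not use the order. -/
theorem pl_dual (I B : Finset α) : pl (α := αᵒᵈ) cr xx I B = pl (α := α) cr xx I B := by
  rfl

/-- Chunk C1 (S). -/
theorem lam_dual (a b : α) : lam (α := αᵒᵈ) cr xx a b = lam (α := α) cr xx b a := by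
  have h1 : (Io (α := αᵒᵈ) a b)ᶜ = (Io (α := α) b a)ᶜ := by
    refine @Finset.ext α _ _ fun x => ?_
    refine (Finset.mem_compl (α := αᵒᵈ)).trans (Iff.trans ?_ (Finset.mem_compl (α := α)).symm)
    rw [Io_dual]
    exact Iff.rfl
  unfold lam
  rw [h1]
  have h2 := Io_dual (α := α) a b
  rw [h2]
  exact pl_dual _ _

/-- Chunk C1 (M). All fields are symmetric; `loc`: use `xsymm`; `deti, deto`: `g, g'` exchanged, `RF cr g' g ↔ RF cr g g'` by `symm`. -/
theorem Hyp.dual {K K' R F : ℕ} (hh : Hyp (α := α) cr xx K K' R F) : Hyp (α := αᵒᵈ) cr xx K K' R F := by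
  have hRF : ∀ a b, RF cr a b → RF cr b a := fun a b h z hz => h z (hh.symm _ _ _ hz)
  refine ⟨hh.symm, hh.xsymm, ?_, ?_, ?_, ?_⟩
  · intro x y z w hxy hzw h1 h2 h3 h4 h5 h6 h7 h8 h9
    exact hh.loc z w x y hzw hxy h1 h3 h2 h4 h7 h8 h5 h6 (hh.xsymm _ _ _ _ h9)
  · intro g g' hg hrf z hz x y hx hy hc
    exact (hh.deti g' g hg (hRF _ _ hrf) z ((Finset.ext_iff.1 (Io_dual (α := α) g g') z).1 hz) x y hx.symm hy.symm hc).symm
  · intro g g' hg hrf z hz x hx y hy hc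
    exact (hh.deto g' g hg (hRF _ _ hrf) z hz.symm x ((Finset.ext_iff.1 (Io_dual (α := α) g g') x).1 hx) y
      ((Finset.ext_iff.1 (Io_dual (α := α) g g') y).1 hy) hc).symm
  · intro I B X h1 h2 h3 h4
    obtain ⟨X', h5, h6, h7, M, h8, h9⟩ := hh.gm I B X (fun z hz => (Out_dual (α := α) I z).1 (h1 z hz)) h2 h3 ((Cov_dual (α := α) K X).1 h4)
    exact ⟨X', h5, (Cov_dual (α := α) K' X').2 h6, h7, M, h8, h9⟩

/-- Chunk C1 (M). The hubs in the opposite order. -/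
theorem Face.dual (hsymm : ∀ x y z, cr x y z → cr y x z) {u v : α} {m : ℕ} {h : ℕ → α} (hF : Face (α := α) cr u v m h) :
    Face (α := αᵒᵈ) cr v u m (fun j => h (m - j)) := by
  have hRF : ∀ a b, RF cr a b → RF cr b a := fun a b h z hz => h z (hsymm _ _ _ hz)
  refine ⟨hF.m2, hF.hm, ?_, ?_, ?_, ?_, ?_⟩
  · show h (m - m) = u
    rw [Nat.sub_self]
    exact hF.h0
  · intro i j hij hjm
    exact hF.mono (m - j) (m - i) (by omega) (by omega)
  · intro j hj
    have h1 := hF.rf (m - (j + 1)) (by omega)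
    have h2 : m - (j + 1) + 1 = m - j := by omega
    rw [h2] at h1
    rcases h1 with h1 | h1
    · exact Or.inl (hRF _ _ h1)
    · right
      exact (Io_dual (α := α) _ _).trans h1
  · intro i j k s t hij hjk hks hst htm x hx y hy h1 h2 h3 h4
    exact hF.loopR (m - k) (m - j) (m - i) (m - t) (m - s) (by omega) (by omega) (by omega) (by omega) (by omega) x
      ((Finset.ext_iff.1 (Io_dual (α := α) _ _) x).1 hx) y ((Finset.ext_iff.1 (Io_dual (α := α) _ _) y).1 hy) h2 h1 h4 h3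
  · intro i j k s t hst hti hij hjk hkm x hx y hy h1 h2 h3 h4
    exact hF.loopL (m - k) (m - j) (m - i) (m - t) (m - s) (by omega) (by omega) (by omega) (by omega) (by omega) x
      ((Finset.ext_iff.1 (Io_dual (α := α) _ _) x).1 hx) y ((Finset.ext_iff.1 (Io_dual (α := α) _ _) y).1 hy) h2 h1 h4 h3

end H38P
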