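import Pool.Agent.Lib.H38P.B8
import Pool.Agent.Lib.H38P.C1

/-!
# H38P, chunk C2 (M): the part of a face on the right of a hole
-/

open Finset

namespace H38P

variable {α : Type} [LinearOrder α] [Fintype α] {cr : α → α → α → Prop} {xx : α → α → α → α → Prop}

/-- Chunk C2 (M). PROOF. `faceL` for `αᵒᵈ` (`Hyp.dual`, `Face.dual`): hubs `h (m - j)`, `s' = m - s`, `u' = v`, `v' = u`, `X0' j = X0 (m - 1 - j)`; the windows are `Io (h (m - j)) (h (m - (j + 1)))` in the opposite order, that is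
`Io (h (m - 1 - j)) (h (m - 1 - j + 1))`. Rewrite the conclusion with `Io_dual, Nd_dual, Cov_dual, pl_dual, lam_dual`. -/
theorem faceR {K K' R F : ℕ} (hh : Hyp cr xx K K' R F) (hK : 2 * K' + 1 ≤ K) [Nontrivial α] {u v g : α} {m : ℕ} {h : ℕ → α}
    (hF : Face cr u v m h) (huv : RF cr u v) {s β : ℕ} (hR : β + 7 ≤ R) (hs : s ≤ m) (hβ : m - s ≤ 2 ^ β) (hg : g ≤ h s) (hug : u ≤ g)
    (hrf : RF cr g (h s) ∨ Io g (h s) = ∅) (X0 : ℕ → Finset α) (c : ℕ)
    (h0 : ∀ j, s ≤ j → j < m → X0 j ⊆ Io (h j) (h (j + 1)) ∧ Cov cr K' (X0 j) ∧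
      (Io (h j) (h (j + 1)) \ X0 j).card ≤ c * lam cr xx (h j) (h (j + 1))) :
    ∃ X ⊆ Io (h s) v, Cov cr K' X ∧ (Io (h s) v \ X).card ≤ c * lam cr xx (h s) v +
      F * (β * (4 * (β + 1) ^ 2 * pl cr xx (Io (h s) v) (Nd u v g (h s))ᶜ)) := by
  have hhd : Hyp (α := αᵒᵈ) cr xx K K' R F := Hyp.dual (α := α) hh
  have hFd : Face (α := αᵒᵈ) cr v u m (fun j => h (m - j)) := Face.dual (α := α) hh.symm hF
  have hRF : ∀ a b, RF cr a b → RF cr b a := fun a b h z hz => h z (hh.symm _ _ _ hz)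
  have e1 : m - (m - s) = s := by omega
  have hnt : Nontrivial αᵒᵈ := inferInstance
  have hIo : ∀ a b : α, Io (α := αᵒᵈ) a b = Io (α := α) b a := fun a b => Io_dual (α := α) a b
  obtain ⟨X, h1, h2, h3⟩ := faceL (α := αᵒᵈ) (cr := cr) (xx := xx) (K := K) (K' := K') (R := R) (F := F) hhd hK
    (u := v) (v := u) (g' := g) (m := m) (h := fun j => h (m - j)) hFd (hRF _ _ huv) (s := m - s) (β := β) hR
    (by omega) hβ (by
      show g ≤ h (m - (m - s))
      rw [e1]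
      exact hg) hug (by
      show RF cr (h (m - (m - s))) g ∨ Io (α := αᵒᵈ) (h (m - (m - s))) g = ∅
      rw [e1]
      rcases hrf with h0 | h0
      · exact Or.inl (hRF _ _ h0)
      · exact Or.inr ((hIo _ _).trans h0)) (fun j => X0 (m - 1 - j)) c (by
      intro j hj
      obtain ⟨k1, k2, k3⟩ := h0 (m - 1 - j) (by omega) (by omega)
      have e2 : m - 1 - j + 1 = m - j := by omega
      have e3 : m - (j + 1) = m - 1 - j := by omega
      rw [e2] at k1 k3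
      show X0 (m - 1 - j) ⊆ Io (α := αᵒᵈ) (h (m - j)) (h (m - (j + 1))) ∧ Cov (α := αᵒᵈ) cr K' (X0 (m - 1 - j)) ∧
        (Io (α := αᵒᵈ) (h (m - j)) (h (m - (j + 1))) \ X0 (m - 1 - j)).card ≤
          c * lam (α := αᵒᵈ) cr xx (h (m - j)) (h (m - (j + 1)))
      rw [e3]
      have e4 : Io (α := αᵒᵈ) (h (m - j)) (h (m - 1 - j)) = Io (α := α) (h (m - 1 - j)) (h (m - j)) := hIo _ _
      refine ⟨?_, (Cov_dual (α := α) K' _).2 k2, ?_⟩
      · rw [e4]
        exact k1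
      · have e5 : lam (α := αᵒᵈ) cr xx (h (m - j)) (h (m - 1 - j)) = lam (α := α) cr xx (h (m - 1 - j)) (h (m - j)) :=
          lam_dual (α := α) _ _
        rw [e5]
        refine le_trans (Finset.card_le_card (α := α) ?_) k3
        intro x hx
        have h6 := (Finset.mem_sdiff (α := αᵒᵈ)).1 hx
        refine (Finset.mem_sdiff (α := α)).2 ⟨?_, h6.2⟩
        rw [← e4]
        exact h6.1)
  have e6 : h (m - (m - s)) = h s := by rw [e1]
  have h1' : X ⊆ Io (α := αᵒᵈ) v (h s) := by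
    rw [← e6]
    exact h1
  have h3' : (Io (α := αᵒᵈ) v (h s) \ X).card ≤ c * lam (α := αᵒᵈ) cr xx v (h s) +
      F * (β * (4 * (β + 1) ^ 2 * pl (α := αᵒᵈ) cr xx (Io (α := αᵒᵈ) v (h s)) (Nd (α := αᵒᵈ) v u (h s) g)ᶜ)) := by
    rw [← e6]
    exact h3
  have e7 : Io (α := αᵒᵈ) v (h s) = Io (α := α) (h s) v := hIo _ _
  have e8 : lam (α := αᵒᵈ) cr xx v (h s) = lam (α := α) cr xx (h s) v := lam_dual (α := α) _ _
  have e9 : (Nd (α := αᵒᵈ) v u (h s) g)ᶜ = (Nd (α := α) u v g (h s))ᶜ := by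
    refine @Finset.ext α _ _ fun x => ?_
    refine (Finset.mem_compl (α := αᵒᵈ)).trans (Iff.trans ?_ (Finset.mem_compl (α := α)).symm)
    rw [Nd_dual]
    exact Iff.rfl
  refine ⟨X, ?_, (Cov_dual (α := α) K' X).1 h2, ?_⟩
  · rw [← e7]
    exact h1'
  · rw [e8, e9, e7] at h3'
    refine le_trans (Finset.card_le_card (α := α) ?_) h3'
    intro x hx
    have h6 := (Finset.mem_sdiff (α := α)).1 hx
    exact (Finset.mem_sdiff (α := αᵒᵈ)).2 ⟨h6.1, h6.2⟩

end H38P
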