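import Pool.Agent.Lib.H38P.B1
import Pool.Agent.Lib.H38P.C1

/-!
# H38P, chunk C3 (M/L): merging along a heavy path
-/

open Finset

namespace H38P

variable {α : Type} [LinearOrder α] [Fintype α] {cr : α → α → α → Prop} {xx : α → α → α → α → Prop}

/-- A sequence of nested windows. -/
structure Path (cr : α → α → α → Prop) (u v : α) (L : ℕ) (a b : ℕ → α) : Prop where
  a0 : a 0 = u
  b0 : b 0 = v
  sa : ∀ i < L, a i ≤ a (i + 1)
  sb : ∀ i < L, b (i + 1) ≤ b i
  lt : ∀ i ≤ L, a i < b i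
  rf : ∀ i ≤ L, RF cr (a i) (b i)

/-- Chunk C3 (S). -/
theorem Path.le {u v : α} {L : ℕ} {a b : ℕ → α} (hP : Path cr u v L a b) {i j : ℕ} (hij : i ≤ j) (hj : j ≤ L) :
    a i ≤ a j ∧ b j ≤ b i := by
  induction j, hij using Nat.le_induction with
  | base => exact ⟨le_rfl, le_rfl⟩
  | succ j hij ih =>
    obtain ⟨h1, h2⟩ := ih (by omega)
    exact ⟨h1.trans (hP.sa j (by omega)), (hP.sb j (by omega)).trans h2⟩

/-- Chunk C3 (S/M). An edge of the left part between the windows `i ≤ j` which avoids the four rays `a i, b i, a j, b j` avoids all rays outside the window `i` and all rays in `[a j, b j]`. PROOF. `deto` for `(a i, b i)`, `deti` for `(a j, b j)`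
(`x, y < a j`). -/
theorem Path.loc {K K' R F : ℕ} (hh : Hyp cr xx K K' R F) {u v : α} {L : ℕ} {a b : ℕ → α} (hP : Path cr u v L a b) {i j : ℕ}
    (hij : i ≤ j) (hj : j ≤ L) {x y : α} (hx : x ∈ Io (a i) (a j)) (hy : y ∈ Io (a i) (a j)) (h1 : ¬ cr x y (a i))
    (h2 : ¬ cr x y (b i)) (h3 : ¬ cr x y (a j)) (h4 : ¬ cr x y (b j)) (z : α) (hz : z ∉ Nd (a i) (b i) (a j) (b j)) : ¬ cr x y z := by
  intro hc
  rw [mem_Io] at hx hy
  have hl1 := hP.lt i (hij.trans hj)
  have hl2 := hP.lt j hj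
  have hle := hP.le hij hj
  have hz' : ¬ (a i < z ∧ z < b i ∧ (z < a j ∨ b j < z)) := by
    intro h0
    exact hz (by unfold Nd; rw [mem_filter]; exact ⟨mem_univ _, h0⟩)
  have hout : ∀ w, (w < a i ∨ b i < w) → ¬ cr x y w := by
    intro w hw hcw
    rcases hh.deto (a i) (b i) hl1 (hP.rf i (hij.trans hj)) w hw x (mem_Io.2 ⟨hx.1, (hx.2.trans hl2).trans_le hle.2⟩) y
      (mem_Io.2 ⟨hy.1, (hy.2.trans hl2).trans_le hle.2⟩) hcw with h | h
    · exact h1 h
    · exact h2 h
  rcases lt_trichotomy z (a i) with h5 | h5 | h5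
  · exact hout z (Or.inl h5) hc
  · rw [h5] at hc; exact h1 hc
  rcases lt_trichotomy (b i) z with h6 | h6 | h6
  · exact hout z (Or.inr h6) hc
  · rw [← h6] at hc; exact h2 hc
  have h7 : ¬ (z < a j ∨ b j < z) := fun h0 => hz' ⟨h5, h6, h0⟩
  push Not at h7
  rcases h7.1.eq_or_lt with h8 | h8
  · rw [← h8] at hc; exact h3 hc
  rcases h7.2.eq_or_lt with h9 | h9
  · rw [h9] at hc; exact h4 hc
  rcases hh.deti (a j) (b j) hl2 (hP.rf j hj) z (mem_Io.2 ⟨h8, h9⟩) x y (Or.inl hx.2) (Or.inl hy.2) hc with h | h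
  · exact h3 h
  · exact h4 h

/-- Disjoint pieces of the left side. -/
theorem c3_sum {K K' R F : ℕ} (hh : Hyp cr xx K K' R F) {u v : α} {L : ℕ} {a b : ℕ → α} (hP : Path cr u v L a b)
    (k : ℕ → ℕ) (hk : Monotone k) (hkL : ∀ i, k i ≤ L) (s : Finset ℕ) :
    ∑ i ∈ s, pl cr xx (Io (a (k i)) (a (k (i + 1)))) (Nd (a (k i)) (b (k i)) (a (k (i + 1))) (b (k (i + 1))))ᶜ ≤
      lam cr xx u v := by
  have hua : ∀ i, u ≤ a (k i) := fun i => by
    have h1 := (hP.le (Nat.zero_le (k i)) (hkL i)).1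
    rw [hP.a0] at h1
    exact h1
  have hvb : ∀ i, b (k i) ≤ v := fun i => by
    have h1 := (hP.le (Nat.zero_le (k i)) (hkL i)).2
    rw [hP.b0] at h1
    exact h1
  have hab : ∀ i j, a (k i) < b (k j) := fun i j =>
    ((hP.le (hkL i) le_rfl).1.trans_lt (hP.lt L le_rfl)).trans_le (hP.le (hkL j) le_rfl).2
  have hmono : ∀ i j, i ≤ j → a (k i) ≤ a (k j) := fun i j hij => (hP.le (hk hij) (hkL j)).1
  refine pl_sum hh s (fun i => Io (a (k i)) (a (k (i + 1)))) (fun i => (Nd (a (k i)) (b (k i)) (a (k (i + 1))) (b (k (i + 1))))ᶜ)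
    (Io u v) (Io u v)ᶜ ?_ ?_ ?_
  · intro i _
    refine ⟨Io_sub (hua i) ((hab (i + 1) i).le.trans (hvb i)), ?_⟩
    refine compl_subset_compl.2 fun x hx => ?_
    unfold Nd at hx
    rw [mem_filter] at hx
    exact mem_Io.2 ⟨(hua i).trans_lt hx.2.1, hx.2.2.1.trans_le (hvb i)⟩
  · intro i _ j _ hij
    rcases lt_or_gt_of_ne hij with h | h
    · left
      intro x hx y hy
      exact ((mem_Io.1 hx).2.trans_le (hmono (i + 1) j h)).trans (mem_Io.1 hy).1
    · right
      intro x hx y hy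
      exact ((mem_Io.1 hy).2.trans_le (hmono (j + 1) i h)).trans (mem_Io.1 hx).1
  · intro i _ j _ hij x hx
    rw [mem_compl]
    intro hN
    unfold Nd at hN
    rw [mem_filter] at hN
    have hx' := mem_Io.1 hx
    rcases lt_or_gt_of_ne hij with h | h
    · rcases hN.2.2.2 with h1 | h1
      · exact absurd (h1.trans_le (hmono (i + 1) j h)) (not_lt.2 hx'.1.le)
      · exact absurd (h1.trans (hx'.2.trans (hab (j + 1) (i + 1)))) (lt_irrefl _)
    · exact absurd (hx'.2.trans_le (hmono (j + 1) i h)) (not_lt.2 hN.2.1.le)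

/-- The empty set is covered. -/
theorem c3_cov_empty (K : ℕ) : Cov cr K (∅ : Finset α) :=
  ⟨∅, by simp, by simp, by simp⟩

/-- Chunk C3 (M/L). PROOF. `p i = a (min i L)`, `q i = b (min i L)`, `B b' t = {p (t * 2 ^ b'), q (t * 2 ^ b'), p ((t + 1) * 2 ^ b'), q ((t + 1) * 2 ^ b')}` (card `≤ 4`; outside `JJ p b' t`: `q ≥ b L > a L ≥ p`). `tree` for `b' = β`, `t = 0`: `JJ p β 0 = Io u (a L)`.
First sum: `≤ ∑ i < L of (c * lam (a i) (a (i + 1)) + G * pl (Io (a i) (a (i + 1))) (Nd ..)ᶜ)` (for `i ≥ L` the interval is empty); `lam_sum`, and `pl_sum` for the intervals `Io (a i) (a (i + 1))`, `i < L`, with `B i = (Nd (a i) (b i) (a (i + 1)) (b (i + 1)))ᶜ`, `I0 = Io u v`,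
`B0 = (Io u v)ᶜ` (the interval `j > i` is inside `[a (i + 1), b (i + 1)]`, the interval `j < i` is `≤ a i`): `G * lam u v`. Second sum: for each level `c' < β` the inner sum (over `Ico 0 (2 ^ (β - 1 - c'))`) is `≤ lam u v`: replace first `B` by `(Nd (p ..) (q ..) (p ..) (q ..))ᶜ`
(`pl_mono`, `Path.loc`), then `pl_sum` as above. Total `F * (β * lam u v)`. -/
theorem pathL {K K' R F : ℕ} (hh : Hyp cr xx K K' R F) (hK : 2 * K' + 1 ≤ K) [Nontrivial α] (hR : 4 ≤ R) {u v : α} {L β : ℕ}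
    {a b : ℕ → α} (hP : Path cr u v L a b) (hL : L ≤ 2 ^ β) (X0 : ℕ → Finset α) (c G : ℕ)
    (h0 : ∀ i < L, X0 i ⊆ Io (a i) (a (i + 1)) ∧ Cov cr K' (X0 i) ∧ (Io (a i) (a (i + 1)) \ X0 i).card ≤
      c * lam cr xx (a i) (a (i + 1)) + G * pl cr xx (Io (a i) (a (i + 1))) (Nd (a i) (b i) (a (i + 1)) (b (i + 1)))ᶜ) :
    ∃ X ⊆ Io u (a L), Cov cr K' X ∧ (Io u (a L) \ X).card ≤ c * lam cr xx u (a L) + (G + F * β) * lam cr xx u v := by
  set p : ℕ → α := fun i => a (min i L) with hp_def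
  set q : ℕ → α := fun i => b (min i L) with hq_def
  have hp : Monotone p := fun i j hij => (hP.le (min_le_min_right L hij) (min_le_right _ _)).1
  have hpq : ∀ i j, p i < q j := fun i j =>
    ((hP.le (min_le_right i L) le_rfl).1.trans_lt (hP.lt L le_rfl)).trans_le (hP.le (min_le_right j L) le_rfl).2
  set B : ℕ → ℕ → Finset α := fun b' t => {p (t * 2 ^ b'), q (t * 2 ^ b'), p ((t + 1) * 2 ^ b'), q ((t + 1) * 2 ^ b')} with hB_def
  have hB : ∀ b' t, ∀ z ∈ B b' t, Out (JJ p b' t) z := by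
    intro b' t z hz
    simp only [hB_def, mem_insert, mem_singleton] at hz
    rcases hz with h | h | h | h
    · left
      intro x hx
      rw [h]
      exact (mem_Io.1 hx).1
    · right
      intro x hx
      rw [h]
      exact (mem_Io.1 hx).2.trans (hpq _ _)
    · right
      intro x hx
      rw [h]
      exact (mem_Io.1 hx).2
    · right
      intro x hx
      rw [h]
      exact (mem_Io.1 hx).2.trans (hpq _ _)
  have hBR : ∀ b' t, (B b' t).card ≤ R := fun b' t => card_le_four.trans hR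
  set X1 : ℕ → Finset α := fun t => if t < L then X0 t else ∅ with hX1_def
  have hpi : ∀ i, i < L → p i = a i ∧ p (i + 1) = a (i + 1) := fun i hi => by
    have h1 : min i L = i := by omega
    have h2 : min (i + 1) L = i + 1 := by omega
    exact ⟨by rw [hp_def]; simp only [h1], by rw [hp_def]; simp only [h2]⟩
  have hX1 : ∀ t, X1 t ⊆ Io (p t) (p (t + 1)) ∧ Cov cr K' (X1 t) := by
    intro t
    by_cases ht : t < L
    · have h1 : X1 t = X0 t := if_pos ht
      rw [h1, (hpi t ht).1, (hpi t ht).2]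
      exact ⟨(h0 t ht).1, (h0 t ht).2.1⟩
    · have h1 : X1 t = ∅ := if_neg ht
      rw [h1]
      exact ⟨empty_subset _, c3_cov_empty _⟩
  obtain ⟨X, hX, hXc, hcard⟩ := tree hh hK p hp B hB hBR X1 hX1 β 0
  have hJ : JJ p β 0 = Io u (a L) := by
    unfold JJ
    have h1 : p (0 * 2 ^ β) = u := by
      have h2 : min (0 * 2 ^ β) L = 0 := by simp
      rw [hp_def]
      simp only [h2]
      exact hP.a0
    have h2 : p ((0 + 1) * 2 ^ β) = a L := by
      have h3 : min ((0 + 1) * 2 ^ β) L = L := by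
        rw [zero_add, one_mul]
        exact min_eq_right hL
      rw [hp_def]
      simp only [h3]
    rw [h1, h2]
  rw [hJ] at hX hcard
  refine ⟨X, hX, hXc, hcard.trans ?_⟩
  have hp0 : p 0 = u := by
    have h2 : min 0 L = 0 := by simp
    rw [hp_def]
    simp only [h2]
    exact hP.a0
  have hpL : p L = a L := by
    rw [hp_def]
    simp only [min_self]
  -- the first sum
  have hS1 : ∑ i ∈ Ico (0 * 2 ^ β) ((0 + 1) * 2 ^ β), (Io (p i) (p (i + 1)) \ X1 i).card ≤
      c * lam cr xx u (a L) + G * lam cr xx u v := by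
    have h1 : ∑ i ∈ Ico (0 * 2 ^ β) ((0 + 1) * 2 ^ β), (Io (p i) (p (i + 1)) \ X1 i).card =
        ∑ i ∈ range L, (Io (p i) (p (i + 1)) \ X1 i).card := by
      rw [zero_mul, zero_add, one_mul, ← range_eq_Ico]
      symm
      refine sum_subset (range_subset_range.2 hL) fun i _ hi => ?_
      rw [mem_range, not_lt] at hi
      have h2 : p i = p (i + 1) := by
        have h3 : min i L = min (i + 1) L := by omega
        rw [hp_def]
        simp only [h3]
      rw [← h2]
      have h3 : Io (p i) (p i) = ∅ := by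
        rw [eq_empty_iff_forall_notMem]
        intro x hx
        have := mem_Io.1 hx
        exact lt_irrefl _ (this.1.trans this.2)
      rw [h3]
      simp
    rw [h1]
    have h2 : ∀ i ∈ range L, (Io (p i) (p (i + 1)) \ X1 i).card ≤ c * lam cr xx (p i) (p (i + 1)) +
        G * pl cr xx (Io (a (min i L)) (a (min (i + 1) L))) (Nd (a (min i L)) (b (min i L)) (a (min (i + 1) L)) (b (min (i + 1) L)))ᶜ := by
      intro i hi
      rw [mem_range] at hi
      have h3 : X1 i = X0 i := if_pos hi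
      have h4 : min i L = i := by omega
      have h5 : min (i + 1) L = i + 1 := by omega
      rw [h3, (hpi i hi).1, (hpi i hi).2, h4, h5]
      exact (h0 i hi).2.2
    refine (sum_le_sum h2).trans ?_
    rw [sum_add_distrib, ← mul_sum, ← mul_sum]
    refine Nat.add_le_add (Nat.mul_le_mul_left _ ?_) (Nat.mul_le_mul_left _ ?_)
    · have h3 := lam_sum hh p hp L
      rw [hp0, hpL] at h3
      exact h3
    · exact c3_sum hh hP (fun i => min i L) (fun i j hij => min_le_min_right L hij) (fun i => min_le_right _ _) (range L)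
  -- the second sum
  have hS2 : ∀ c' ∈ range β, ∑ i ∈ Ico (0 * 2 ^ (β - 1 - c')) ((0 + 1) * 2 ^ (β - 1 - c')),
      pl cr xx (JJ p (c' + 1) i) (B (c' + 1) i) ≤ lam cr xx u v := by
    intro c' _
    refine le_trans (sum_le_sum fun i _ => ?_) (c3_sum hh hP (fun i => min (i * 2 ^ (c' + 1)) L)
      (fun i j hij => min_le_min_right L (Nat.mul_le_mul_right _ hij)) (fun i => min_le_right _ _) _)
    refine pl_mono (I := JJ p (c' + 1) i) (I' := Io (a (min (i * 2 ^ (c' + 1)) L)) (a (min ((i + 1) * 2 ^ (c' + 1)) L)))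
      (B := B (c' + 1) i) (B' := (Nd (a (min (i * 2 ^ (c' + 1)) L)) (b (min (i * 2 ^ (c' + 1)) L))
        (a (min ((i + 1) * 2 ^ (c' + 1)) L)) (b (min ((i + 1) * 2 ^ (c' + 1)) L)))ᶜ) (subset_refl _) ?_
    intro x hx y hy hav z hz
    rw [mem_compl] at hz
    have hmem : ∀ w, (w = p (i * 2 ^ (c' + 1)) ∨ w = q (i * 2 ^ (c' + 1)) ∨ w = p ((i + 1) * 2 ^ (c' + 1)) ∨
        w = q ((i + 1) * 2 ^ (c' + 1))) → w ∈ B (c' + 1) i := by
      intro w hw
      simp only [hB_def, mem_insert, mem_singleton]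
      exact hw
    exact Path.loc hh hP (i := min (i * 2 ^ (c' + 1)) L) (j := min ((i + 1) * 2 ^ (c' + 1)) L)
      (min_le_min_right L (Nat.mul_le_mul_right _ (Nat.le_succ i))) (min_le_right _ _) hx hy
      (hav _ (hmem _ (Or.inl rfl))) (hav _ (hmem _ (Or.inr (Or.inl rfl)))) (hav _ (hmem _ (Or.inr (Or.inr (Or.inl rfl)))))
      (hav _ (hmem _ (Or.inr (Or.inr (Or.inr rfl))))) z hz
  have hS3 := sum_le_sum hS2
  rw [sum_const, card_range, smul_eq_mul] at hS3
  have hS4 := Nat.mul_le_mul_left F hS3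
  calc _ ≤ (c * lam cr xx u (a L) + G * lam cr xx u v) + F * (β * lam cr xx u v) := Nat.add_le_add hS1 hS4
    _ = c * lam cr xx u (a L) + (G + F * β) * lam cr xx u v := by ring

end H38P
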