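import Pool.Agent.Lib.H38P.C3

/-!
# H38P, chunk C4 (M): the right side of a heavy path
-/

open Finset

namespace H38P

variable {α : Type} [LinearOrder α] [Fintype α] {cr : α → α → α → Prop} {xx : α → α → α → α → Prop}

/-- Chunk C4 (S). `RF` by `symm`. -/
theorem Path.dual (hsymm : ∀ x y z, cr x y z → cr y x z) {u v : α} {L : ℕ} {a b : ℕ → α} (hP : Path cr u v L a b) :
    Path (α := αᵒᵈ) cr v u L b a :=
  { a0 := hP.b0
    b0 := hP.a0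
    sa := fun i hi => hP.sb i hi
    sb := fun i hi => hP.sa i hi
    lt := fun i hi => hP.lt i hi
    rf := fun i hi z hc => hP.rf i hi z (hsymm _ _ _ hc) }

/-- Chunk C4 (M). PROOF. `pathL` for `αᵒᵈ` (`Hyp.dual`, `Path.dual`), and `Io_dual, Nd_dual, Cov_dual, pl_dual, lam_dual`. -/
theorem pathR {K K' R F : ℕ} (hh : Hyp cr xx K K' R F) (hK : 2 * K' + 1 ≤ K) [Nontrivial α] (hR : 4 ≤ R) {u v : α} {L β : ℕ}
    {a b : ℕ → α} (hP : Path cr u v L a b) (hL : L ≤ 2 ^ β) (X0 : ℕ → Finset α) (c G : ℕ)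
    (h0 : ∀ i < L, X0 i ⊆ Io (b (i + 1)) (b i) ∧ Cov cr K' (X0 i) ∧ (Io (b (i + 1)) (b i) \ X0 i).card ≤
      c * lam cr xx (b (i + 1)) (b i) + G * pl cr xx (Io (b (i + 1)) (b i)) (Nd (a i) (b i) (a (i + 1)) (b (i + 1)))ᶜ) :
    ∃ X ⊆ Io (b L) v, Cov cr K' X ∧ (Io (b L) v \ X).card ≤ c * lam cr xx (b L) v + (G + F * β) * lam cr xx u v := by
  have hnt : Nontrivial αᵒᵈ := inferInstanceAs (Nontrivial α)
  have hmain := pathL (α := αᵒᵈ) hh.dual hK hR (hP.dual hh.symm) hL X0 c G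
  rw [lam_dual, lam_dual, Io_dual] at hmain
  have h1 : ∀ i < L, X0 i ⊆ Io (α := αᵒᵈ) (b i) (b (i + 1)) ∧ Cov (α := αᵒᵈ) cr K' (X0 i) ∧
      (Io (α := αᵒᵈ) (b i) (b (i + 1)) \ X0 i).card ≤
      c * lam (α := αᵒᵈ) cr xx (b i) (b (i + 1)) + G * pl (α := αᵒᵈ) cr xx (Io (α := αᵒᵈ) (b i) (b (i + 1)))
        (Nd (α := αᵒᵈ) (b i) (a i) (b (i + 1)) (a (i + 1)))ᶜ := by
    intro i hi
    obtain ⟨h2, h3, h4⟩ := h0 i hi
    rw [Io_dual, lam_dual, pl_dual, Nd_dual]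
    refine ⟨h2, (Cov_dual K' (X0 i)).2 h3, ?_⟩
    refine le_trans (le_of_eq ?_) (h4.trans (le_of_eq ?_))
    · congr 1
    · congr 3
  obtain ⟨X, hX, hXc, hcard⟩ := hmain h1
  refine ⟨X, hX, (Cov_dual (α := α) (cr := cr) K' X).1 hXc, ?_⟩
  exact hcard
end H38P
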