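import Pool.Agent.Lib.H38P.C3

/-!
# H38P, chunk C5 (M): the heavy path
-/

open Finset

namespace H38P

variable {α : Type} [LinearOrder α] [Fintype α] {cr : α → α → α → Prop} {xx : α → α → α → α → Prop}

theorem c5_le {u v : α} {m : ℕ} {h : ℕ → α} (hF : Face cr u v m h) {i j : ℕ} (hij : i ≤ j) (hj : j ≤ m) : h i ≤ h j := by
  rcases Nat.eq_or_lt_of_le hij with h1 | h1
  · rw [h1]
  · exact (hF.mono i j h1 hj).le

theorem c5_mem {a b x : α} : x ∈ Io a b ↔ a < x ∧ x < b := by
  unfold Io
  rw [mem_filter]
  exact ⟨fun h => h.2, fun h => ⟨mem_univ _, h⟩⟩

theorem c5_sub {u v : α} {m : ℕ} {h : ℕ → α} (hF : Face cr u v m h) {i : ℕ} (hi : i < m) :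
    Io (h i) (h (i + 1)) ⊆ Io u v := by
  intro x hx
  rw [c5_mem] at hx ⊢
  have h1 := c5_le hF (Nat.zero_le i) hi.le
  have h2 := c5_le hF (show i + 1 ≤ m from hi) le_rfl
  rw [hF.h0] at h1
  rw [hF.hm] at h2
  exact ⟨lt_of_le_of_lt h1 hx.1, lt_of_lt_of_le hx.2 h2⟩

theorem c5_disj {u v : α} {m : ℕ} {h : ℕ → α} (hF : Face cr u v m h) {i j : ℕ} (hij : i < j) (hj : j < m) :
    Disjoint (Io (h i) (h (i + 1))) (Io (h j) (h (j + 1))) := by
  rw [Finset.disjoint_left]
  intro x hx hx'
  rw [c5_mem] at hx hx'
  have h1 := c5_le hF (show i + 1 ≤ j from hij) hj.le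
  exact absurd (hx.2.trans_le h1) (not_lt.2 hx'.1.le)

/-- Chunk C5 (S). The hubs `h 0, .., h m` are different. -/
theorem Face.m_lt {u v : α} {m : ℕ} {h : ℕ → α} (hF : Face cr u v m h) : m < Fintype.card α := by
  have h1 : Function.Injective (fun i : Fin (m + 1) => h i) := by
    intro i j hij
    simp only at hij
    rcases lt_trichotomy (i : ℕ) (j : ℕ) with h2 | h2 | h2
    · exact absurd hij (hF.mono i j h2 (by omega)).ne
    · exact Fin.ext h2
    · exact absurd hij.symm (hF.mono j i h2 (by omega)).ne
  have h3 := Fintype.card_le_of_injective _ h1
  rw [Fintype.card_fin] at h3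
  omega

/-- Chunk C5 (S/M). Two different windows of a face are disjoint, both are inside `Io u v`. -/
theorem Face.two {u v : α} {m : ℕ} {h : ℕ → α} (hF : Face cr u v m h) {i j : ℕ} (hij : i ≠ j) (hi : i < m) (hj : j < m) :
    (Io (h i) (h (i + 1))).card + (Io (h j) (h (j + 1))).card ≤ (Io u v).card := by
  rcases Nat.lt_or_gt_of_ne hij with h1 | h1
  · rw [← card_union_of_disjoint (c5_disj hF h1 hj)]
    exact card_le_card (union_subset (c5_sub hF hi) (c5_sub hF hj))
  · rw [add_comm, ← card_union_of_disjoint (c5_disj hF h1 hi)]
    exact card_le_card (union_subset (c5_sub hF hj) (c5_sub hF hi))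

/-- Chunk C5 (S). The window `i` does not contain `h i` and `h (i + 1)`, one of them is in `Io u v` (`2 ≤ m`). -/
theorem Face.one {u v : α} {m : ℕ} {h : ℕ → α} (hF : Face cr u v m h) {i : ℕ} (hi : i < m) :
    (Io (h i) (h (i + 1))).card < (Io u v).card := by
  apply card_lt_card
  rw [ssubset_iff_of_subset (c5_sub hF hi)]
  have hm2 := hF.m2
  rcases Nat.eq_zero_or_pos i with h1 | h1
  · refine ⟨h (i + 1), ?_, ?_⟩
    · rw [c5_mem]
      have h2 := hF.mono 0 (i + 1) (by omega) (by omega)
      have h3 := hF.mono (i + 1) m (by omega) le_rfl
      rw [hF.h0] at h2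
      rw [hF.hm] at h3
      exact ⟨h2, h3⟩
    · rw [c5_mem]
      exact fun h4 => lt_irrefl _ h4.2
  · refine ⟨h i, ?_, ?_⟩
    · rw [c5_mem]
      have h2 := hF.mono 0 i h1 hi.le
      have h3 := hF.mono i m hi le_rfl
      rw [hF.h0] at h2
      rw [hF.hm] at h3
      exact ⟨h2, h3⟩
    · rw [c5_mem]
      exact fun h4 => lt_irrefl _ h4.1

/-- The data of a heavy path: nested windows `(a i, b i)`, `i ≤ L`, with their faces; the window `i + 1` is the window number `s i` of the face `i`; all other
windows of the faces have less than `n` vertices. -/
structure HPath (cr : α → α → α → Prop) (u v : α) (n L : ℕ) (a b : ℕ → α) (m : ℕ → ℕ) (h : ℕ → ℕ → α) (s : ℕ → ℕ) : Prop where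
  path : Path cr u v L a b
  face : ∀ i ≤ L, Face cr (a i) (b i) (m i) (h i)
  hs : ∀ i < L, s i < m i ∧ a (i + 1) = h i (s i) ∧ b (i + 1) = h i (s i + 1)
  small : ∀ i < L, ∀ j < m i, j ≠ s i → (Io (h i j) (h i (j + 1))).card < n
  last : ∀ j < m L, (Io (h L j) (h L (j + 1))).card < n

/-- Chunk C5 (M). PROOF. Strong induction on `(Io u v).card`. `hf` gives a face `m, h` of `u, v`. If all its windows have less than `n` vertices: `L = 0`, constant sequences. Otherwise some window `s < m` has at least `n` vertices; it is nonempty (`0 < n`), so
`RF cr (h s) (h (s + 1))` (`Face.rf`), it has less vertices than `Io u v` (`Face.one`), so less than `2 * n`; the other windows have less than `n` vertices (`Face.two`). Take the path `L', a', b', ..` of `h s, h (s + 1)` and put `L = L' + 1`, `a = u, a' 0, a' 1, ..`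
(`fun i => Nat.casesOn i u a'`). -/
theorem heavy (hf : Faces cr) {n : ℕ} (hn : 0 < n) (u v : α) (huv : u < v) (hrf : RF cr u v) (hc : (Io u v).card < 2 * n)
    (hne : (Io u v).Nonempty) : ∃ (L : ℕ) (a b : ℕ → α) (m : ℕ → ℕ) (h : ℕ → ℕ → α) (s : ℕ → ℕ),
      HPath cr u v n L a b m h s ∧ L ≤ (Io u v).card := by
  obtain ⟨N, hN⟩ : ∃ N, N = (Io u v).card := ⟨_, rfl⟩
  induction N using Nat.strong_induction_on generalizing u v with
  | _ N ih =>
    obtain ⟨m, h, hF⟩ := hf u v huv hrf hne
    by_cases hall : ∀ j < m, (Io (h j) (h (j + 1))).card < n
    · refine ⟨0, fun _ => u, fun _ => v, fun _ => m, fun _ => h, fun _ => 0, ?_, Nat.zero_le _⟩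
      exact
        { path :=
            { a0 := rfl
              b0 := rfl
              sa := fun i hi => absurd hi (Nat.not_lt_zero i)
              sb := fun i hi => absurd hi (Nat.not_lt_zero i)
              lt := fun i _ => huv
              rf := fun i _ => hrf }
          face := fun i _ => hF
          hs := fun i hi => absurd hi (Nat.not_lt_zero i)
          small := fun i hi => absurd hi (Nat.not_lt_zero i)
          last := hall }
    · push Not at hall
      obtain ⟨s, hs, hsn⟩ := hall
      have hne' : (Io (h s) (h (s + 1))).Nonempty := by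
        rw [← card_pos]
        omega
      have hrf' : RF cr (h s) (h (s + 1)) := by
        rcases hF.rf s hs with h1 | h1
        · exact h1
        · rw [h1] at hne'
          exact absurd hne' (not_nonempty_empty)
      have hone := hF.one hs
      obtain ⟨L, a', b', m', h', s', hP, hL⟩ := ih _ (by rw [hN]; exact hone) (h s) (h (s + 1))
        (hF.mono s (s + 1) (by omega) hs) hrf' (by omega) hne' rfl
      refine ⟨L + 1, fun i => Nat.casesOn i u a', fun i => Nat.casesOn i v b', fun i => Nat.casesOn i m m',
        fun i => Nat.casesOn i h h', fun i => Nat.casesOn i s s', ?_, by omega⟩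
      exact
        { path :=
            { a0 := rfl
              b0 := rfl
              sa := by
                intro i hi
                cases i with
                | zero =>
                  have h1 := c5_le hF (Nat.zero_le s) hs.le
                  rw [hF.h0, ← hP.path.a0] at h1
                  exact h1
                | succ k => exact hP.path.sa k (by omega)
              sb := by
                intro i hi
                cases i with
                | zero =>
                  have h1 := c5_le hF (show s + 1 ≤ m from hs) le_rfl
                  rw [hF.hm, ← hP.path.b0] at h1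
                  exact h1
                | succ k => exact hP.path.sb k (by omega)
              lt := by
                intro i hi
                cases i with
                | zero => exact huv
                | succ k => exact hP.path.lt k (by omega)
              rf := by
                intro i hi
                cases i with
                | zero => exact hrf
                | succ k => exact hP.path.rf k (by omega) }
          face := by
            intro i hi
            cases i with
            | zero => exact hF
            | succ k => exact hP.face k (by omega)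
          hs := by
            intro i hi
            cases i with
            | zero => exact ⟨hs, hP.path.a0, hP.path.b0⟩
            | succ k => exact hP.hs k (by omega)
          small := by
            intro i hi
            cases i with
            | zero =>
              intro j hj hjs
              change (Io (h j) (h (j + 1))).card < n
              have hj' : j < m := hj
              have hjs' : j ≠ s := hjs
              have h1 := hF.two hjs' hj' hs
              omega
            | succ k => exact hP.small k (by omega)
          last := hP.last }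

end H38P
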