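import Pool.Agent.Lib.H38P.C2
import Pool.Agent.Lib.H38P.C4
import Pool.Agent.Lib.H38P.C5

/-!
# H38P, chunk C6 (M/L): one step of the induction
-/

open Finset

namespace H38P

variable {α : Type} [LinearOrder α] [Fintype α] {cr : α → α → α → Prop} {xx : α → α → α → α → Prop}

/-- Chunk C6 (S). Small windows (also the empty ones, whose ends need not be joined by a chord) have good sets: `St` for the nonempty ones (`RF` by `Face.rf`), `X = ∅` for the empty ones. -/
theorem St.window {K' c δ : ℕ} (hS : St cr xx K' c δ) {u v : α} {m : ℕ} {h : ℕ → α} (hF : Face cr u v m h) {j : ℕ} (hj : j < m)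
    (hc : (Io (h j) (h (j + 1))).card < 2 ^ δ) : ∃ X ⊆ Io (h j) (h (j + 1)), Cov cr K' X ∧
      (Io (h j) (h (j + 1)) \ X).card ≤ c * lam cr xx (h j) (h (j + 1)) := by
  by_cases he : (Io (h j) (h (j + 1))) = ∅
  · refine ⟨∅, Finset.empty_subset _, cov_empty _, ?_⟩
    rw [he, Finset.empty_sdiff, Finset.card_empty]
    exact Nat.zero_le _
  · have hrf := (hF.rf j hj).resolve_right he
    exact hS (h j) (h (j + 1)) (hF.mono j (j + 1) (Nat.lt_succ_self j) hj) hrf hc

/-- Chunk C6 (M). The left parts. PROOF. `St.window` and choice, `faceL` for the face `i` with `s = s i`, `g' = b (i + 1)`; `pathL` with `G = F * (β * (4 * (β + 1) ^ 2))`. (`s i ≤ m i < card α ≤ 2 ^ β`; `Face.mono` for `h i (s i) ≤ h i (s i + 1) ≤ b i`.) -/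
theorem left_part {K K' R F : ℕ} (hh : Hyp cr xx K K' R F) (hK : 2 * K' + 1 ≤ K) [Nontrivial α] {β : ℕ} (hR : β + 7 ≤ R)
    (hβ : Fintype.card α ≤ 2 ^ β) {c δ : ℕ} (hS : St cr xx K' c δ) {u v : α} {L : ℕ} {a b : ℕ → α} {m : ℕ → ℕ} {h : ℕ → ℕ → α}
    {s : ℕ → ℕ} (hP : HPath cr u v (2 ^ δ) L a b m h s) (hL : L ≤ 2 ^ β) :
    ∃ X ⊆ Io u (a L), Cov cr K' X ∧ (Io u (a L) \ X).card ≤ c * lam cr xx u (a L) +
      (F * (β * (4 * (β + 1) ^ 2)) + F * β) * lam cr xx u v := by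
  classical
  have hex : ∀ i < L, ∃ X ⊆ Io (a i) (a (i + 1)), Cov cr K' X ∧ (Io (a i) (a (i + 1)) \ X).card ≤
      c * lam cr xx (a i) (a (i + 1)) + (F * (β * (4 * (β + 1) ^ 2))) *
        pl cr xx (Io (a i) (a (i + 1))) (Nd (a i) (b i) (a (i + 1)) (b (i + 1)))ᶜ := by
    intro i hi
    obtain ⟨hsm, ha, hb⟩ := hP.hs i hi
    have hF := hP.face i hi.le
    have hw : ∀ j, j < s i → ∃ X ⊆ Io (h i j) (h i (j + 1)), Cov cr K' X ∧
        (Io (h i j) (h i (j + 1)) \ X).card ≤ c * lam cr xx (h i j) (h i (j + 1)) := fun j hj =>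
      hS.window hF (hj.trans hsm) (hP.small i hi j (hj.trans hsm) hj.ne)
    have hmlt := hF.m_lt
    have h1 := faceL hh hK (g' := b (i + 1)) hF (hP.path.rf i hi.le) (s := s i) (β := β) hR hsm.le (by omega)
      (by
        rw [hb]
        exact (hF.mono _ _ (Nat.lt_succ_self _) hsm).le)
      (hP.path.sb i hi)
      (by
        left
        rw [← ha]
        exact hP.path.rf (i + 1) hi)
      (fun j => if hj : j < s i then (hw j hj).choose else ∅) c
      (fun j hj => by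
        simp only [dif_pos hj]
        exact (hw j hj).choose_spec)
    rw [← ha] at h1
    obtain ⟨X, hX, hXc, hXb⟩ := h1
    refine ⟨X, hX, hXc, hXb.trans (le_of_eq ?_)⟩
    ring
  exact pathL hh hK (by omega) hP.path hL (fun i => if hi : i < L then (hex i hi).choose else ∅) c _
    (fun i hi => by
      simp only [dif_pos hi]
      exact (hex i hi).choose_spec)

/-- Chunk C6 (M). The right parts: `faceR` with `s = s i + 1`, `g = a (i + 1)`, and `pathR`. -/
theorem right_part {K K' R F : ℕ} (hh : Hyp cr xx K K' R F) (hK : 2 * K' + 1 ≤ K) [Nontrivial α] {β : ℕ} (hR : β + 7 ≤ R)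
    (hβ : Fintype.card α ≤ 2 ^ β) {c δ : ℕ} (hS : St cr xx K' c δ) {u v : α} {L : ℕ} {a b : ℕ → α} {m : ℕ → ℕ} {h : ℕ → ℕ → α}
    {s : ℕ → ℕ} (hP : HPath cr u v (2 ^ δ) L a b m h s) (hL : L ≤ 2 ^ β) :
    ∃ X ⊆ Io (b L) v, Cov cr K' X ∧ (Io (b L) v \ X).card ≤ c * lam cr xx (b L) v +
      (F * (β * (4 * (β + 1) ^ 2)) + F * β) * lam cr xx u v := by
  classical
  have hex : ∀ i < L, ∃ X ⊆ Io (b (i + 1)) (b i), Cov cr K' X ∧ (Io (b (i + 1)) (b i) \ X).card ≤
      c * lam cr xx (b (i + 1)) (b i) + (F * (β * (4 * (β + 1) ^ 2))) *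
        pl cr xx (Io (b (i + 1)) (b i)) (Nd (a i) (b i) (a (i + 1)) (b (i + 1)))ᶜ := by
    intro i hi
    obtain ⟨hsm, ha, hb⟩ := hP.hs i hi
    have hF := hP.face i hi.le
    have hw : ∀ j, s i + 1 ≤ j → j < m i → ∃ X ⊆ Io (h i j) (h i (j + 1)), Cov cr K' X ∧
        (Io (h i j) (h i (j + 1)) \ X).card ≤ c * lam cr xx (h i j) (h i (j + 1)) := fun j hj hj' =>
      hS.window hF hj' (hP.small i hi j hj' (by omega))
    have hmlt := hF.m_lt
    have h1 := faceR hh hK (g := a (i + 1)) hF (hP.path.rf i hi.le) (s := s i + 1) (β := β) hR hsm (by omega)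
      (by
        rw [ha]
        exact (hF.mono _ _ (Nat.lt_succ_self _) hsm).le)
      (hP.path.sa i hi)
      (by
        left
        rw [← hb]
        exact hP.path.rf (i + 1) hi)
      (fun j => if hj : s i + 1 ≤ j ∧ j < m i then (hw j hj.1 hj.2).choose else ∅) c
      (fun j hj hj' => by
        simp only [dif_pos (And.intro hj hj')]
        exact (hw j hj hj').choose_spec)
    rw [← hb] at h1
    obtain ⟨X, hX, hXc, hXb⟩ := h1
    refine ⟨X, hX, hXc, hXb.trans (le_of_eq ?_)⟩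
    ring
  exact pathR hh hK (by omega) hP.path hL (fun i => if hi : i < L then (hex i hi).choose else ∅) c _
    (fun i hi => by
      simp only [dif_pos hi]
      exact (hex i hi).choose_spec)

/-- Chunk C6 (M). The last window: `faceL` with `s = m L`, `g' = b L` (the hole is empty: `Io (b L) (b L) = ∅`); `pl ≤ lam u v` by `pl_le_lam` (`(Nd (a L) (b L) (b L) (b L))ᶜ` contains all `z` outside `Io (a L) (b L)`). -/
theorem last_part {K K' R F : ℕ} (hh : Hyp cr xx K K' R F) (hK : 2 * K' + 1 ≤ K) [Nontrivial α] {β : ℕ} (hR : β + 7 ≤ R)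
    (hβ : Fintype.card α ≤ 2 ^ β) {c δ : ℕ} (hS : St cr xx K' c δ) {u v : α} {L : ℕ} {a b : ℕ → α} {m : ℕ → ℕ} {h : ℕ → ℕ → α}
    {s : ℕ → ℕ} (hP : HPath cr u v (2 ^ δ) L a b m h s) :
    ∃ X ⊆ Io (a L) (b L), Cov cr K' X ∧ (Io (a L) (b L) \ X).card ≤ c * lam cr xx (a L) (b L) +
      F * (β * (4 * (β + 1) ^ 2)) * lam cr xx u v := by
  classical
  have hF := hP.face L le_rfl
  have hw : ∀ j, j < m L → ∃ X ⊆ Io (h L j) (h L (j + 1)), Cov cr K' X ∧
      (Io (h L j) (h L (j + 1)) \ X).card ≤ c * lam cr xx (h L j) (h L (j + 1)) := fun j hj =>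
    hS.window hF hj (hP.last j hj)
  have hmlt := hF.m_lt
  have hm' := hF.hm
  have hemp : Io (b L) (b L) = ∅ := by
    rw [Finset.eq_empty_iff_forall_notMem]
    intro x hx
    have := mem_Io.1 hx
    exact lt_asymm this.1 this.2
  have h1 := faceL hh hK (g' := b L) hF (hP.path.rf L le_rfl) (s := m L) (β := β) hR le_rfl (by omega)
    hm'.le le_rfl
    (by
      right
      rw [hm']
      exact hemp)
    (fun j => if hj : j < m L then (hw j hj).choose else ∅) c
    (fun j hj => by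
      simp only [dif_pos hj]
      exact (hw j hj).choose_spec)
  rw [hm'] at h1
  obtain ⟨X, hX, hXc, hXb⟩ := h1
  refine ⟨X, hX, hXc, hXb.trans (Nat.add_le_add le_rfl ?_)⟩
  have hle := hP.path.le (Nat.zero_le L) le_rfl
  rw [hP.path.a0, hP.path.b0] at hle
  have h2 : pl cr xx (Io (a L) (b L)) (Nd (a L) (b L) (b L) (b L))ᶜ ≤ lam cr xx u v := by
    refine pl_le_lam hle.1 hle.2 ?_
    intro x _ y _ hav z hz
    apply hav
    rw [Finset.mem_compl]
    intro hz'
    apply hz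
    unfold Nd at hz'
    rw [Finset.mem_filter] at hz'
    exact mem_Io.2 ⟨lt_of_le_of_lt hle.1 hz'.2.1, lt_of_lt_of_le hz'.2.2.1 hle.2⟩
  calc F * (β * (4 * (β + 1) ^ 2 * pl cr xx (Io (a L) (b L)) (Nd (a L) (b L) (b L) (b L))ᶜ))
      = F * (β * (4 * (β + 1) ^ 2)) * pl cr xx (Io (a L) (b L)) (Nd (a L) (b L) (b L) (b L))ᶜ := by ring
    _ ≤ _ := Nat.mul_le_mul_left _ h2

end H38P
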