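import Mathlib

/-! # H38P, file Cert: the gadget (generated certificate)

Functions of eight bits `a 0, .., a 3, b 0, .., b 3` are coded by masks `m < 2 ^ 256` (bit `z` of `m` = value at the bits
of `z`). `K` is closed under sums and under products of three functions whose pairwise products are in `K`. -/

set_option autoImplicit false
set_option maxRecDepth 10000

namespace H38P

theorem cv {K : ℕ → Prop} {m n : ℕ} (h : K m) (e : m = n) : K n := e ▸ h

/-- the masks of the bits `a j` -/
def va : Fin 4 → ℕ := ![0xaaaaaaaaaaaaaaaaaaaaaaaaaaaaaaaaaaaaaaaaaaaaaaaaaaaaaaaaaaaaaaaa,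
  0xcccccccccccccccccccccccccccccccccccccccccccccccccccccccccccccccc,
  0xf0f0f0f0f0f0f0f0f0f0f0f0f0f0f0f0f0f0f0f0f0f0f0f0f0f0f0f0f0f0f0f0,
  0xff00ff00ff00ff00ff00ff00ff00ff00ff00ff00ff00ff00ff00ff00ff00ff00]

/-- the masks of the bits `b k` -/
def vb : Fin 4 → ℕ := ![0xffff0000ffff0000ffff0000ffff0000ffff0000ffff0000ffff0000ffff0000,
  0xffffffff00000000ffffffff00000000ffffffff00000000ffffffff00000000,
  0xffffffffffffffff0000000000000000ffffffffffffffff0000000000000000,
  0xffffffffffffffffffffffffffffffff00000000000000000000000000000000]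

theorem gadget {K : ℕ → Prop} (hx : ∀ {m n : ℕ}, K m → K n → K (m ^^^ n))
    (ht : ∀ {a b c : ℕ}, K a → K b → K c → K (a &&& b) → K (a &&& c) → K (b &&& c) → K (a &&& b &&& c))
    (a1 : K 0xaaaaaaaaaaaaaaaaaaaaaaaaaaaaaaaaaaaaaaaaaaaaaaaaaaaaaaaaaaaaaaaa)
    (a2 : K 0xcccccccccccccccccccccccccccccccccccccccccccccccccccccccccccccccc)
    (a3 : K 0x8888888888888888888888888888888888888888888888888888888888888888)
    (a4 : K 0xf0f0f0f0f0f0f0f0f0f0f0f0f0f0f0f0f0f0f0f0f0f0f0f0f0f0f0f0f0f0f0f0)
    (a5 : K 0xa0a0a0a0a0a0a0a0a0a0a0a0a0a0a0a0a0a0a0a0a0a0a0a0a0a0a0a0a0a0a0a0)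
    (a6 : K 0xc0c0c0c0c0c0c0c0c0c0c0c0c0c0c0c0c0c0c0c0c0c0c0c0c0c0c0c0c0c0c0c0)
    (a7 : K 0x8080808080808080808080808080808080808080808080808080808080808080)
    (a8 : K 0xff00ff00ff00ff00ff00ff00ff00ff00ff00ff00ff00ff00ff00ff00ff00ff00)
    (a9 : K 0xaa00aa00aa00aa00aa00aa00aa00aa00aa00aa00aa00aa00aa00aa00aa00aa00)
    (a10 : K 0xcc00cc00cc00cc00cc00cc00cc00cc00cc00cc00cc00cc00cc00cc00cc00cc00)
    (a11 : K 0x8800880088008800880088008800880088008800880088008800880088008800)
    (a12 : K 0xf000f000f000f000f000f000f000f000f000f000f000f000f000f000f000f000)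
    (a13 : K 0xa000a000a000a000a000a000a000a000a000a000a000a000a000a000a000a000)
    (a14 : K 0xc000c000c000c000c000c000c000c000c000c000c000c000c000c000c000c000)
    (b1 : K 0xffff0000ffff0000ffff0000ffff0000ffff0000ffff0000ffff0000ffff0000)
    (b2 : K 0xffffffff00000000ffffffff00000000ffffffff00000000ffffffff00000000)
    (b3 : K 0xffff000000000000ffff000000000000ffff000000000000ffff000000000000)
    (b4 : K 0xffffffffffffffff0000000000000000ffffffffffffffff0000000000000000)
    (b5 : K 0xffff0000ffff00000000000000000000ffff0000ffff00000000000000000000)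
    (b6 : K 0xffffffff000000000000000000000000ffffffff000000000000000000000000)
    (b7 : K 0xffff0000000000000000000000000000ffff0000000000000000000000000000)
    (b8 : K 0xffffffffffffffffffffffffffffffff00000000000000000000000000000000)
    (b9 : K 0xffff0000ffff0000ffff0000ffff000000000000000000000000000000000000)
    (b10 : K 0xffffffff00000000ffffffff0000000000000000000000000000000000000000)
    (b11 : K 0xffff000000000000ffff00000000000000000000000000000000000000000000)
    (b12 : K 0xffffffffffffffff000000000000000000000000000000000000000000000000)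
    (b13 : K 0xffff0000ffff0000000000000000000000000000000000000000000000000000)
    (b14 : K 0xffffffff00000000000000000000000000000000000000000000000000000000)
    (p0 : K 0xaaaaaaaa0000aaaa00000000aaaaaaaa00000000aaaa0000aaaaaaaa0000)
    (p1 : K 0xcccccccccccccccc0000000000000000cccccccccccccccc00000000)
    (p2 : K 0xf0f000000000f0f0f0f000000000f0f00000f0f0f0f000000000f0f0f0f00000)
    (p3 : K 0x5a5a5a5a5a5a5a5a5a5a5a5a5a5a5a5a0000000000000000)
    (p4 : K 0x3c3c00003c3c3c3c00003c3c000000003c3c00003c3c3c3c00003c3c0000)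
    (p5 : K 0x9696000000009696000096969696000096960000000096960000969696960000)
    (p6 : K 0xff00ff00ff00ff000000000000000000ff00ff00ff00ff0000000000)
    (p7 : K 0x55aa55aa000000000000000055aa55aa0000000055aa55aa55aa55aa00000000)
    (p8 : K 0x9966996699669966996699669966996600000000000000000000000000000000)
    (p9 : K 0xa55a0000a55a0000a55a0000a55aa55a0000a55a0000a55a0000a55a0000)
    (p10 : K 0xc33cc33c00000000c33cc33c00000000c33cc33c00000000c33cc33c0000)
    (p11 : K 0x6996000069960000699600006996000069960000699600006996000069960000)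
    : ∀ j k : Fin 4, K (va j &&& vb k) := by
  have l1 : K 0x3333cccc3333cccc3333cccc3333cccc3333cccc3333cccc3333cccc3333cccc := cv (hx a2 b1) (by decide +kernel)
  have l2 : K 0xff00ffff00ff0000ff00ffff00ff0000ff00ffff00ff0000ff00ffff00ff00 := cv (hx a8 b2) (by decide +kernel)
  have l3 : K 0xff00ff00ff00ffff00ff00ff00ff0000ff00ff00ff00ffff00ff00ff00ff00 := cv (hx a8 b4) (by decide +kernel)
  have m4 : K 0x3300cc3300cc00003300cc3300cc00003300cc3300cc00003300cc3300cc00 := cv (hx (hx (hx (hx (hx (hx (hx a10 b3) p2) p4) p5) p6) p7) p9) (by decide +kernel)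
  have m5 : K 0x3300cc003300cc3300cc003300cc00003300cc003300cc3300cc003300cc00 := cv (hx (hx (hx (hx (hx (hx (hx (hx a10 b5) p1) p2) p4) p5) p6) p7) p9) (by decide +kernel)
  have m6 : K 0xff00ff0000000000000000ff00ff0000ff00ff0000000000000000ff00ff00 := cv (hx (hx a8 b6) p6) (by decide +kernel)
  have t7 : K 0x3300cc00000000000000003300cc00003300cc00000000000000003300cc00 := cv (ht l1 l2 l3 (cv m4 (by decide +kernel)) (cv m5 (by decide +kernel)) (cv m6 (by decide +kernel))) (by decide +kernel)
  have l8 : K 0xa5a55a5aa5a55a5aa5a55a5aa5a55a5aa5a55a5aa5a55a5aa5a55a5aa5a55a5a := cv (hx (hx a1 a4) b1) (by decide +kernel)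
  have l9 : K 0x6699669999669966669966999966996666996699996699666699669999669966 := cv (hx (hx (hx a1 a2) a8) b2) (by decide +kernel)
  have l10 : K 0x9999999999999999666666666666666699999999999999996666666666666666 := cv (hx (hx a1 a2) b4) (by decide +kernel)
  have m11 : K 0x2481421881241842248142188124184224814218812418422481421881241842 := cv (hx (hx (hx (hx (hx (hx (hx (hx (hx (hx (hx (hx (hx a1 a3) a5) a6) a9) a12) b3) p0) p1) p3) p5) p6) p7) p9) (by decide +kernel)
  have m12 : K 0x8181181881811818242442422424424281811818818118182424424224244242 := cv (hx (hx (hx (hx (hx (hx (hx (hx (hx (hx a1 a3) a5) a6) b5) p0) p3) p6) p7) p9) p11) (by decide +kernel)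
  have m13 : K 0x99009999009900660066000066006600990099990099006600660000660066 := cv (hx (hx (hx (hx (hx (hx (hx (hx (hx (hx a1 a2) a9) a10) b6) p1) p4) p5) p6) p10) p11) (by decide +kernel)
  have t14 : K 0x81001881001800240042000024004200810018810018002400420000240042 := cv (ht l8 l9 l10 (cv m11 (by decide +kernel)) (cv m12 (by decide +kernel)) (cv m13 (by decide +kernel))) (by decide +kernel)
  have l15 : K 0x6969969669699696696996966969969669699696696996966969969669699696 := cv (hx (hx (hx a1 a2) a4) b1) (by decide +kernel)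
  have l16 : K 0x9999999966666666999999996666666699999999666666669999999966666666 := cv (hx (hx a1 a2) b2) (by decide +kernel)
  have l17 : K 0x6699669966996699996699669966996666996699669966999966996699669966 := cv (hx (hx (hx a1 a2) a8) b4) (by decide +kernel)
  have m18 : K 0x909909060600606090990906060060609099090606006060909909060600606 := cv (hx (hx (hx (hx (hx (hx (hx (hx (hx a1 a2) a5) a6) b3) p0) p1) p2) p3) p4) (by decide +kernel)
  have m19 : K 0x6009069060090690096090060960900660090690600906900960900609609006 := cv (hx (hx (hx (hx (hx (hx (hx (hx (hx (hx (hx (hx (hx (hx a1 a2) a5) a6) a9) a10) a12) b5) p0) p1) p2) p3) p4) p5) p11) (by decide +kernel)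
  have m20 : K 0x99009966006600990099000066006600990099660066009900990000660066 := cv (hx (hx (hx (hx (hx (hx (hx (hx (hx a1 a2) a9) a10) b6) p1) p4) p5) p10) p11) (by decide +kernel)
  have t21 : K 0x9009060000600090090000060000600090090600006000900900000600006 := cv (ht l15 l16 l17 (cv m18 (by decide +kernel)) (cv m19 (by decide +kernel)) (cv m20 (by decide +kernel))) (by decide +kernel)
  have l22 : K 0x33333333cccccccc33333333cccccccc33333333cccccccc33333333cccccccc := cv (hx a2 b2) (by decide +kernel)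
  have l23 : K 0x3333333333333333cccccccccccccccc3333333333333333cccccccccccccccc := cv (hx a2 b4) (by decide +kernel)
  have l24 : K 0xff00ff00ff00ff00ff00ff00ff00ffff00ff00ff00ff00ff00ff00ff00ff00 := cv (hx a8 b8) (by decide +kernel)
  have m25 : K 0x333333330000000000000000cccccccc333333330000000000000000cccccccc := cv (hx (hx a2 b6) p1) (by decide +kernel)
  have m26 : K 0x33003300cc00cc0033003300cc00cc33003300cc00cc0033003300cc00cc00 := cv (hx (hx (hx (hx (hx (hx (hx (hx a10 b10) p4) p5) p6) p7) p8) p10) p11) (by decide +kernel)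
  have m27 : K 0x3300330033003300cc00cc00cc00cc3300330033003300cc00cc00cc00cc00 := cv (hx (hx (hx (hx (hx (hx (hx a10 b12) p4) p5) p7) p8) p10) p11) (by decide +kernel)
  have t28 : K 0x330033000000000000000000cc00cc330033000000000000000000cc00cc00 := cv (ht l22 l23 l24 (cv m25 (by decide +kernel)) (cv m26 (by decide +kernel)) (cv m27 (by decide +kernel))) (by decide +kernel)
  have l29 : K 0x5aa55aa5a55aa55a5aa55aa5a55aa55a5aa55aa5a55aa55a5aa55aa5a55aa55a := cv (hx (hx (hx a1 a4) a8) b2) (by decide +kernel)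
  have l30 : K 0x9669966996699669699669966996699696699669966996696996699669966996 := cv (hx (hx (hx (hx a1 a2) a4) a8) b4) (by decide +kernel)
  have l31 : K 0xaa55aa55aa55aa55aa55aa55aa55aa5555aa55aa55aa55aa55aa55aa55aa55aa := cv (hx (hx a1 a8) b8) (by decide +kernel)
  have m32 : K 0x1221122184488448488448842112211212211221844884484884488421122112 := cv (hx (hx (hx (hx (hx (hx (hx (hx (hx (hx (hx (hx a1 a3) a4) a6) a8) a10) b6) p1) p2) p4) p7) p9) p11) (by decide +kernel)
  have m33 : K 0xa050a05a050a0500a050a05a050a05050a050a0050a050a50a050a0050a050a := cv (hx (hx (hx (hx (hx (hx (hx (hx (hx (hx (hx a1 a5) a8) a12) b10) p0) p1) p2) p3) p4) p9) p10) (by decide +kernel)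
  have m34 : K 0x8241824182418241281428142814281414281428142814284182418241824182 := cv (hx (hx (hx (hx (hx (hx (hx (hx (hx (hx (hx (hx (hx (hx (hx a1 a3) a5) a8) a10) a12) b12) p0) p1) p2) p3) p4) p7) p8) p9) p10) (by decide +kernel)
  have t35 : K 0x201020180408040080408042010201010201020040804084080408001020102 := cv (ht l29 l30 l31 (cv m32 (by decide +kernel)) (cv m33 (by decide +kernel)) (cv m34 (by decide +kernel))) (by decide +kernel)
  have l36 : K 0x9669966969966996966996696996699696699669699669969669966969966996 := cv (hx (hx (hx (hx a1 a2) a4) a8) b2) (by decide +kernel)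
  have l37 : K 0x5aa55aa55aa55aa5a55aa55aa55aa55a5aa55aa55aa55aa5a55aa55aa55aa55a := cv (hx (hx (hx a1 a4) a8) b4) (by decide +kernel)
  have l38 : K 0x55555555555555555555555555555555aaaaaaaaaaaaaaaaaaaaaaaaaaaaaaaa := cv (hx a1 b8) (by decide +kernel)
  have m39 : K 0x1221122148844884844884482112211212211221488448848448844821122112 := cv (hx (hx (hx (hx (hx (hx (hx (hx (hx (hx (hx a1 a3) a4) a6) a8) a10) b6) p2) p4) p7) p9) p11) (by decide +kernel)
  have m40 : K 0x1441144141144114144114414114411482288228288228828228822828822882 := cv (hx (hx (hx (hx (hx (hx (hx (hx (hx (hx (hx (hx (hx (hx a1 a3) a5) a9) b10) p0) p1) p2) p3) p5) p6) p7) p8) p9) p11) (by decide +kernel)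
  have m41 : K 0x500550055005500505500550055005500aa00aa00aa00aa0a00aa00aa00aa00a := cv (hx (hx (hx (hx (hx (hx (hx (hx (hx (hx a1 a5) a9) b12) p0) p1) p2) p3) p5) p9) p11) (by decide +kernel)
  have t42 : K 0x1001100140044004044004400110011002200220088008808008800820022002 := cv (ht l36 l37 l38 (cv m39 (by decide +kernel)) (cv m40 (by decide +kernel)) (cv m41 (by decide +kernel))) (by decide +kernel)
  have q43 : K 0x33cccccc0000ff000000ff0033ccccccff000000cccc33cccccc33ccff000000 := cv (hx (hx (hx (hx (hx (hx (hx (hx (hx (hx (hx (hx (hx t7 t14) t21) t28) t35) t42) a2) a3) a8) a9) a12) a14) b7) b14) (by decide +kernel)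
  have l44 : K 0x5a5a5a5aa5a5a5a5a5a5a5a55a5a5a5a5a5a5a5aa5a5a5a5a5a5a5a55a5a5a5a := cv (hx (hx (hx a1 a4) b2) b4) (by decide +kernel)
  have l45 : K 0xa55aa55a5aa55aa5a55aa55a5aa55aa55aa55aa5a55aa55a5aa55aa5a55aa55a := cv (hx (hx (hx (hx a1 a4) a8) b2) b8) (by decide +kernel)
  have m46 : K 0x4848484884848484848484844848484848484848848484848484848448484848 := cv (hx (hx a3 a6) p1) (by decide +kernel)
  have m47 : K 0x8448844848844884844884484884488448844884844884484884488484488448 := cv (hx (hx (hx (hx (hx (hx (hx (hx (hx a3 a6) a10) p1) p2) p4) p5) p7) p9) q43) (by decide +kernel)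
  have m48 : K 0x5a005a00a500a5a500a5005a005a005a005a00a500a50000a500a5005a005a := cv (hx (hx (hx (hx (hx (hx (hx (hx (hx a1 a4) a9) a12) b2) b6) b10) b12) p3) p6) (by decide +kernel)
  have t49 : K 0x48004800840084840084004800480048004800840084000084008400480048 := cv (ht a2 l44 l45 (cv m46 (by decide +kernel)) (cv m47 (by decide +kernel)) (cv m48 (by decide +kernel))) (by decide +kernel)
  have l50 : K 0xcc33cc3333cc33cccc33cc3333cc33cccc33cc3333cc33cccc33cc3333cc33cc := cv (hx (hx a2 a8) b2) (by decide +kernel)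
  have l51 : K 0x9966669999666699669999666699996699666699996666996699996666999966 := cv (hx (hx (hx (hx a1 a2) a8) b1) b4) (by decide +kernel)
  have l52 : K 0xc3c3c3c3c3c3c3c3c3c3c3c3c3c3c3c33c3c3c3c3c3c3c3c3c3c3c3c3c3c3c3c := cv (hx (hx a2 a4) b8) (by decide +kernel)
  have m53 : K 0x8822441111442288441188222288114488224411114422884411882222881144 := cv (hx (hx (hx (hx (hx (hx (hx (hx (hx (hx (hx (hx (hx (hx a2 a3) a8) a9) b3) b6) p0) p1) p2) p3) p5) p6) p7) p8) q43) (by decide +kernel)
  have m54 : K 0xc003c00303c003c0c003c00303c003c00c300c30300c300c0c300c30300c300c := cv (hx (hx (hx (hx (hx (hx (hx (hx a2 a6) a10) a12) b10) p0) p4) p5) p8) (by decide +kernel)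
  have m55 : K 0x8142428181424281428181424281814218242418182424182418182424181824 := cv (hx (hx (hx (hx (hx (hx (hx (hx (hx a2 a3) a5) a6) a10) a12) b9) b12) p4) p8) (by decide +kernel)
  have t56 : K 0x8002400101400280400180020280014008200410100420080410082020081004 := cv (ht l50 l51 l52 (cv m53 (by decide +kernel)) (cv m54 (by decide +kernel)) (cv m55 (by decide +kernel))) (by decide +kernel)
  have l57 : K 0xf00ff00f0ff00ff0f00ff00f0ff00ff0f00ff00f0ff00ff0f00ff00f0ff00ff0 := cv (hx (hx a4 a8) b2) (by decide +kernel)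
  have l58 : K 0xf00ff00ff00ff00f0ff00ff00ff00ff0f00ff00ff00ff00f0ff00ff00ff00ff0 := cv (hx (hx a4 a8) b4) (by decide +kernel)
  have l59 : K 0xcccc3333cccc3333cccc3333cccc33333333cccc3333cccc3333cccc3333cccc := cv (hx (hx a2 b1) b8) (by decide +kernel)
  have m60 : K 0xf00ff00f00000000000000000ff00ff0f00ff00f00000000000000000ff00ff0 := cv (hx (hx (hx (hx (hx (hx (hx (hx a4 a8) b6) p5) p6) p7) p8) p11) q43) (by decide +kernel)
  have m61 : K 0xc00c30030cc00330c00c30030cc003303003c00c03300cc03003c00c03300cc0 := cv (hx (hx (hx (hx (hx (hx (hx (hx (hx (hx (hx a6 a10) b3) b10) p0) p1) p2) p4) p5) p6) p8) q43) (by decide +kernel)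
  have m62 : K 0xc00c3003c00c30030cc003300cc003303003c00c3003c00c03300cc003300cc0 := cv (hx (hx (hx (hx (hx (hx (hx (hx (hx (hx a6 a10) b5) b12) p0) p2) p4) p5) p6) p8) q43) (by decide +kernel)
  have t63 : K 0xc00c300300000000000000000cc003303003c00c000000000000000003300cc0 := cv (ht l57 l58 l59 (cv m60 (by decide +kernel)) (cv m61 (by decide +kernel)) (cv m62 (by decide +kernel))) (by decide +kernel)
  have l64 : K 0x9999999999999999999999999999999966666666666666666666666666666666 := cv (hx (hx a1 a2) b8) (by decide +kernel)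
  have m65 : K 0x1881188181188118188118818118811842244224244224424224422424422442 := cv (hx (hx (hx (hx (hx (hx (hx (hx (hx (hx (hx (hx (hx a1 a3) a5) a6) a9) a10) b10) p0) p3) p4) p6) p8) p11) q43) (by decide +kernel)
  have m66 : K 0x9009900990099009099009900990099006600660066006606006600660066006 := cv (hx (hx (hx (hx (hx (hx (hx (hx (hx (hx (hx (hx (hx a1 a2) a5) a6) a9) a10) b12) p0) p1) p3) p4) p7) p11) q43) (by decide +kernel)
  have t67 : K 0x1001100180088008088008800110011002200220044004404004400420022002 := cv (ht l29 l30 l64 (cv m32 (by decide +kernel)) (cv m65 (by decide +kernel)) (cv m66 (by decide +kernel))) (by decide +kernel)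
  have l68 : K 0x55aaaa55aa5555aa55aaaa55aa5555aa55aaaa55aa5555aa55aaaa55aa5555aa := cv (hx (hx (hx a1 a8) b1) b2) (by decide +kernel)
  have l69 : K 0xcc33cc33cc33cc3333cc33cc33cc33cccc33cc33cc33cc3333cc33cc33cc33cc := cv (hx (hx a2 a8) b4) (by decide +kernel)
  have l70 : K 0x5a5aa5a55a5aa5a55a5aa5a55a5aa5a5a5a55a5aa5a55a5aa5a55a5aa5a55a5a := cv (hx (hx (hx a1 a4) b1) b8) (by decide +kernel)
  have m71 : K 0x4422881188114422118822442244118844228811881144221188224422441188 := cv (hx (hx (hx (hx (hx (hx (hx (hx (hx (hx (hx a3 a8) a9) a10) b5) b6) p0) p1) p3) p4) p7) p9) (by decide +kernel)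
  have m72 : K 0x500aa0050a5005a0500aa0050a5005a005a00a50a005500a05a00a50a005500a := cv (hx (hx (hx (hx (hx (hx (hx (hx (hx (hx (hx (hx (hx (hx (hx a1 a5) a9) a12) b1) b3) b9) b10) p0) p3) p5) p7) p8) p9) p11) q43) (by decide +kernel)
  have m73 : K 0x4812842148128421124821841248218484214812842148122184124821841248 := cv (hx (hx (hx (hx (hx (hx (hx (hx (hx (hx (hx a3 a6) a9) a12) b5) b12) p1) p3) p6) p9) p11) q43) (by decide +kernel)
  have t74 : K 0x4002800108100420100820040240018004200810800140020180024020041008 := cv (ht l68 l69 l70 (cv m71 (by decide +kernel)) (cv m72 (by decide +kernel)) (cv m73 (by decide +kernel))) (by decide +kernel)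
  have q75 : K 0xc33ccccca55aaaaa0ff0000069966666a55aaaaac33ccccc699666660ff00000 := cv (hx (hx (hx (hx (hx (hx (hx (hx (hx (hx (hx (hx (hx t49 t56) t63) t67) t74) a1) a2) a5) a6) a7) a9) b5) b11) b13) (by decide +kernel)
  have l76 : K 0x9696969696969696969696969696969696969696969696969696969696969696 := cv (hx (hx a1 a2) a4) (by decide +kernel)
  have l77 : K 0xaa5555aa55aaaa5555aaaa55aa5555aaaa5555aa55aaaa5555aaaa55aa5555aa := cv (hx (hx (hx (hx a1 a8) b1) b2) b4) (by decide +kernel)
  have l78 : K 0x6699996699666699669999669966669999666699669999669966669966999966 := cv (hx (hx (hx (hx (hx a1 a2) a8) b1) b2) b8) (by decide +kernel)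
  have m79 : K 0x8214148214828214148282148214148282141482148282141482821482141482 := cv (hx (hx (hx (hx (hx (hx a1 a3) a5) a9) a10) a12) p5) (by decide +kernel)
  have m80 : K 0x690900690060690069090069006069090060690069090069006069006909006 := cv (hx (hx (hx (hx (hx (hx (hx (hx (hx (hx (hx (hx a1 a2) a5) a6) a9) a10) a12) p2) p3) p4) p7) p9) q43) (by decide +kernel)
  have m81 : K 0x2211112211222211448888448844448888444488448888441122221122111122 := cv (hx (hx (hx (hx (hx (hx (hx (hx (hx (hx (hx (hx (hx (hx (hx (hx (hx a1 a3) a8) a10) b1) b2) b5) b6) b9) b10) b12) p0) p2) p3) p4) p7) p10) p11) (by decide +kernel)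
  have t82 : K 0x210100210020210048080048004048080040480048080041002021002101002 := cv (ht l76 l77 l78 (cv m79 (by decide +kernel)) (cv m80 (by decide +kernel)) (cv m81 (by decide +kernel))) (by decide +kernel)
  have l83 : K 0xf0f0f0f0f0f0f0f0f0f0f0f0f0f0f0ff0f0f0f0f0f0f0f0f0f0f0f0f0f0f0f0 := cv (hx a4 b8) (by decide +kernel)
  have m84 : K 0x909060609090606090906060909060660609090606090906060909060609090 := cv (hx (hx (hx (hx (hx (hx (hx (hx a4 a5) a6) b9) p0) p1) p7) p9) q43) (by decide +kernel)
  have m85 : K 0x909090906060606090909090606060690909090606060609090909060606060 := cv (hx (hx (hx (hx (hx (hx (hx (hx a5 a6) b10) p0) p1) p2) p7) p9) q43) (by decide +kernel)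
  have t86 : K 0x909000000000606090900000000060600009090606000000000909060600000 := cv (ht l15 l16 l83 (cv m18 (by decide +kernel)) (cv m84 (by decide +kernel)) (cv m85 (by decide +kernel))) (by decide +kernel)
  have l87 : K 0x6699996666999966669999666699996666999966669999666699996666999966 := cv (hx (hx (hx a1 a2) a8) b1) (by decide +kernel)
  have l88 : K 0xa5a5a5a55a5a5a5aa5a5a5a55a5a5a5aa5a5a5a55a5a5a5aa5a5a5a55a5a5a5a := cv (hx (hx a1 a4) b2) (by decide +kernel)
  have m89 : K 0x2481812442181842248181244218184224818124421818422481812442181842 := cv (hx (hx (hx (hx (hx (hx (hx (hx (hx (hx (hx (hx (hx (hx a1 a3) a5) a6) a9) a12) b3) p0) p1) p3) p5) p6) p7) p9) p10) (by decide +kernel)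
  have m90 : K 0x4281182442811824241881422418814242811824428118242418814224188142 := cv (hx (hx (hx (hx (hx (hx (hx (hx (hx (hx (hx (hx (hx (hx (hx a1 a3) a5) a6) a8) a10) a12) b5) p0) p1) p3) p5) p8) p9) p10) q43) (by decide +kernel)
  have m91 : K 0xa500a55a005a00a500a500005a005a00a500a55a005a00a500a500005a005a := cv (hx (hx (hx (hx (hx (hx (hx (hx (hx a1 a4) a9) a12) b6) p4) p7) p8) p10) q43) (by decide +kernel)
  have t92 : K 0x81002442001800240081000018004200810024420018002400810000180042 := cv (ht l87 l88 l37 (cv m89 (by decide +kernel)) (cv m90 (by decide +kernel)) (cv m91 (by decide +kernel))) (by decide +kernel)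
  have l93 : K 0x3cc33cc3c33cc33c3cc33cc3c33cc33c3cc33cc3c33cc33c3cc33cc3c33cc33c := cv (hx (hx (hx a2 a4) a8) b2) (by decide +kernel)
  have l94 : K 0x33cccc3333cccc33cc3333cccc3333cc33cccc3333cccc33cc3333cccc3333cc := cv (hx (hx (hx a2 a8) b1) b4) (by decide +kernel)
  have l95 : K 0x55aaaa5555aaaa5555aaaa5555aaaa55aa5555aaaa5555aaaa5555aaaa5555aa := cv (hx (hx (hx a1 a8) b1) b8) (by decide +kernel)
  have m96 : K 0x30c00c03030cc0300c0330c0c030030c30c00c03030cc0300c0330c0c030030c := cv (hx (hx (hx (hx (hx (hx (hx (hx (hx a2 a6) a8) a12) b3) b6) p2) p5) p7) p9) (by decide +kernel)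
  have m97 : K 0x1482284141288214148228414128821428411482821441282841148282144128 := cv (hx (hx (hx (hx (hx (hx (hx (hx (hx (hx (hx (hx (hx (hx (hx (hx (hx a3 a5) a8) a9) a10) a12) b3) b10) p1) p2) p3) p4) p6) p7) p8) p9) p10) p11) (by decide +kernel)
  have m98 : K 0x1188881111888811442222444422224422444422224444228811118888111188 := cv (hx (hx (hx (hx (hx (hx (hx (hx (hx (hx (hx (hx (hx (hx (hx a3 a8) a9) a10) b1) b5) b9) b12) p1) p2) p3) p4) p6) p8) p10) p11) (by decide +kernel)
  have t99 : K 0x1080080101088010040220404020020420400402020440200801108080100108 := cv (ht l93 l94 l95 (cv m96 (by decide +kernel)) (cv m97 (by decide +kernel)) (cv m98 (by decide +kernel))) (by decide +kernel)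
  have t100 : K 0x4002800108100420100820040240018004200810800140020180024020041008 := cv (ht l68 l69 l70 (cv m71 (by decide +kernel)) (cv m72 (by decide +kernel)) (cv m73 (by decide +kernel))) (by decide +kernel)
  have q101 : K 0x5a5a99665a5a9966c33c0000c33c00005a5a99665a5a9966c33c0000c33c0000 := cv (hx (hx (hx (hx (hx (hx (hx (hx (hx (hx (hx (hx (hx (hx (hx (hx t82 t86) t92) t99) t100) a6) a7) a8) a9) a10) a11) a12) a13) b3) b5) b7) b13) (by decide +kernel)
  have l102 : K 0xc3c33c3cc3c33c3cc3c33c3cc3c33c3cc3c33c3cc3c33c3cc3c33c3cc3c33c3c := cv (hx (hx a2 a4) b1) (by decide +kernel)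
  have l103 : K 0xaa55aa5555aa55aaaa55aa5555aa55aaaa55aa5555aa55aaaa55aa5555aa55aa := cv (hx (hx a1 a8) b2) (by decide +kernel)
  have l104 : K 0x33333333333333333333333333333333cccccccccccccccccccccccccccccccc := cv (hx a2 b8) (by decide +kernel)
  have m105 : K 0x8241281441821428824128144182142882412814418214288241281441821428 := cv (hx (hx (hx (hx (hx (hx (hx (hx (hx (hx a3 a5) a10) a12) b3) p1) p4) p5) p7) p8) q43) (by decide +kernel)
  have m106 : K 0x3033030030330300303303003033030c0c00c0cc0c00c0cc0c00c0cc0c00c0c := cv (hx (hx (hx (hx (hx a2 a6) b9) p8) p9) p11) (by decide +kernel)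
  have m107 : K 0x2211221111221122221122111122112288448844448844888844884444884488 := cv (hx (hx (hx (hx (hx (hx (hx (hx (hx (hx a3 a10) b10) p1) p2) p4) p5) p7) p8) p9) q43) (by decide +kernel)
  have t108 : K 0x201201001021020020120100102102080400804408004088040080440800408 := cv (ht l102 l103 l104 (cv m105 (by decide +kernel)) (cv m106 (by decide +kernel)) (cv m107 (by decide +kernel))) (by decide +kernel)
  have l109 : K 0xaa5555aaaa5555aaaa5555aaaa5555aaaa5555aaaa5555aaaa5555aaaa5555aa := cv (hx (hx a1 a8) b1) (by decide +kernel)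
  have m110 : K 0x2211112288444488221111228844448822111122884444882211112288444488 := cv (hx (hx (hx (hx (hx (hx (hx (hx (hx a3 a10) b3) p0) p1) p2) p3) p4) p10) p11) (by decide +kernel)
  have m111 : K 0x5500aa005500aa005500aa005500aaaa005500aa005500aa005500aa005500 := cv (hx (hx (hx (hx (hx (hx a8 a9) b9) p1) p6) p8) q43) (by decide +kernel)
  have t112 : K 0x11002200440088001100220044008822001100880044002200110088004400 := cv (ht l109 l22 l24 (cv m110 (by decide +kernel)) (cv m111 (by decide +kernel)) (cv m26 (by decide +kernel))) (by decide +kernel)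
  have l113 : K 0xa5a5a5a5a5a5a5a55a5a5a5a5a5a5a5aa5a5a5a5a5a5a5a55a5a5a5a5a5a5a5a := cv (hx (hx a1 a4) b4) (by decide +kernel)
  have m114 : K 0xa0550a0a050050a0a0550a0a050050a0a0550a0a050050a0a0550a0a050050a := cv (hx (hx (hx (hx (hx (hx (hx (hx (hx (hx a1 a5) a8) a12) b3) p0) p1) p2) p3) p4) p10) (by decide +kernel)
  have m115 : K 0xa00505a0a00505a00a50500a0a50500aa00505a0a00505a00a50500a0a50500a := cv (hx (hx (hx (hx (hx (hx (hx (hx (hx (hx (hx (hx (hx a1 a5) a9) a12) b5) p0) p2) p3) p4) p6) p7) p8) p10) q43) (by decide +kernel)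
  have m116 : K 0xa500a5a500a5005a005a00005a005a00a500a5a500a5005a005a00005a005a := cv (hx (hx (hx (hx (hx (hx (hx (hx (hx (hx a1 a4) a9) a12) b6) p4) p6) p7) p8) p10) q43) (by decide +kernel)
  have t117 : K 0x500a0a00005000a0050000050000a000500a0a00005000a0050000050000a := cv (ht l109 l29 l113 (cv m114 (by decide +kernel)) (cv m115 (by decide +kernel)) (cv m116 (by decide +kernel))) (by decide +kernel)
  have l118 : K 0x5aa5a55a5aa5a55a5aa5a55a5aa5a55a5aa5a55a5aa5a55a5aa5a55a5aa5a55a := cv (hx (hx (hx a1 a4) a8) b1) (by decide +kernel)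
  have l119 : K 0x55aa55aa55aa55aaaa55aa55aa55aa55aa55aa55aa55aa5555aa55aa55aa55aa := cv (hx (hx (hx a1 a8) b4) b8) (by decide +kernel)
  have m120 : K 0x5005a00a0aa005505005a00a0aa005505005a00a0aa005505005a00a0aa00550 := cv (hx (hx (hx (hx (hx (hx (hx (hx (hx (hx (hx (hx a4 a5) a8) a9) b3) p0) p3) p4) p6) p8) p9) p10) q43) (by decide +kernel)
  have m121 : K 0x50a0050a50a0050a0a05a0500a05a0500a05a0500a05a05050a0050a50a0050a := cv (hx (hx (hx (hx (hx (hx (hx (hx (hx (hx (hx (hx (hx (hx a1 a5) a8) a12) b5) b9) p0) p1) p3) p4) p5) p8) p10) p11) q43) (by decide +kernel)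
  have m122 : K 0x500a500a05a005a0a005a0050a500a50a005a0050a500a50500a500a05a005a0 := cv (hx (hx (hx (hx (hx (hx (hx a5 a8) a9) a12) b6) b10) p3) p7) (by decide +kernel)
  have t123 : K 0x5000000a00a005000005a0000a0000500005a0000a0000505000000a00a00500 := cv (ht l118 l57 l119 (cv m120 (by decide +kernel)) (cv m121 (by decide +kernel)) (cv m122 (by decide +kernel))) (by decide +kernel)
  have l124 : K 0x9696969669696969696969699696969696969696696969696969696996969696 := cv (hx (hx (hx (hx a1 a2) a4) b2) b4) (by decide +kernel)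
  have l125 : K 0xaaaaaaaa55555555aaaaaaaa5555555555555555aaaaaaaa55555555aaaaaaaa := cv (hx (hx a1 b2) b8) (by decide +kernel)
  have m126 : K 0x1284841248212148482121481284841212848412482121484821214812848412 := cv (hx (hx (hx (hx (hx (hx (hx (hx (hx (hx (hx a1 a3) a4) a6) a9) a10) a12) b3) b5) p1) p5) p6) (by decide +kernel)
  have m127 : K 0xaa0a00a500505500aa0a00a50050550500505500aa0a00a500505500aa0a00a := cv (hx (hx (hx (hx (hx (hx (hx (hx (hx (hx (hx a1 a5) a9) b3) b9) p0) p3) p4) p6) p8) p10) q43) (by decide +kernel)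
  have m128 : K 0x8282828241414141282828281414141414141414282828284141414182828282 := cv (hx (hx (hx (hx (hx (hx (hx (hx (hx (hx (hx (hx (hx a1 a3) a5) b2) b6) b10) b12) p1) p2) p3) p4) p8) p9) p11) (by decide +kernel)
  have t129 : K 0x280800240010140082020081004041010040410082020084001014002808002 := cv (ht l118 l124 l125 (cv m126 (by decide +kernel)) (cv m127 (by decide +kernel)) (cv m128 (by decide +kernel))) (by decide +kernel)
  have t130 : K 0x201020180408040080408042010201010201020040804084080408001020102 := cv (ht l29 l30 l31 (cv m32 (by decide +kernel)) (cv m33 (by decide +kernel)) (cv m34 (by decide +kernel))) (by decide +kernel)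
  have q131 : K 0x969699665a5a55aa33cc3c3cff00f0f066666996aaaaa55ac33ccccc0ff00000 := cv (hx (hx (hx (hx (hx (hx (hx (hx (hx (hx (hx (hx (hx (hx (hx (hx t108 t112) t117) t123) t129) t130) a1) a3) a5) a7) a9) a10) a13) b3) b7) b13) b14) (by decide +kernel)
  have o132 : K 0xaaaa0000aaaa0000aaaa0000aaaa0000aaaa0000aaaa0000aaaa0000aaaa0000 := cv (hx (hx (hx (hx (hx (hx (hx p3 p6) p7) p8) p11) q75) q101) q131) (by decide +kernel)
  have o133 : K 0xaaaaaaaa00000000aaaaaaaa00000000aaaaaaaa00000000aaaaaaaa00000000 := cv (hx (hx (hx (hx (hx p5 p8) p9) p10) q43) q131) (by decide +kernel)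
  have o134 : K 0xaaaaaaaaaaaaaaaa0000000000000000aaaaaaaaaaaaaaaa0000000000000000 := cv (hx (hx (hx (hx (hx (hx (hx (hx (hx p2 p3) p6) p7) p9) p10) p11) q43) q75) q131) (by decide +kernel)
  have o135 : K 0xaaaaaaaaaaaaaaaaaaaaaaaaaaaaaaaa00000000000000000000000000000000 := cv (hx (hx (hx (hx p0 p2) p5) q101) q131) (by decide +kernel)
  have o136 : K 0xcccc0000cccc0000cccc0000cccc0000cccc0000cccc0000cccc0000cccc0000 := cv (hx (hx (hx (hx (hx (hx (hx (hx (hx (hx p0 p1) p5) p6) p7) p9) p10) p11) q43) q75) q131) (by decide +kernel)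
  have o137 : K 0xcccccccc00000000cccccccc00000000cccccccc00000000cccccccc00000000 := cv (hx (hx (hx (hx (hx (hx (hx p1 p3) p4) p7) p9) p11) q43) q75) (by decide +kernel)
  have o138 : K 0xcccccccccccccccc0000000000000000cccccccccccccccc0000000000000000 := cv (hx (hx (hx (hx (hx (hx p3 p4) p7) p9) p11) q43) q75) (by decide +kernel)
  have o139 : K 0xcccccccccccccccccccccccccccccccc00000000000000000000000000000000 := cv (hx (hx (hx (hx p2 p3) p5) p11) q75) (by decide +kernel)
  have o140 : K 0xf0f00000f0f00000f0f00000f0f00000f0f00000f0f00000f0f00000f0f00000 := cv (hx (hx (hx (hx (hx (hx (hx p0 p2) p6) p8) p9) p10) q75) q101) (by decide +kernel)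
  have o141 : K 0xf0f0f0f000000000f0f0f0f000000000f0f0f0f000000000f0f0f0f000000000 := cv (hx (hx (hx (hx (hx (hx (hx (hx (hx p1 p2) p3) p7) p9) p11) q43) q75) q101) q131) (by decide +kernel)
  have o142 : K 0xf0f0f0f0f0f0f0f00000000000000000f0f0f0f0f0f0f0f00000000000000000 := cv (hx (hx (hx (hx (hx (hx (hx (hx p1 p2) p3) p5) p8) p9) q75) q101) q131) (by decide +kernel)
  have o143 : K 0xf0f0f0f0f0f0f0f0f0f0f0f0f0f0f0f000000000000000000000000000000000 := cv (hx (hx (hx (hx (hx (hx (hx (hx (hx (hx p0 p1) p2) p3) p6) p7) p8) p10) p11) q43) q131) (by decide +kernel)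
  have o144 : K 0xff000000ff000000ff000000ff000000ff000000ff000000ff000000ff000000 := cv (hx (hx (hx (hx (hx (hx (hx p1 p2) p3) p5) p6) p11) q43) q75) (by decide +kernel)
  have o145 : K 0xff00ff0000000000ff00ff0000000000ff00ff0000000000ff00ff0000000000 := cv (hx (hx (hx (hx (hx (hx (hx p2 p3) p4) p6) p7) p8) p10) q75) (by decide +kernel)
  have o146 : K 0xff00ff00ff00ff000000000000000000ff00ff00ff00ff000000000000000000 := cv (hx (hx (hx (hx (hx (hx p2 p3) p4) p7) p8) p10) q75) (by decide +kernel)
  have o147 : K 0xff00ff00ff00ff00ff00ff00ff00ff0000000000000000000000000000000000 := cv (hx (hx (hx (hx (hx (hx p0 p3) p8) p11) q75) q101) q131) (by decide +kernel)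
  intro j k
  fin_cases j <;> fin_cases k
  · exact cv o132 (by decide +kernel)
  · exact cv o133 (by decide +kernel)
  · exact cv o134 (by decide +kernel)
  · exact cv o135 (by decide +kernel)
  · exact cv o136 (by decide +kernel)
  · exact cv o137 (by decide +kernel)
  · exact cv o138 (by decide +kernel)
  · exact cv o139 (by decide +kernel)
  · exact cv o140 (by decide +kernel)
  · exact cv o141 (by decide +kernel)
  · exact cv o142 (by decide +kernel)
  · exact cv o143 (by decide +kernel)
  · exact cv o144 (by decide +kernel)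
  · exact cv o145 (by decide +kernel)
  · exact cv o146 (by decide +kernel)
  · exact cv o147 (by decide +kernel)

end H38P
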