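import Mathlib

/-! # H38P, file Cert3: the gadget (generated certificate)

Functions of six bits `a 0, a 1, a 2, b 0, b 1, b 2` are coded by masks `m < 2 ^ 64` (bit `z` of `m` = value at the bits
of `z`). `K` is closed under sums and under products of three functions whose pairwise products are in `K`. If all
functions of the `a i`, all functions of the `b i`, the products `a i * b j` for `i ≠ j` and the sums
`a 0 * b 0 + a 1 * b 1`, `a 0 * b 0 + a 2 * b 2` are in `K`, then `a 0 * b 0` is in `K` (it is a sum of four triple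
products and of the given functions). -/

set_option autoImplicit false

namespace H38P.Three

theorem cv {K : ℕ → Prop} {m n : ℕ} (h : K m) (e : m = n) : K n := e ▸ h

theorem gadget {K : ℕ → Prop} (hx : ∀ {m n : ℕ}, K m → K n → K (m ^^^ n))
    (ht : ∀ {a b c : ℕ}, K a → K b → K c → K (a &&& b) → K (a &&& c) → K (b &&& c) → K (a &&& b &&& c))
    (a1 : K 0xaaaaaaaaaaaaaaaa)
    (a2 : K 0xcccccccccccccccc)
    (a3 : K 0x8888888888888888)
    (a4 : K 0xf0f0f0f0f0f0f0f0)
    (a5 : K 0xa0a0a0a0a0a0a0a0)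
    (a6 : K 0xc0c0c0c0c0c0c0c0)
    (a7 : K 0x8080808080808080)
    (b1 : K 0xff00ff00ff00ff00)
    (b2 : K 0xffff0000ffff0000)
    (b3 : K 0xff000000ff000000)
    (b4 : K 0xffffffff00000000)
    (b5 : K 0xff00ff0000000000)
    (b6 : K 0xffff000000000000)
    (b7 : K 0xff00000000000000)
    (p01 : K 0xaaaa0000aaaa0000)
    (p02 : K 0xaaaaaaaa00000000)
    (p10 : K 0xcc00cc00cc00cc00)
    (p12 : K 0xcccccccc00000000)
    (p20 : K 0xf000f000f000f000)
    (p21 : K 0xf0f00000f0f00000)
    (d1 : K 0x66ccaa0066ccaa00)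
    (d2 : K 0x5af05af0aa00aa00) :
    K 0xaa00aa00aa00aa00 := by
  have l1 : K 0x3333cccc3333cccc := cv (hx a2 b2) (by decide +kernel)
  have l2 : K 0xf0f0f0ff0f0f0f0 := cv (hx a4 b4) (by decide +kernel)
  have m3 : K 0x2222888822228888 := cv (hx a3 p01) (by decide +kernel)
  have m4 : K 0xa0a0a0aa0a0a0a0 := cv (hx a5 p02) (by decide +kernel)
  have m5 : K 0x3030c0c3030c0c0 := cv (hx (hx (hx a6 b6) p12) p21) (by decide +kernel)
  have t6 : K 0x202080820208080 := cv (ht a1 l1 l2 (cv m3 (by decide +kernel)) (cv m4 (by decide +kernel)) (cv m5 (by decide +kernel))) (by decide +kernel)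
  have l7 : K 0x3c3c3c3c3c3c3c3c := cv (hx a2 a4) (by decide +kernel)
  have l8 : K 0x33cc33cc33cc33cc := cv (hx a2 b1) (by decide +kernel)
  have l9 : K 0xaaaa55555555aaaa := cv (hx (hx a1 b2) b4) (by decide +kernel)
  have m10 : K 0x300c300c300c300c := cv (hx (hx (hx a2 a6) p10) p20) (by decide +kernel)
  have m11 : K 0x2828141414142828 := cv (hx (hx (hx (hx (hx a3 a5) p12) p21) d1) d2) (by decide +kernel)
  have m12 : K 0x2288114411442288 := cv (hx (hx (hx (hx a3 b3) b5) p12) d1) (by decide +kernel)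
  have t13 : K 0x2008100410042008 := cv (ht l7 l8 l9 (cv m10 (by decide +kernel)) (cv m11 (by decide +kernel)) (cv m12 (by decide +kernel))) (by decide +kernel)
  have l14 : K 0x9696969696969696 := cv (hx (hx a1 a2) a4) (by decide +kernel)
  have l15 : K 0x6699996666999966 := cv (hx (hx (hx a1 a2) b1) b2) (by decide +kernel)
  have l16 : K 0xcc33cc3333cc33cc := cv (hx (hx a2 b1) b4) (by decide +kernel)
  have m17 : K 0x690900606909006 := cv (hx (hx (hx (hx (hx (hx (hx (hx a1 a2) a5) a6) p01) p10) p20) p21) d1) (by decide +kernel)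
  have m18 : K 0x8412841212841284 := cv (hx (hx (hx (hx (hx (hx (hx a2 a3) a6) p02) p10) p12) p20) d2) (by decide +kernel)
  have m19 : K 0x4411882222881144 := cv (hx (hx (hx (hx (hx (hx (hx (hx a2 a3) b1) b3) b5) b6) p02) p12) d1) (by decide +kernel)
  have t20 : K 0x410800202801004 := cv (ht l14 l15 l16 (cv m17 (by decide +kernel)) (cv m18 (by decide +kernel)) (cv m19 (by decide +kernel))) (by decide +kernel)
  have l21 : K 0xc33cc33cc33cc33c := cv (hx (hx a2 a4) b1) (by decide +kernel)
  have l22 : K 0x5555aaaa5555aaaa := cv (hx a1 b2) (by decide +kernel)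
  have l23 : K 0x55555555aaaaaaaa := cv (hx a1 b4) (by decide +kernel)
  have m24 : K 0x4114822841148228 := cv (hx (hx (hx (hx a3 a5) b3) p21) d1) (by decide +kernel)
  have m25 : K 0x4114411482288228 := cv (hx (hx (hx (hx a3 a5) b5) p12) d2) (by decide +kernel)
  have m26 : K 0x555500000000aaaa := cv (hx (hx (hx a1 b6) p01) p02) (by decide +kernel)
  have t27 : K 0x4114000000008228 := cv (ht l21 l22 l23 (cv m24 (by decide +kernel)) (cv m25 (by decide +kernel)) (cv m26 (by decide +kernel))) (by decide +kernel)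
  exact cv (hx (hx (hx (hx (hx (hx (hx (hx (hx (hx (hx (hx t6 t13) t20) t27) a2) a3) a5) a6) a7) b7) p02) p10) p20) (by decide +kernel)

end H38P.Three
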