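import Mathlib

/-!
# H38P (clinic MP_33911d_co, module D): abstract recursion. Definitions.

`α`: the vertices other than the pole, in the order of the rotation at the pole (cut somewhere). `cr x y z`: the edge `xy` crosses
the ray `z` (the edge from the pole to `z`). `xx x y z w`: the edges `xy` and `zw` cross.
-/

open Finset

namespace H38P

variable {α : Type} [LinearOrder α] [Fintype α]

/-- The open interval. -/
def Io (a b : α) : Finset α := univ.filter (fun x => a < x ∧ x < b)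

/-- The part of the window `(u, v)` outside the hole `[g, g']`. -/
def Nd (u v g g' : α) : Finset α := univ.filter (fun x => u < x ∧ x < v ∧ (x < g ∨ g' < x))

/-- The ray `r` is outside the arc spanned by `I`. -/
def Out (I : Finset α) (r : α) : Prop := (∀ x ∈ I, r < x) ∨ (∀ x ∈ I, x < r)

/-- All pairs of `C` cross the ray `r`. -/
def Chain (cr : α → α → α → Prop) (C : Finset α) (r : α) : Prop := ∀ x ∈ C, ∀ y ∈ C, x ≠ y → cr x y r

/-- `X` is covered by at most `K` chains. -/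
def Cov (cr : α → α → α → Prop) (K : ℕ) (X : Finset α) : Prop :=
  ∃ S : Finset (Finset α × α), S.card ≤ K ∧ (∀ x ∈ X, ∃ c ∈ S, x ∈ c.1) ∧ ∀ c ∈ S, Out c.1 c.2 ∧ Chain cr c.1 c.2

/-- A plane matching. -/
structure PM (xx : α → α → α → α → Prop) (M : Finset (α × α)) : Prop where
  ne : ∀ e ∈ M, e.1 ≠ e.2
  disj : ∀ e ∈ M, ∀ f ∈ M, e ≠ f → e.1 ≠ f.1 ∧ e.1 ≠ f.2 ∧ e.2 ≠ f.1 ∧ e.2 ≠ f.2
  plane : ∀ e ∈ M, ∀ f ∈ M, e ≠ f → ¬ xx e.1 e.2 f.1 f.2

/-- A plane matching inside `I`, whose edges avoid the rays of `B`. -/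
structure Mat (cr : α → α → α → Prop) (xx : α → α → α → α → Prop) (I B : Finset α) (M : Finset (α × α)) : Prop where
  pm : PM xx M
  ins : ∀ e ∈ M, e.1 ∈ I ∧ e.2 ∈ I
  av : ∀ e ∈ M, ∀ z ∈ B, ¬ cr e.1 e.2 z

open Classical in
/-- The largest number of edges of a plane matching inside `I`, whose edges avoid the rays of `B`. -/
noncomputable def pl (cr : α → α → α → Prop) (xx : α → α → α → α → Prop) (I B : Finset α) : ℕ :=
  ((univ : Finset (Finset (α × α))).filter (fun M => Mat cr xx I B M)).sup Finset.card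

/-- The largest number of edges of a plane matching inside the interval `(a, b)`, whose edges avoid all rays outside it. -/
noncomputable def lam (cr : α → α → α → Prop) (xx : α → α → α → α → Prop) (a b : α) : ℕ :=
  pl cr xx (Io a b) (Io a b)ᶜ

/-- The edge `uv` crosses no ray. -/
def RF (cr : α → α → α → Prop) (u v : α) : Prop := ∀ z, ¬ cr u v z

/-- The hypotheses on the drawing, and module C (`gm`: merging of chains with parameters `K`, `K'`, `R`, `F`). -/
structure Hyp (cr : α → α → α → Prop) (xx : α → α → α → α → Prop) (K K' R F : ℕ) : Prop where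
  symm : ∀ x y z, cr x y z → cr y x z
  xsymm : ∀ x y z w, xx x y z w → xx z w x y
  loc : ∀ x y z w, x ≠ y → z ≠ w → x < z → x < w → y < z → y < w → ¬ cr x y z → ¬ cr x y w → ¬ cr z w x → ¬ cr z w y →
    ¬ xx x y z w
  deti : ∀ g g', g < g' → RF cr g g' → ∀ z ∈ Io g g', ∀ x y, (x < g ∨ g' < x) → (y < g ∨ g' < y) → cr x y z →
    cr x y g ∨ cr x y g'
  deto : ∀ g g', g < g' → RF cr g g' → ∀ z, (z < g ∨ g' < z) → ∀ x ∈ Io g g', ∀ y ∈ Io g g', cr x y z →
    cr x y g ∨ cr x y g'
  gm : ∀ I B X : Finset α, (∀ z ∈ B, Out I z) → B.card ≤ R → X ⊆ I → Cov cr K X →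
    ∃ X' ⊆ X, Cov cr K' X' ∧ (B = ∅ → X'.card ≤ K) ∧ ∃ M, Mat cr xx I B M ∧ X.card ≤ X'.card + F * M.card

/-- The hub sequence of the face behind the chord `uv`. -/
structure Face (cr : α → α → α → Prop) (u v : α) (m : ℕ) (h : ℕ → α) : Prop where
  m2 : 2 ≤ m
  h0 : h 0 = u
  hm : h m = v
  mono : ∀ i j, i < j → j ≤ m → h i < h j
  rf : ∀ j < m, RF cr (h j) (h (j + 1)) ∨ Io (h j) (h (j + 1)) = ∅
  loopL : ∀ i j k s t, i < j → j < k → k < s → s < t → t ≤ m → ∀ x ∈ Io (h s) (h t), ∀ y ∈ Io (h s) (h t),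
    ¬ cr x y (h s) → ¬ cr x y (h t) → cr x y (h i) → cr x y (h k) → cr x y (h j)
  loopR : ∀ i j k s t, s < t → t < i → i < j → j < k → k ≤ m → ∀ x ∈ Io (h s) (h t), ∀ y ∈ Io (h s) (h t),
    ¬ cr x y (h s) → ¬ cr x y (h t) → cr x y (h i) → cr x y (h k) → cr x y (h j)

/-- Every nonempty window has a face. -/
def Faces (cr : α → α → α → Prop) : Prop :=
  ∀ u v : α, u < v → RF cr u v → (Io u v).Nonempty → ∃ (m : ℕ) (h : ℕ → α), Face cr u v m h

/-- The points of the dyadic subdivision. -/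
def pp (h : ℕ → α) (s j : ℕ) : α := h (min j s)

/-- The dyadic group of level `b` and index `t`. -/
def JJ (p : ℕ → α) (b t : ℕ) : Finset α := Io (p (t * 2 ^ b)) (p ((t + 1) * 2 ^ b))

/-- The special boundary (in units of the level) for the bit `q` of the index `t`. -/
def bq (t q : ℕ) : ℕ := if t.testBit q then (t / 2 ^ q - 1) * 2 ^ q else (t / 2 ^ q + 2) * 2 ^ q

/-- The special rays of a dyadic group. -/
def BF (p : ℕ → α) (u v g g' : α) (β b t : ℕ) : Finset α :=
  {p (t * 2 ^ b), p ((t + 1) * 2 ^ b), u, v, g, g'} ∪ (range (β + 1)).image (fun q => p (bq t q * 2 ^ b))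

/-- The statement which is proved by induction: windows with less than `2 ^ δ` vertices. -/
def St (cr : α → α → α → Prop) (xx : α → α → α → α → Prop) (K' c δ : ℕ) : Prop :=
  ∀ u v : α, u < v → RF cr u v → (Io u v).card < 2 ^ δ →
    ∃ X ⊆ Io u v, Cov cr K' X ∧ (Io u v \ X).card ≤ c * lam cr xx u v

end H38P
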