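import Pool.Agent.Lib.H38P.Base
import Pool.Agent.Lib.H38P.Cert

/-! # H38P, file Four: twelve products instead of sixteen -/

set_option autoImplicit false

namespace H38P

/-- the code of eight bits -/
def cod (p0 p1 p2 p3 q0 q1 q2 q3 : Bool) : ℕ := p0.toNat + 2 * p1.toNat + 4 * p2.toNat + 8 * p3.toNat +
  16 * q0.toNat + 32 * q1.toNat + 64 * q2.toNat + 128 * q3.toNat

/-- the monomial with the index set `S` (bits of `S`) -/
def mo (S : ℕ) (p0 p1 p2 p3 : Bool) : Bool :=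
  (!S.testBit 0 || p0) && (!S.testBit 1 || p1) && (!S.testBit 2 || p2) && (!S.testBit 3 || p3)

/-- the linear form with the index set `S` -/
def lc (S : ℕ) (p0 p1 p2 p3 : Bool) : Bool :=
  xor (xor (xor (S.testBit 0 && p0) (S.testBit 1 && p1)) (S.testBit 2 && p2)) (S.testBit 3 && p3)

/-- the linear forms in the first four bits -/
def fa : Fin 12 → ℕ := ![1, 2, 4, 5, 6, 7, 8, 9, 11, 13, 14, 15]

/-- the linear forms in the last four bits -/
def fb : Fin 12 → ℕ := ![15, 6, 11, 12, 5, 7, 6, 14, 8, 9, 3, 1]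

theorem four {Ω : Type} {V : Set (Ω → Bool)} (hV : Ok V) {a b : Ω → Fin 4 → Bool} (ha : Kn V a) (hb : Kn V b)
    (h : ∀ k : Fin 12, (fun z => lc (fa k) (a z 0) (a z 1) (a z 2) (a z 3) &&
      lc (fb k) (b z 0) (b z 1) (b z 2) (b z 3)) ∈ V) (i j : Fin 4) : (fun z => a z i && b z j) ∈ V := by
  obtain ⟨cd, hcd⟩ : ∃ cd : Ω → ℕ, ∀ z, cd z = cod (a z 0) (a z 1) (a z 2) (a z 3) (b z 0) (b z 1) (b z 2) (b z 3) :=
    ⟨_, fun _ => rfl⟩
  have kx : ∀ {m n : ℕ}, (fun z => m.testBit (cd z)) ∈ V → (fun z => n.testBit (cd z)) ∈ V →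
      (fun z => (m ^^^ n).testBit (cd z)) ∈ V := by
    intro m n hm hn
    have := hV.add _ _ hm hn
    simpa [Nat.testBit_xor] using this
  have kt : ∀ {p q r : ℕ}, (fun z => p.testBit (cd z)) ∈ V → (fun z => q.testBit (cd z)) ∈ V →
      (fun z => r.testBit (cd z)) ∈ V → (fun z => (p &&& q).testBit (cd z)) ∈ V →
      (fun z => (p &&& r).testBit (cd z)) ∈ V → (fun z => (q &&& r).testBit (cd z)) ∈ V →
      (fun z => (p &&& q &&& r).testBit (cd z)) ∈ V := by
    intro p q r h1 h2 h3 h4 h5 h6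
    simp only [Nat.testBit_and] at h4 h5 h6
    have := hV.tri _ _ _ h1 h2 h3 h4 h5 h6
    simpa only [Nat.testBit_and] using this
  have ka : ∀ m S : ℕ, (∀ p0 p1 p2 p3 q0 q1 q2 q3 : Bool, m.testBit (cod p0 p1 p2 p3 q0 q1 q2 q3) = mo S p0 p1 p2 p3) →
      (fun z => m.testBit (cd z)) ∈ V := by
    intro m S hm
    have h1 := ha fun p => mo S (p 0) (p 1) (p 2) (p 3)
    have h2 : (fun z => m.testBit (cd z)) = fun z => mo S (a z 0) (a z 1) (a z 2) (a z 3) := by
      funext z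
      rw [hcd, hm]
    rw [h2]
    exact h1
  have kb : ∀ m S : ℕ, (∀ p0 p1 p2 p3 q0 q1 q2 q3 : Bool, m.testBit (cod p0 p1 p2 p3 q0 q1 q2 q3) = mo S q0 q1 q2 q3) →
      (fun z => m.testBit (cd z)) ∈ V := by
    intro m S hm
    have h1 := hb fun p => mo S (p 0) (p 1) (p 2) (p 3)
    have h2 : (fun z => m.testBit (cd z)) = fun z => mo S (b z 0) (b z 1) (b z 2) (b z 3) := by
      funext z
      rw [hcd, hm]
    rw [h2]
    exact h1
  have kp : ∀ (m : ℕ) (k : Fin 12), (∀ p0 p1 p2 p3 q0 q1 q2 q3 : Bool, m.testBit (cod p0 p1 p2 p3 q0 q1 q2 q3) =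
      (lc (fa k) p0 p1 p2 p3 && lc (fb k) q0 q1 q2 q3)) → (fun z => m.testBit (cd z)) ∈ V := by
    intro m k hm
    have h2 : (fun z => m.testBit (cd z)) = fun z => lc (fa k) (a z 0) (a z 1) (a z 2) (a z 3) &&
        lc (fb k) (b z 0) (b z 1) (b z 2) (b z 3) := by
      funext z
      rw [hcd, hm]
    rw [h2]
    exact h k
  have key := gadget (K := fun m => (fun z => m.testBit (cd z)) ∈ V) kx kt
    (ka _ 1 (by decide +kernel)) (ka _ 2 (by decide +kernel)) (ka _ 3 (by decide +kernel)) (ka _ 4 (by decide +kernel))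
    (ka _ 5 (by decide +kernel)) (ka _ 6 (by decide +kernel)) (ka _ 7 (by decide +kernel)) (ka _ 8 (by decide +kernel))
    (ka _ 9 (by decide +kernel)) (ka _ 10 (by decide +kernel)) (ka _ 11 (by decide +kernel)) (ka _ 12 (by decide +kernel))
    (ka _ 13 (by decide +kernel)) (ka _ 14 (by decide +kernel)) (kb _ 1 (by decide +kernel)) (kb _ 2 (by decide +kernel))
    (kb _ 3 (by decide +kernel)) (kb _ 4 (by decide +kernel)) (kb _ 5 (by decide +kernel)) (kb _ 6 (by decide +kernel))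
    (kb _ 7 (by decide +kernel)) (kb _ 8 (by decide +kernel)) (kb _ 9 (by decide +kernel)) (kb _ 10 (by decide +kernel))
    (kb _ 11 (by decide +kernel)) (kb _ 12 (by decide +kernel)) (kb _ 13 (by decide +kernel)) (kb _ 14 (by decide +kernel))
    (kp _ 0 (by decide +kernel)) (kp _ 1 (by decide +kernel)) (kp _ 2 (by decide +kernel)) (kp _ 3 (by decide +kernel))
    (kp _ 4 (by decide +kernel)) (kp _ 5 (by decide +kernel)) (kp _ 6 (by decide +kernel)) (kp _ 7 (by decide +kernel))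
    (kp _ 8 (by decide +kernel)) (kp _ 9 (by decide +kernel)) (kp _ 10 (by decide +kernel)) (kp _ 11 (by decide +kernel))
  have h1 : ∀ i : Fin 4, ∀ p0 p1 p2 p3 q0 q1 q2 q3 : Bool, (va i).testBit (cod p0 p1 p2 p3 q0 q1 q2 q3) =
      (![p0, p1, p2, p3] : Fin 4 → Bool) i := by
    decide +kernel
  have h2 : ∀ i : Fin 4, ∀ p0 p1 p2 p3 q0 q1 q2 q3 : Bool, (vb i).testBit (cod p0 p1 p2 p3 q0 q1 q2 q3) =
      (![q0, q1, q2, q3] : Fin 4 → Bool) i := by
    decide +kernel
  have h3 := key i j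
  have h4 : (fun z => (va i &&& vb j).testBit (cd z)) = fun z => a z i && b z j := by
    funext z
    rw [Nat.testBit_and, hcd, h1, h2]
    congr 1
    · fin_cases i <;> rfl
    · fin_cases j <;> rfl
  simp only [h4] at h3
  exact h3

end H38P
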