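import Pool.Agent.Lib.H38P.Ring

/-! # H38P, file Grid: words indexed by a grid; the products are generated in the order of the distance -/

set_option autoImplicit false

namespace H38P

/-- the grid `{0, …, C - 1} ^ n` -/
abbrev Gr (n C : ℕ) : Type := Fin n → Fin C

/-- the squared distance -/
def dst {n C : ℕ} (i j : Gr n C) : ℤ := ∑ a, ((i a : ℤ) - (j a : ℤ)) ^ 2

theorem dst_nonneg {n C : ℕ} (i j : Gr n C) : 0 ≤ dst i j := Finset.sum_nonneg fun _ _ => sq_nonneg _

theorem dst_pos {n C : ℕ} {i j : Gr n C} (h : i ≠ j) : 0 < dst i j := by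
  obtain ⟨a, ha⟩ := Function.ne_iff.1 h
  refine Finset.sum_pos' (fun _ _ => sq_nonneg _) ⟨a, Finset.mem_univ a, ?_⟩
  have h1 : (i a : ℤ) - (j a : ℤ) ≠ 0 := by
    intro h2
    apply ha
    apply Fin.ext
    omega
  positivity

theorem dst_le {n C : ℕ} (i j : Gr n C) : dst i j ≤ ((n * C ^ 2 : ℕ) : ℤ) := by
  have h1 : dst i j ≤ ∑ _a : Fin n, ((C : ℤ)) ^ 2 := by
    refine Finset.sum_le_sum fun a _ => ?_
    have h2 := (i a).2
    have h3 := (j a).2
    apply sq_le_sq'
    · omega
    · omega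
  rw [Finset.sum_const, Finset.card_univ, Fintype.card_fin, nsmul_eq_mul] at h1
  push_cast
  exact h1

theorem dst_lt {n C : ℕ} {i j i' j' : Gr n C} (hs : ∀ a, (i a : ℕ) + j a = (i' a : ℕ) + j' a)
    (hr : dst i' j' = dst i j) (hne : i ≠ i') : dst i j' < dst i j := by
  have h1 : 2 * dst i j' + 2 * dst i i' = dst i j + dst i' j' := by
    simp only [dst]
    rw [Finset.mul_sum, Finset.mul_sum, ← Finset.sum_add_distrib, ← Finset.sum_add_distrib]
    refine Finset.sum_congr rfl fun a _ => ?_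
    have h2 : (j a : ℤ) = (i' a : ℤ) + (j' a : ℤ) - (i a : ℤ) := by
      have := hs a
      omega
    rw [h2]
    ring
  have h2 := dst_pos hne
  rw [hr] at h1
  omega

/-- the pairs with sum `σ` and squared distance `r` -/
abbrev Mt (n C : ℕ) (σ : Fin n → ℕ) (r : ℤ) : Type :=
  {m : Gr n C × Gr n C // (∀ a, (m.1 a : ℕ) + (m.2 a : ℕ) = σ a) ∧ dst m.1 m.2 = r}

open Classical in
/-- those of them whose first point has the coordinate number `a` equal to `c` -/
noncomputable def Bs {n C : ℕ} (σ : Fin n → ℕ) (r : ℤ) (a : Fin n) (c : Fin C) : Finset (Mt n C σ r) :=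
  Finset.univ.filter fun m => m.1.1 a = c

theorem mem_Bs {n C : ℕ} {σ : Fin n → ℕ} {r : ℤ} {a : Fin n} {c : Fin C} {m : Mt n C σ r} :
    m ∈ Bs σ r a c ↔ m.1.1 a = c := by
  simp [Bs]

/-- the generators: sums of products -/
noncomputable def gg {n C : ℕ} (σ : Fin n → ℕ) (r : ℤ) (a : Fin n) (c : Fin C) (p q : Gr n C → Bool) : Bool :=
  ∑ m ∈ Bs σ r a c, p m.1.1 * q m.1.2

theorem grid {n C : ℕ} (hn : 0 < n) {Ω : Type} {V : Set (Ω → Bool)} (hV : Ok V) {x y : Ω → Gr n C → Bool}
    (hx : Kn V x) (hy : Kn V y)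
    (h : ∀ (σ : Fin n → Fin (2 * C)) (r : Fin (n * C ^ 2 + 1)) (a : Fin n) (c : Fin C),
      (fun z => gg (fun b => (σ b : ℕ)) ((r : ℕ) : ℤ) a c (x z) (y z)) ∈ V) :
    ∀ (r : ℕ) (i j : Gr n C), dst i j = (r : ℤ) → (fun z => x z i && y z j) ∈ V := by
  classical
  intro r
  induction r using Nat.strong_induction_on with
  | _ r ih =>
  intro i j hr
  obtain ⟨σ, hσ⟩ : ∃ σ : Fin n → Fin (2 * C), ∀ a, (σ a : ℕ) = (i a : ℕ) + j a :=
    ⟨fun a => ⟨(i a : ℕ) + j a, by have := (i a).2; have := (j a).2; omega⟩, fun _ => rfl⟩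
  have hr' : r < n * C ^ 2 + 1 := by
    have h1 := dst_le i j
    rw [hr] at h1
    have h2 : r ≤ n * C ^ 2 := by exact_mod_cast h1
    omega
  obtain ⟨m0, hm0⟩ : ∃ m0 : Mt n C (fun b => (σ b : ℕ)) (r : ℤ), m0.1 = (i, j) :=
    ⟨⟨(i, j), fun a => (hσ a).symm, hr⟩, rfl⟩
  have key := ring_single hV hx hy (fun (m : Mt n C (fun b => (σ b : ℕ)) (r : ℤ)) (p : Gr n C → Bool) => p m.1.1)
    (fun (m : Mt n C (fun b => (σ b : ℕ)) (r : ℤ)) (p : Gr n C → Bool) => p m.1.2) ?_
    (fun a : Fin n => Bs (fun b => (σ b : ℕ)) (r : ℤ) a (i a)) ?_ ⟨0, hn⟩ m0 ?_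
  · simp only [hm0] at key
    exact key
  · intro m l hml
    have hne : m.1.1 ≠ l.1.1 := by
      intro h1
      apply hml
      apply Subtype.ext
      apply Prod.ext h1
      funext a
      apply Fin.ext
      have h2 := m.2.1 a
      have h3 := l.2.1 a
      rw [h1] at h2
      omega
    have hlt : dst m.1.1 l.1.2 < dst m.1.1 m.1.2 :=
      dst_lt (fun a => (m.2.1 a).trans (l.2.1 a).symm) (l.2.2.trans m.2.2.symm) hne
    obtain ⟨s, hs⟩ := Int.eq_ofNat_of_zero_le (dst_nonneg m.1.1 l.1.2)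
    rw [m.2.2, hs] at hlt
    exact ih s (by exact_mod_cast hlt) _ _ hs
  · intro a
    exact h σ ⟨r, hr'⟩ a (i a)
  · intro l
    constructor
    · intro hl
      have h1 : l.1.1 = i := funext fun a => mem_Bs.1 (hl a)
      have h2 : l.1.2 = j := by
        funext a
        apply Fin.ext
        have h3 : (l.1.1 a : ℕ) + (l.1.2 a : ℕ) = (σ a : ℕ) := l.2.1 a
        have h4 := hσ a
        rw [h1] at h3
        omega
      apply Subtype.ext
      rw [hm0]
      exact Prod.ext h1 h2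
    · rintro rfl a
      apply mem_Bs.2
      rw [hm0]

theorem kn_pair {Ω : Type} {V : Set (Ω → Bool)} (hV : Ok V) {f g : Ω → Bool} (hf : f ∈ V) (hg : g ∈ V)
    (hfg : (fun z => f z && g z) ∈ V) : Kn V fun z => (f z, g z) := by
  intro F
  have hc : ∀ c : Bool, ∀ f : Ω → Bool, f ∈ V → (fun z => c && f z) ∈ V := by
    intro c f hf
    cases c
    · simpa using ok_zero hV
    · simpa using hf
  have h2 := hV.add _ _ (hV.add _ _ (hc (F (false, false)) _ hV.one) (hc (xor (F (true, false)) (F (false, false))) _ hf))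
    (hV.add _ _ (hc (xor (F (false, true)) (F (false, false))) _ hg)
      (hc (xor (xor (F (true, true)) (F (false, true))) (xor (F (true, false)) (F (false, false)))) _ hfg))
  have h3 : (fun z => F (f z, g z)) = fun z => xor (xor (F (false, false) && true)
      (xor (F (true, false)) (F (false, false)) && f z)) (xor (xor (F (false, true)) (F (false, false)) && g z)
      (xor (xor (F (true, true)) (F (false, true))) (xor (F (true, false)) (F (false, false))) && (f z && g z))) := by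
    funext z
    cases f z <;> cases g z <;> cases F (false, false) <;> cases F (false, true) <;> cases F (true, false) <;>
      cases F (true, true) <;> rfl
  rw [h3]
  exact h2

/-- The functions `g i (x) (y)`, `i ∈ I`, suffice to generate all functions of two letters of the alphabet `X` from the
functions of each. -/
def Cross2 (X I : Type) : Prop :=
  ∃ g : I → X → X → Bool, ∀ (Ω : Type) (V : Set (Ω → Bool)), Ok V → ∀ x y : Ω → X, Kn V x → Kn V y →
    (∀ i, (fun z => g i (x z) (y z)) ∈ V) → Kn V fun z => (x z, y z)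

theorem cross_grid {n C : ℕ} (hn : 0 < n) :
    Cross2 (Gr n C → Bool) ((Fin n → Fin (2 * C)) × Fin (n * C ^ 2 + 1) × Fin n × Fin C) := by
  refine ⟨fun k p q => gg (fun b => (k.1 b : ℕ)) ((k.2.1 : ℕ) : ℤ) k.2.2.1 k.2.2.2 p q, fun Ω V hV x y hx hy h => ?_⟩
  have h1 := grid hn hV hx hy fun σ r a c => h (σ, r, a, c)
  refine join hV hx hy fun i j => kn_pair hV (hx fun p => p i) (hy fun p => p j) ?_
  obtain ⟨s, hs⟩ := Int.eq_ofNat_of_zero_le (dst_nonneg i j)
  exact h1 s i j hs

end H38P
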