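import Pool.Agent.Lib.H38P.Grid
import Pool.Agent.Lib.H87G.H3

/-! # H38P, file Grow: the recursion for the number of generators and its growth -/

set_option autoImplicit false

namespace H38P

open Pool.H87G

/-- The functions `g i (x)`, `i ∈ I`, generate all functions of a letter `x` of the alphabet `X`. -/
def Gen2 (X I : Type) : Prop :=
  ∃ g : I → X → Bool, ∀ (Ω : Type) (V : Set (Ω → Bool)), Ok V → ∀ x : Ω → X, (∀ i, (fun z => g i (x z)) ∈ V) → Kn V x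

theorem cross2_emb {X Y I : Type} (h : Cross2 X I) (e : Y → X) (he : Function.Injective e) : Cross2 Y I := by
  obtain ⟨g, hg⟩ := h
  refine ⟨fun i p q => g i (e p) (e q), fun Ω V hV x y hx hy h => ?_⟩
  have h1 := hg Ω V hV (fun z => e (x z)) (fun z => e (y z)) (knc hx e) (knc hy e) h
  exact kni (e := Prod.map e e) (he.prodMap he) h1

theorem gen2_bool : Gen2 Bool (Fin 1) := by
  refine ⟨fun _ b => b, fun Ω V hV x h F => ?_⟩
  have h1 := h 0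
  have hc : ∀ c : Bool, ∀ f : Ω → Bool, f ∈ V → (fun z => c && f z) ∈ V := by
    intro c f hf
    cases c
    · simpa using ok_zero hV
    · simpa using hf
  have h2 := hV.add _ _ (hc (F false) _ hV.one) (hc (xor (F true) (F false)) _ h1)
  have h3 : (fun z => F (x z)) = fun z => xor (F false && true) (xor (F true) (F false) && x z) := by
    funext z
    cases x z <;> cases F false <;> cases F true <;> rfl
  rw [h3]
  exact h2

theorem gen2_sq {X I J : Type} (h : Gen2 X I) (hc : Cross2 X J) : Gen2 (X × X) ((I ⊕ I) ⊕ J) := by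
  obtain ⟨g, hg⟩ := h
  obtain ⟨c, hc⟩ := hc
  refine ⟨fun s => s.elim (fun s => s.elim (fun i p => g i p.1) (fun i p => g i p.2))
    (fun j p => c j p.1 p.2), fun Ω V hV x h => ?_⟩
  have h1 : Kn V fun z => (x z).1 := hg Ω V hV _ fun i => h (Sum.inl (Sum.inl i))
  have h2 : Kn V fun z => (x z).2 := hg Ω V hV _ fun i => h (Sum.inl (Sum.inr i))
  exact hc Ω V hV _ _ h1 h2 fun j => h (Sum.inr j)

theorem gen2_emb {X Y I : Type} (h : Gen2 X I) (e : Y → X) (he : Function.Injective e) : Gen2 Y I := by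
  obtain ⟨g, hg⟩ := h
  exact ⟨fun i y => g i (e y), fun Ω V hV x h => kni he (hg Ω V hV (fun z => e (x z)) h)⟩

/-- size version of `Cross2` -/
def CrossN2 (N c : ℕ) : Prop := ∃ (I : Type) (_ : Fintype I), Fintype.card I = c ∧ Cross2 (Fin N) I

/-- size version of `Gen2` -/
def GenN2 (N m : ℕ) : Prop := ∃ (I : Type) (_ : Fintype I), Fintype.card I = m ∧ Gen2 (Fin N) I

theorem inj_of_le' {X Y : Type} [Fintype X] [Fintype Y] (h : Fintype.card Y ≤ Fintype.card X) :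
    ∃ e : Y → X, Function.Injective e := by
  obtain ⟨e⟩ := Function.Embedding.nonempty_of_card_le h
  exact ⟨e, e.injective⟩

theorem crossN2_grid {n C M : ℕ} (hn : 0 < n) (hM : M ≤ 2 ^ C ^ n) :
    CrossN2 M ((2 * C) ^ n * ((n * C ^ 2 + 1) * (n * C))) := by
  obtain ⟨e, he⟩ := inj_of_le' (X := Gr n C → Bool) (Y := Fin M) (by simpa using hM)
  exact ⟨_, inferInstance, by simp, cross2_emb (cross_grid hn) e he⟩

theorem genN2_two : GenN2 2 1 := by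
  obtain ⟨e, he⟩ := inj_of_le' (X := Bool) (Y := Fin 2) (by simp)
  exact ⟨Fin 1, inferInstance, by simp, gen2_emb gen2_bool e he⟩

theorem genN2_le {N M m : ℕ} (h : GenN2 N m) (hM : M ≤ N) : GenN2 M m := by
  obtain ⟨I, hI, hc, h⟩ := h
  exact ⟨I, hI, hc, gen2_emb h (Fin.castLE hM) (Fin.castLE_injective hM)⟩

theorem genN2_sq {N M m c : ℕ} (h : GenN2 N m) (h' : CrossN2 N c) (hM : M ≤ N * N) : GenN2 M (2 * m + c) := by
  obtain ⟨I, hI, hc, h⟩ := h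
  obtain ⟨J, hJ, hc', h'⟩ := h'
  obtain ⟨e, he⟩ := inj_of_le' (X := Fin N × Fin N) (Y := Fin M) (by simpa using hM)
  refine ⟨(I ⊕ I) ⊕ J, inferInstance, ?_, gen2_emb (gen2_sq h h') e he⟩
  simp only [Fintype.card_sum, hc, hc']
  ring

/-- the number of products for two words of `2 ^ i` bits, with the grid `(2 ^ k) ^ (i / k + 1)` -/
def cr (k i : ℕ) : ℕ := (2 * 2 ^ k) ^ (i / k + 1) * (((i / k + 1) * (2 ^ k) ^ 2 + 1) * ((i / k + 1) * 2 ^ k))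

/-- the number of generators for `2 ^ i` bits -/
def T2 (k : ℕ) : ℕ → ℕ
  | 0 => 1
  | i + 1 => 2 * T2 k i + cr k i

theorem genN2_T {k : ℕ} (hk : 0 < k) (i : ℕ) : GenN2 (2 ^ 2 ^ i) (T2 k i) := by
  induction i with
  | zero => simpa [T2] using genN2_two
  | succ i ih =>
    have h : CrossN2 (2 ^ 2 ^ i) (cr k i) := by
      refine crossN2_grid (Nat.succ_pos _) (Nat.pow_le_pow_right (by norm_num) ?_)
      rw [← pow_mul]
      exact Nat.pow_le_pow_right (by norm_num) (Nat.lt_mul_div_succ i hk).le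
    exact genN2_sq ih h (le_of_eq (by rw [← pow_add, pow_succ]; congr 1; ring))

theorem d_le' {n m : ℕ} (h : GenN2 n m) : d Alg n ≤ m := by
  classical
  obtain ⟨I, hI, hc, g, hg⟩ := h
  have h1 : Generates Alg ((Finset.univ.image g : Finset (Fin n → Bool)) : Set (Fin n → Bool)) := by
    intro S hS hX
    apply Set.eq_univ_of_forall
    intro f
    exact hg (Fin n) S (ok_of hS) id (fun i => hX (by simp)) f
  calc d Alg n ≤ (Finset.univ.image g).card := Nat.sInf_le ⟨_, rfl, h1⟩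
    _ ≤ Fintype.card I := Finset.card_image_le
    _ = m := hc

theorem sq_bound {ρ : ℝ} (h0 : 0 < ρ) (h1 : ρ < 1) : ∃ K : ℝ, ∀ i : ℕ, ((i : ℝ) + 1) ^ 2 * ρ ^ i ≤ K := by
  have h2 := tendsto_pow_const_mul_const_pow_of_abs_lt_one 2 (r := ρ) (by rw [abs_of_pos h0]; exact h1)
  obtain ⟨K, hK⟩ := h2.bddAbove_range
  refine ⟨K / ρ, fun i => ?_⟩
  have h3 : (((i + 1 : ℕ) : ℝ)) ^ 2 * ρ ^ (i + 1) ≤ K := hK ⟨i + 1, rfl⟩
  rw [le_div_iff₀ h0]
  push_cast at h3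
  calc ((i : ℝ) + 1) ^ 2 * ρ ^ i * ρ = ((i : ℝ) + 1) ^ 2 * ρ ^ (i + 1) := by ring
    _ ≤ K := h3

theorem cr_bound {k : ℕ} (hk : 0 < k) {β : ℝ} (hβ : (2 : ℝ) ^ (((k : ℝ) + 1) / k) < β) :
    ∃ K : ℝ, 0 ≤ K ∧ ∀ i : ℕ, (cr k i : ℝ) ≤ K * β ^ i := by
  obtain ⟨γ, hγ⟩ : ∃ γ : ℝ, γ = (2 : ℝ) ^ (((k : ℝ) + 1) / k) := ⟨_, rfl⟩
  rw [← hγ] at hβ
  have hγ0 : 0 < γ := by rw [hγ]; positivity
  have hβ0 : 0 < β := hγ0.trans hβ
  have hk0 : (0 : ℝ) < k := by exact_mod_cast hk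
  obtain ⟨K, hK⟩ := sq_bound (div_pos hγ0 hβ0) ((div_lt_one hβ0).2 hβ)
  have hK0 : 0 ≤ K := le_trans (by positivity) (hK 0)
  obtain ⟨D, hD⟩ : ∃ D : ℝ, D = 2 ^ (k + 1) * ((4 ^ k + 1) * 2 ^ k) := ⟨_, rfl⟩
  have hD0 : 0 < D := by rw [hD]; positivity
  refine ⟨D * K, by positivity, fun i => ?_⟩
  obtain ⟨m, hm⟩ : ∃ m, m = i / k := ⟨_, rfl⟩
  have hmi : m ≤ i := by rw [hm]; exact Nat.div_le_self i k
  have hmk : (m : ℝ) ≤ (i : ℝ) / k := by rw [hm]; exact Nat.cast_div_le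
  have h1 : ((2 : ℝ) * 2 ^ k) ^ m ≤ γ ^ i := by
    rw [← pow_succ', ← pow_mul, hγ, ← Real.rpow_natCast, ← Real.rpow_natCast, ← Real.rpow_mul (by norm_num)]
    apply Real.rpow_le_rpow_of_exponent_le (by norm_num)
    push_cast
    calc ((k : ℝ) + 1) * m ≤ ((k : ℝ) + 1) * ((i : ℝ) / k) := mul_le_mul_of_nonneg_left hmk (by positivity)
      _ = ((k : ℝ) + 1) / k * i := by ring
  have hmi' : (m : ℝ) + 1 ≤ (i : ℝ) + 1 := by
    have : (m : ℝ) ≤ i := by exact_mod_cast hmi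
    linarith
  have h2 : (cr k i : ℝ) = (2 * 2 ^ k) ^ m * 2 ^ (k + 1) * ((((m : ℝ) + 1) * 4 ^ k + 1) * (((m : ℝ) + 1) * 2 ^ k)) := by
    rw [cr, ← hm]
    push_cast
    have h4 : ((2 : ℝ) ^ k) ^ 2 = 4 ^ k := by
      rw [← pow_mul, mul_comm, pow_mul]
      norm_num
    rw [h4]
    ring
  have h3 : (((m : ℝ) + 1) * 4 ^ k + 1) * (((m : ℝ) + 1) * 2 ^ k) ≤ ((4 ^ k + 1) * 2 ^ k) * ((i : ℝ) + 1) ^ 2 := by
    have h5 : ((m : ℝ) + 1) * 4 ^ k + 1 ≤ ((i : ℝ) + 1) * (4 ^ k + 1) := by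
      have h6 : (0 : ℝ) < 4 ^ k := by positivity
      have h7 : ((m : ℝ) + 1) * 4 ^ k ≤ ((i : ℝ) + 1) * 4 ^ k := mul_le_mul_of_nonneg_right hmi' h6.le
      have h8 : (0 : ℝ) ≤ i := Nat.cast_nonneg i
      linarith
    have h6 : ((m : ℝ) + 1) * 2 ^ k ≤ ((i : ℝ) + 1) * 2 ^ k := mul_le_mul_of_nonneg_right hmi' (by positivity)
    calc (((m : ℝ) + 1) * 4 ^ k + 1) * (((m : ℝ) + 1) * 2 ^ k)
        ≤ (((i : ℝ) + 1) * (4 ^ k + 1)) * (((i : ℝ) + 1) * 2 ^ k) :=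
          mul_le_mul h5 h6 (by positivity) (by positivity)
      _ = ((4 ^ k + 1) * 2 ^ k) * ((i : ℝ) + 1) ^ 2 := by ring
  have h4 : ((i : ℝ) + 1) ^ 2 * γ ^ i ≤ K * β ^ i := by
    have h5 := hK i
    have h6 : 0 < β ^ i := by positivity
    rw [div_pow, ← mul_div_assoc, div_le_iff₀ h6] at h5
    exact h5
  rw [h2]
  calc (2 * 2 ^ k) ^ m * 2 ^ (k + 1) * ((((m : ℝ) + 1) * 4 ^ k + 1) * (((m : ℝ) + 1) * 2 ^ k))
      ≤ γ ^ i * 2 ^ (k + 1) * (((4 ^ k + 1) * 2 ^ k) * ((i : ℝ) + 1) ^ 2) :=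
        mul_le_mul (mul_le_mul_of_nonneg_right h1 (by positivity)) h3 (by positivity) (by positivity)
    _ = D * (((i : ℝ) + 1) ^ 2 * γ ^ i) := by rw [hD]; ring
    _ ≤ D * (K * β ^ i) := mul_le_mul_of_nonneg_left h4 hD0.le
    _ = D * K * β ^ i := by ring

theorem T2_bound {k : ℕ} (hk : 0 < k) {β : ℝ} (h2 : 2 < β) (hβ : (2 : ℝ) ^ (((k : ℝ) + 1) / k) < β) :
    ∃ K : ℝ, 0 ≤ K ∧ ∀ i : ℕ, (T2 k i : ℝ) ≤ K * β ^ i := by
  obtain ⟨K, hK0, hK⟩ := cr_bound hk hβ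
  have hb : 0 < β - 2 := by linarith
  refine ⟨max 1 (K / (β - 2)), le_trans zero_le_one (le_max_left _ _), fun i => ?_⟩
  induction i with
  | zero => simp [T2]
  | succ i ih =>
    have h3 : K ≤ max 1 (K / (β - 2)) * (β - 2) := by
      rw [← div_le_iff₀ hb]
      exact le_max_right _ _
    have h4 : (T2 k (i + 1) : ℝ) = 2 * T2 k i + cr k i := by
      simp [T2]
    have h5 : (0 : ℝ) < β ^ i := by positivity
    rw [h4, pow_succ]
    have h6 := hK i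
    have h7 : K * β ^ i ≤ (max 1 (K / (β - 2)) * (β - 2)) * β ^ i := mul_le_mul_of_nonneg_right h3 h5.le
    calc 2 * (T2 k i : ℝ) + cr k i ≤ 2 * (max 1 (K / (β - 2)) * β ^ i) + (max 1 (K / (β - 2)) * (β - 2)) * β ^ i := by
          linarith
      _ = max 1 (K / (β - 2)) * (β ^ i * β) := by ring

theorem main2 (ε : ℝ) (hε : 0 < ε) :
    ∃ K : ℝ, ∀ n : ℕ, 2 ≤ n → (d Alg n : ℝ) ≤ K * Real.logb 2 n ^ (1 + ε) := by
  obtain ⟨k, hk⟩ := exists_nat_gt (1 / ε)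
  have hk0 : (0 : ℝ) < k := lt_trans (by positivity) hk
  have hk' : 0 < k := by exact_mod_cast hk0
  obtain ⟨β, hβ⟩ : ∃ β : ℝ, β = (2 : ℝ) ^ (1 + ε) := ⟨_, rfl⟩
  have h2 : 2 < β := by
    rw [hβ]
    calc (2 : ℝ) = (2 : ℝ) ^ (1 : ℝ) := (Real.rpow_one 2).symm
      _ < (2 : ℝ) ^ (1 + ε) := Real.rpow_lt_rpow_of_exponent_lt (by norm_num) (by linarith)
  have h1 : (2 : ℝ) ^ (((k : ℝ) + 1) / k) < β := by
    rw [hβ]
    apply Real.rpow_lt_rpow_of_exponent_lt (by norm_num)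
    rw [div_lt_iff₀ hε] at hk
    rw [div_lt_iff₀ hk0]
    linarith
  obtain ⟨K, hK0, hK⟩ := T2_bound hk' h2 h1
  refine ⟨K * (4 : ℝ) ^ (1 + ε), fun n hn => ?_⟩
  obtain ⟨i, hi⟩ : ∃ i, i = Nat.clog 2 (Nat.clog 2 n) := ⟨_, rfl⟩
  have h3 : n ≤ 2 ^ 2 ^ i := by
    calc n ≤ 2 ^ Nat.clog 2 n := Nat.le_pow_clog (by norm_num) n
      _ ≤ 2 ^ 2 ^ i := Nat.pow_le_pow_right (by norm_num) (by rw [hi]; exact Nat.le_pow_clog (by norm_num) _)
  have h4 : d Alg n ≤ T2 k i := d_le' (genN2_le (genN2_T hk' i) h3)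
  have hl : 1 ≤ Nat.log 2 n := Nat.log_pos (by norm_num) hn
  have hc : Nat.clog 2 n ≤ 2 * Nat.log 2 n := H3 n hn
  have hc1 : 1 ≤ Nat.clog 2 n := Nat.clog_pos (by norm_num) hn
  have h5 : 2 ^ i ≤ 2 * Nat.clog 2 n := by
    rcases Nat.lt_or_ge 1 (Nat.clog 2 n) with h | h
    · have h6 := Nat.pow_pred_clog_lt_self (b := 2) (by norm_num) h
      rw [← hi] at h6
      have h7 : 1 ≤ i := by
        rw [hi]
        exact Nat.clog_pos (by norm_num) h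
      have h8 : 2 ^ i = 2 * 2 ^ i.pred := by
        rw [← pow_succ', Nat.pred_eq_sub_one, Nat.sub_add_cancel h7]
      omega
    · have h6 : Nat.clog 2 n = 1 := by omega
      rw [hi, h6]
      simp
  have h6 : ((2 : ℝ) ^ i) ≤ 4 * Real.logb 2 n := by
    have h7 : ((2 ^ i : ℕ) : ℝ) ≤ ((4 * Nat.log 2 n : ℕ) : ℝ) := by
      exact_mod_cast (by omega : 2 ^ i ≤ 4 * Nat.log 2 n)
    have h8 : ((Nat.log 2 n : ℕ) : ℝ) ≤ Real.logb 2 n := Real.natLog_le_logb n 2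
    push_cast at h7
    linarith
  have hl0 : 0 ≤ Real.logb 2 n := Real.logb_nonneg (by norm_num) (by exact_mod_cast (by omega : 1 ≤ n))
  calc (d Alg n : ℝ) ≤ T2 k i := by exact_mod_cast h4
    _ ≤ K * β ^ i := hK i
    _ = K * ((2 : ℝ) ^ i) ^ (1 + ε) := by
      rw [hβ, ← Real.rpow_natCast, ← Real.rpow_natCast, ← Real.rpow_mul (by norm_num), ← Real.rpow_mul (by norm_num),
        mul_comm (1 + ε)]
    _ ≤ K * (4 * Real.logb 2 n) ^ (1 + ε) :=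
      mul_le_mul_of_nonneg_left (Real.rpow_le_rpow (by positivity) h6 (by linarith)) hK0
    _ = K * (4 : ℝ) ^ (1 + ε) * Real.logb 2 n ^ (1 + ε) := by
      rw [Real.mul_rpow (by norm_num) hl0, mul_assoc]

end H38P
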