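import Pool.Agent.Lib.H38P.Four
import Pool.Agent.Lib.H87G.H3

/-! # H38P, file Main: the recursions -/

set_option autoImplicit false

namespace H38P

open Pool.H87G

/-- `I` products suffice to generate all functions of two letters of the alphabet `X` from the functions of each. -/
def Cross (X I : Type) : Prop :=
  ∃ u v : I → X → Bool, ∀ (Ω : Type) (V : Set (Ω → Bool)), Ok V → ∀ x y : Ω → X, Kn V x → Kn V y →
    (∀ i, (fun z => u i (x z) && v i (y z)) ∈ V) → Kn V fun z => (x z, y z)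

/-- `I` functions suffice to generate all functions of a letter of the alphabet `X`. -/
def Gen (X I : Type) : Prop :=
  ∃ g : I → X → Bool, ∀ (Ω : Type) (V : Set (Ω → Bool)), Ok V → ∀ x : Ω → X, (∀ i, (fun z => g i (x z)) ∈ V) → Kn V x

theorem kn_comp {Ω X Y : Type} {V : Set (Ω → Bool)} {x : Ω → X} (h : Kn V x) (e : X → Y) : Kn V fun z => e (x z) :=
  fun F => h fun p => F (e p)

theorem kn_of_inj {Ω X Y : Type} {V : Set (Ω → Bool)} {x : Ω → X} {e : X → Y} (he : Function.Injective e)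
    (h : Kn V fun z => e (x z)) : Kn V x := by
  intro F
  have h1 := h (Function.extend e F fun _ => false)
  simpa only [he.extend_apply] using h1

theorem cross_bool : Cross Bool (Fin 1) := by
  refine ⟨fun _ b => b, fun _ b => b, fun Ω V hV x y hx hy h F => ?_⟩
  have h0 := ok_zero hV
  have h1 := hV.one
  have hx' := hx fun b => b
  have hy' := hy fun b => b
  have hxy := h 0
  have hc : ∀ c : Bool, ∀ f : Ω → Bool, f ∈ V → (fun z => c && f z) ∈ V := by
    intro c f hf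
    cases c
    · simpa using h0
    · simpa using hf
  have h2 := hV.add _ _ (hV.add _ _ (hc (F (false, false)) _ h1) (hc (xor (F (true, false)) (F (false, false))) _ hx'))
    (hV.add _ _ (hc (xor (F (false, true)) (F (false, false))) _ hy')
      (hc (xor (xor (F (true, true)) (F (false, true))) (xor (F (true, false)) (F (false, false)))) _ hxy))
  have h3 : (fun z => F (x z, y z)) = fun z => xor (xor (F (false, false) && true)
      (xor (F (true, false)) (F (false, false)) && x z)) (xor (xor (F (false, true)) (F (false, false)) && y z)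
      (xor (xor (F (true, true)) (F (false, true))) (xor (F (true, false)) (F (false, false))) && (x z && y z))) := by
    funext z
    cases x z <;> cases y z <;> cases F (false, false) <;> cases F (false, true) <;> cases F (true, false) <;>
      cases F (true, true) <;> rfl
  rw [h3]
  exact h2

theorem cross_four {X I : Type} [Finite X] (h : Cross X I) : Cross (Fin 4 → X) (Fin 12 × I) := by
  obtain ⟨u, v, huv⟩ := h
  refine ⟨fun p w => lc (fa p.1) (u p.2 (w 0)) (u p.2 (w 1)) (u p.2 (w 2)) (u p.2 (w 3)),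
    fun p w => lc (fb p.1) (v p.2 (w 0)) (v p.2 (w 1)) (v p.2 (w 2)) (v p.2 (w 3)),
    fun Ω V hV x y hx hy h => ?_⟩
  refine join hV hx hy fun i j => huv Ω V hV _ _ (kn_comp hx fun w => w i) (kn_comp hy fun w => w j) fun t => ?_
  have ha : Kn V fun z => (fun i => u t (x z i)) := kn_comp hx fun w i => u t (w i)
  have hb : Kn V fun z => (fun i => v t (y z i)) := kn_comp hy fun w i => v t (w i)
  exact four hV ha hb (fun k => h (k, t)) i j

theorem cross_emb {X Y I : Type} (h : Cross X I) (e : Y → X) (he : Function.Injective e) : Cross Y I := by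
  obtain ⟨u, v, huv⟩ := h
  refine ⟨fun i y => u i (e y), fun i y => v i (e y), fun Ω V hV x y hx hy h => ?_⟩
  have h1 := huv Ω V hV (fun z => e (x z)) (fun z => e (y z)) (kn_comp hx e) (kn_comp hy e) h
  exact kn_of_inj (e := Prod.map e e) (he.prodMap he) h1

theorem gen_bool : Gen Bool (Fin 1) := by
  refine ⟨fun _ b => b, fun Ω V hV x h F => ?_⟩
  have h1 := h 0
  have hc : ∀ c : Bool, ∀ f : Ω → Bool, f ∈ V → (fun z => c && f z) ∈ V := by
    intro c f hf
    cases c
    · simpa using ok_zero hV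
    · simpa using hf
  have h2 := hV.add _ _ (hc (F false) _ hV.one) (hc (xor (F true) (F false)) _ h1)
  have h3 : (fun z => F (x z)) = fun z => xor (F false && true) (xor (F true) (F false) && x z) := by
    funext z
    cases x z <;> cases F false <;> cases F true <;> rfl
  rw [h3]
  exact h2

theorem gen_sq {X I J : Type} (h : Gen X I) (hc : Cross X J) : Gen (X × X) ((I ⊕ I) ⊕ J) := by
  obtain ⟨g, hg⟩ := h
  obtain ⟨u, v, huv⟩ := hc
  refine ⟨fun s => s.elim (fun s => s.elim (fun i p => g i p.1) (fun i p => g i p.2))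
    (fun j p => u j p.1 && v j p.2), fun Ω V hV x h => ?_⟩
  have h1 : Kn V fun z => (x z).1 := hg Ω V hV _ fun i => h (Sum.inl (Sum.inl i))
  have h2 : Kn V fun z => (x z).2 := hg Ω V hV _ fun i => h (Sum.inl (Sum.inr i))
  exact huv Ω V hV _ _ h1 h2 fun j => h (Sum.inr j)

theorem gen_emb {X Y I : Type} (h : Gen X I) (e : Y → X) (he : Function.Injective e) : Gen Y I := by
  obtain ⟨g, hg⟩ := h
  exact ⟨fun i y => g i (e y), fun Ω V hV x h => kn_of_inj he (hg Ω V hV (fun z => e (x z)) h)⟩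

/-- size version of `Cross` -/
def CrossN (N c : ℕ) : Prop := ∃ (I : Type) (_ : Fintype I), Fintype.card I = c ∧ Cross (Fin N) I

/-- size version of `Gen` -/
def GenN (N m : ℕ) : Prop := ∃ (I : Type) (_ : Fintype I), Fintype.card I = m ∧ Gen (Fin N) I

theorem inj_of_le {X Y : Type} [Fintype X] [Fintype Y] (h : Fintype.card Y ≤ Fintype.card X) :
    ∃ e : Y → X, Function.Injective e := by
  obtain ⟨e⟩ := Function.Embedding.nonempty_of_card_le h
  exact ⟨e, e.injective⟩

theorem crossN_two : CrossN 2 1 := by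
  obtain ⟨e, he⟩ := inj_of_le (X := Bool) (Y := Fin 2) (by simp)
  exact ⟨Fin 1, inferInstance, by simp, cross_emb cross_bool e he⟩

theorem crossN_le {N M c : ℕ} (h : CrossN N c) (hM : M ≤ N) : CrossN M c := by
  obtain ⟨I, hI, hc, h⟩ := h
  exact ⟨I, hI, hc, cross_emb h (Fin.castLE hM) (Fin.castLE_injective hM)⟩

theorem crossN_four {N M c : ℕ} (h : CrossN N c) (hM : M ≤ N ^ 4) : CrossN M (12 * c) := by
  obtain ⟨I, hI, hc, h⟩ := h
  obtain ⟨e, he⟩ := inj_of_le (X := Fin 4 → Fin N) (Y := Fin M) (by simpa using hM)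
  exact ⟨Fin 12 × I, inferInstance, by simp [hc], cross_emb (cross_four h) e he⟩

theorem crossN_pow (j : ℕ) : CrossN (2 ^ 4 ^ j) (12 ^ j) := by
  induction j with
  | zero => simpa using crossN_two
  | succ j ih =>
    have h := crossN_four ih (M := 2 ^ 4 ^ (j + 1)) (le_of_eq (by rw [← pow_mul, pow_succ]))
    rw [pow_succ 12, mul_comm]
    exact h

theorem genN_two : GenN 2 1 := by
  obtain ⟨e, he⟩ := inj_of_le (X := Bool) (Y := Fin 2) (by simp)
  exact ⟨Fin 1, inferInstance, by simp, gen_emb gen_bool e he⟩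

theorem genN_le {N M m : ℕ} (h : GenN N m) (hM : M ≤ N) : GenN M m := by
  obtain ⟨I, hI, hc, h⟩ := h
  exact ⟨I, hI, hc, gen_emb h (Fin.castLE hM) (Fin.castLE_injective hM)⟩

theorem genN_sq {N M m c : ℕ} (h : GenN N m) (h' : CrossN N c) (hM : M ≤ N * N) : GenN M (2 * m + c) := by
  obtain ⟨I, hI, hc, h⟩ := h
  obtain ⟨J, hJ, hc', h'⟩ := h'
  obtain ⟨e, he⟩ := inj_of_le (X := Fin N × Fin N) (Y := Fin M) (by simpa using hM)
  refine ⟨(I ⊕ I) ⊕ J, inferInstance, ?_, gen_emb (gen_sq h h') e he⟩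
  simp only [Fintype.card_sum, hc, hc']
  ring

/-- the number of generators -/
def T : ℕ → ℕ
  | 0 => 1
  | i + 1 => 2 * T i + 12 ^ ((i + 1) / 2)

theorem genN_T (i : ℕ) : GenN (2 ^ 2 ^ i) (T i) := by
  induction i with
  | zero => simpa [T] using genN_two
  | succ i ih =>
    have h : CrossN (2 ^ 2 ^ i) (12 ^ ((i + 1) / 2)) := by
      refine crossN_le (crossN_pow ((i + 1) / 2)) (Nat.pow_le_pow_right (by norm_num) ?_)
      have h4 : (4 : ℕ) ^ ((i + 1) / 2) = 2 ^ (2 * ((i + 1) / 2)) := by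
        rw [pow_mul]
        norm_num
      rw [h4]
      exact Nat.pow_le_pow_right (by norm_num) (by omega)
    exact genN_sq ih h (le_of_eq (by rw [← pow_add, pow_succ]; congr 1; ring))

theorem d_le {n m : ℕ} (h : GenN n m) : d Alg n ≤ m := by
  classical
  obtain ⟨I, hI, hc, g, hg⟩ := h
  have h1 : Generates Alg ((Finset.univ.image g : Finset (Fin n → Bool)) : Set (Fin n → Bool)) := by
    intro S hS hX
    apply Set.eq_univ_of_forall
    intro f
    exact hg (Fin n) S (ok_of hS) id (fun i => hX (by simp)) f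
  calc d Alg n ≤ (Finset.univ.image g).card := Nat.sInf_le ⟨_, rfl, h1⟩
    _ ≤ Fintype.card I := Finset.card_image_le
    _ = m := hc

theorem T_le (i : ℕ) : (T i : ℝ) ≤ 3 * ((2 : ℝ) ^ (9 / 5 : ℝ)) ^ i := by
  obtain ⟨β, hβ⟩ : ∃ β : ℝ, β = (2 : ℝ) ^ (9 / 5 : ℝ) := ⟨_, rfl⟩
  rw [← hβ]
  have h5 : β ^ 5 = 512 := by
    rw [hβ, ← Real.rpow_natCast, ← Real.rpow_mul (by norm_num)]
    norm_num
  have h0 : 0 ≤ β := by rw [hβ]; positivity
  have h3 : 3 ≤ β := by
    by_contra hc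
    push Not at hc
    have : β ^ 5 ≤ 3 ^ 5 := pow_le_pow_left₀ h0 hc.le 5
    rw [h5] at this
    norm_num at this
  have h12 : (12 : ℝ) ≤ β ^ 2 := by
    by_contra hc
    push Not at hc
    have h6 : (β ^ 2) ^ 5 < 12 ^ 5 := pow_lt_pow_left₀ hc (by positivity) (by norm_num)
    have h7 : (β ^ 2) ^ 5 = 512 ^ 2 := by rw [← h5]; ring
    rw [h7] at h6
    norm_num at h6
  induction i with
  | zero => simp [T]
  | succ i ih =>
    have h6 : (12 : ℝ) ^ ((i + 1) / 2) ≤ β ^ (i + 1) := by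
      calc (12 : ℝ) ^ ((i + 1) / 2) ≤ (β ^ 2) ^ ((i + 1) / 2) := pow_le_pow_left₀ (by norm_num) h12 _
        _ = β ^ (2 * ((i + 1) / 2)) := by rw [← pow_mul]
        _ ≤ β ^ (i + 1) := pow_le_pow_right₀ (by linarith) (by omega)
    have h7 : 0 ≤ β ^ i := by positivity
    have h8 : (T (i + 1) : ℝ) = 2 * T i + 12 ^ ((i + 1) / 2) := by
      simp [T]
    rw [h8]
    calc (2 : ℝ) * T i + 12 ^ ((i + 1) / 2) ≤ 2 * (3 * β ^ i) + β ^ (i + 1) := by linarith
      _ = (6 + β) * β ^ i := by ring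
      _ ≤ (3 * β) * β ^ i := mul_le_mul_of_nonneg_right (by linarith) h7
      _ = 3 * β ^ (i + 1) := by ring

theorem main (n : ℕ) (hn : 2 ≤ n) : (d Alg n : ℝ) ≤ 40 * Real.logb 2 n ^ (9 / 5 : ℝ) := by
  obtain ⟨i, hi⟩ : ∃ i, i = Nat.clog 2 (Nat.clog 2 n) := ⟨_, rfl⟩
  have h1 : n ≤ 2 ^ 2 ^ i := by
    calc n ≤ 2 ^ Nat.clog 2 n := Nat.le_pow_clog (by norm_num) n
      _ ≤ 2 ^ 2 ^ i := Nat.pow_le_pow_right (by norm_num) (by rw [hi]; exact Nat.le_pow_clog (by norm_num) _)
  have h2 : d Alg n ≤ T i := d_le (genN_le (genN_T i) h1)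
  have hl : 1 ≤ Nat.log 2 n := Nat.log_pos (by norm_num) hn
  have hc : Nat.clog 2 n ≤ 2 * Nat.log 2 n := H3 n hn
  have hc1 : 1 ≤ Nat.clog 2 n := Nat.clog_pos (by norm_num) hn
  have h3 : 2 ^ i ≤ 2 * Nat.clog 2 n := by
    rcases Nat.lt_or_ge 1 (Nat.clog 2 n) with h | h
    · have h4 := Nat.pow_pred_clog_lt_self (b := 2) (by norm_num) h
      rw [← hi] at h4
      have h5 : 1 ≤ i := by
        rw [hi]
        exact Nat.clog_pos (by norm_num) h
      have h6 : 2 ^ i = 2 * 2 ^ i.pred := by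
        rw [← pow_succ', Nat.pred_eq_sub_one, Nat.sub_add_cancel h5]
      omega
    · have h4 : Nat.clog 2 n = 1 := by omega
      rw [hi, h4]
      simp
  have h4 : ((2 : ℝ) ^ i) ≤ 4 * Real.logb 2 n := by
    have h5 : ((2 ^ i : ℕ) : ℝ) ≤ ((4 * Nat.log 2 n : ℕ) : ℝ) := by
      exact_mod_cast (by omega : 2 ^ i ≤ 4 * Nat.log 2 n)
    have h6 : ((Nat.log 2 n : ℕ) : ℝ) ≤ Real.logb 2 n := Real.natLog_le_logb n 2
    push_cast at h5
    linarith
  have hl0 : 0 ≤ Real.logb 2 n := Real.logb_nonneg (by norm_num) (by exact_mod_cast (by omega : 1 ≤ n))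
  have h4' : (4 : ℝ) ^ (9 / 5 : ℝ) ≤ 13 := by
    have h6 : ((4 : ℝ) ^ (9 / 5 : ℝ)) ^ 5 = 262144 := by
      rw [← Real.rpow_natCast, ← Real.rpow_mul (by norm_num)]
      norm_num
    by_contra hcon
    push Not at hcon
    have h7 : (13 : ℝ) ^ 5 < ((4 : ℝ) ^ (9 / 5 : ℝ)) ^ 5 := pow_lt_pow_left₀ hcon (by norm_num) (by norm_num)
    rw [h6] at h7
    norm_num at h7
  calc (d Alg n : ℝ) ≤ T i := by exact_mod_cast h2
    _ ≤ 3 * ((2 : ℝ) ^ (9 / 5 : ℝ)) ^ i := T_le i
    _ = 3 * ((2 : ℝ) ^ i) ^ (9 / 5 : ℝ) := by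
      rw [← Real.rpow_natCast, ← Real.rpow_natCast, ← Real.rpow_mul (by norm_num), ← Real.rpow_mul (by norm_num),
        mul_comm (9 / 5 : ℝ)]
    _ ≤ 3 * (4 * Real.logb 2 n) ^ (9 / 5 : ℝ) := by
      have := Real.rpow_le_rpow (by positivity) h4 (by norm_num : (0 : ℝ) ≤ 9 / 5)
      linarith
    _ = 3 * (4 : ℝ) ^ (9 / 5 : ℝ) * Real.logb 2 n ^ (9 / 5 : ℝ) := by
      rw [Real.mul_rpow (by norm_num) hl0, mul_assoc]
    _ ≤ 40 * Real.logb 2 n ^ (9 / 5 : ℝ) := by
      apply mul_le_mul_of_nonneg_right _ (Real.rpow_nonneg hl0 _)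
      linarith

end H38P
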