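import Pool.Agent.Lib.H38P.Three

/-! # H38P, file Ring: the index sets of the generated sums of products form a ring of sets -/

set_option autoImplicit false

namespace H38P

theorem knc {Ω X Y : Type} {V : Set (Ω → Bool)} {x : Ω → X} (h : Kn V x) (e : X → Y) : Kn V fun z => e (x z) :=
  fun F => h fun p => F (e p)

theorem kni {Ω X Y : Type} {V : Set (Ω → Bool)} {x : Ω → X} {e : X → Y} (he : Function.Injective e)
    (h : Kn V fun z => e (x z)) : Kn V x := by
  intro F
  have h1 := h (Function.extend e F fun _ => false)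
  simpa only [he.extend_apply] using h1

/-- closed under finite sums (in the Boolean ring `Bool`) -/
theorem sum_mem' {Ω ι : Type} {V : Set (Ω → Bool)} (hV : Ok V) (s : Finset ι) (f : ι → Ω → Bool)
    (h : ∀ i ∈ s, f i ∈ V) : (fun z => ∑ i ∈ s, f i z) ∈ V := by
  classical
  induction s using Finset.induction with
  | empty =>
    have h2 : (fun z => ∑ i ∈ (∅ : Finset ι), f i z) = fun _ => false := by
      funext z
      rw [Finset.sum_empty]
      rfl
    rw [h2]
    exact ok_zero hV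
  | insert a s ha ih =>
    have h1 := hV.add _ _ (h a (Finset.mem_insert_self a s)) (ih fun i hi => h i (Finset.mem_insert_of_mem hi))
    have h2 : (fun z => ∑ i ∈ insert a s, f i z) = fun z => xor (f a z) (∑ i ∈ s, f i z) := by
      funext z
      rw [Finset.sum_insert ha]
      rfl
    rw [h2]
    exact h1

/-- the sum of the products `u m (x) * v m (y)` with `m ∈ S` -/
def sm {Ω X Y M : Type} (x : Ω → X) (y : Ω → Y) (u : M → X → Bool) (v : M → Y → Bool) (S : Finset M) : Ω → Bool :=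
  fun z => ∑ m ∈ S, u m (x z) * v m (y z)

theorem off_mem {Ω X Y M : Type} {V : Set (Ω → Bool)} (hV : Ok V) {x : Ω → X} {y : Ω → Y} (u : M → X → Bool)
    (v : M → Y → Bool) (A B : Finset M) (h : ∀ m ∈ A, ∀ l ∈ B, (fun z => u m (x z) && v l (y z)) ∈ V) :
    (fun z => (∑ m ∈ A, u m (x z)) * ∑ l ∈ B, v l (y z)) ∈ V := by
  have h1 : (fun z => (∑ m ∈ A, u m (x z)) * ∑ l ∈ B, v l (y z)) =
      fun z => ∑ m ∈ A, ∑ l ∈ B, u m (x z) * v l (y z) := by
    funext z
    rw [Finset.sum_mul_sum]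
  rw [h1]
  exact sum_mem' hV A _ fun m hm => sum_mem' hV B (fun l z => u m (x z) * v l (y z)) fun l hl => h m hm l hl

theorem pp_eq {Ω X Y M : Type} [DecidableEq M] {V : Set (Ω → Bool)} (hV : Ok V) {x : Ω → X} {y : Ω → Y}
    (u : M → X → Bool) (v : M → Y → Bool) (A : Finset M)
    (h : ∀ m l, m ≠ l → (fun z => u m (x z) && v l (y z)) ∈ V) :
    ∃ o : Ω → Bool, o ∈ V ∧ ∀ z, (∑ m ∈ A, u m (x z)) * (∑ l ∈ A, v l (y z)) = sm x y u v A z + o z := by
  refine ⟨fun z => ∑ m ∈ A, ∑ l ∈ A.erase m, u m (x z) * v l (y z), ?_, fun z => ?_⟩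
  · refine sum_mem' hV A (fun m z => ∑ l ∈ A.erase m, u m (x z) * v l (y z)) fun m hm => ?_
    exact sum_mem' hV (A.erase m) (fun l z => u m (x z) * v l (y z)) fun l hl =>
      h m l (Finset.ne_of_mem_erase hl).symm
  · rw [Finset.sum_mul_sum, sm, ← Finset.sum_add_distrib]
    exact Finset.sum_congr rfl fun m hm => (Finset.add_sum_erase A (fun l => u m (x z) * v l (y z)) hm).symm

theorem b3 (a b c : Bool) (h : a = b + c) : b = xor a c := by
  subst h
  cases b <;> cases c <;> rfl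

theorem ring_inter {Ω X Y M : Type} [DecidableEq M] {V : Set (Ω → Bool)} (hV : Ok V) {x : Ω → X} {y : Ω → Y}
    (hx : Kn V x) (hy : Kn V y) (u : M → X → Bool) (v : M → Y → Bool)
    (h : ∀ m l, m ≠ l → (fun z => u m (x z) && v l (y z)) ∈ V) {S S' : Finset M}
    (hS : sm x y u v S ∈ V) (hS' : sm x y u v S' ∈ V) : sm x y u v (S ∩ S') ∈ V := by
  obtain ⟨T, hT⟩ : ∃ T : Fin 3 → Finset M, T = ![S ∩ S', S \ S', S' \ S] := ⟨_, rfl⟩
  have hT0 : T 0 = S ∩ S' := by rw [hT]; rfl
  have hT1 : T 1 = S \ S' := by rw [hT]; rfl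
  have hT2 : T 2 = S' \ S := by rw [hT]; rfl
  have hdis : ∀ i j : Fin 3, i ≠ j → ∀ m ∈ T i, m ∉ T j := by
    intro i j hij m hm hm'
    fin_cases i <;> fin_cases j <;> first
      | exact hij rfl
      | (simp only [Fin.zero_eta, Fin.mk_one, Fin.reduceFinMk, hT0, hT1, hT2, Finset.mem_inter,
          Finset.mem_sdiff] at hm hm'; tauto)
  obtain ⟨o0, ho0, h0⟩ := pp_eq hV u v (T 0) h
  obtain ⟨o1, ho1, h1⟩ := pp_eq hV u v (T 1) h
  obtain ⟨o2, ho2, h2⟩ := pp_eq hV u v (T 2) h
  have hs1 : ∀ z, sm x y u v S z = sm x y u v (T 0) z + sm x y u v (T 1) z := by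
    intro z
    rw [hT0, hT1, sm, sm, sm, Finset.sum_inter_add_sum_sdiff]
  have hs2 : ∀ z, sm x y u v S' z = sm x y u v (T 0) z + sm x y u v (T 2) z := by
    intro z
    rw [hT0, hT2, sm, sm, sm, Finset.inter_comm, Finset.sum_inter_add_sum_sdiff]
  have hbx : ∀ a b c d e : Bool, a = b + c → xor (b + d) (c + e) = xor a (xor d e) := by
    intro a b c d e h
    subst h
    cases b <;> cases c <;> cases d <;> cases e <;> rfl
  have key := three hV (a := fun z i => ∑ m ∈ T i, u m (x z)) (b := fun z i => ∑ m ∈ T i, v m (y z))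
    (knc hx fun p i => ∑ m ∈ T i, u m p) (knc hy fun p i => ∑ m ∈ T i, v m p) (fun i j hij =>
      off_mem hV u v (T i) (T j) fun m hm l hl => h m l fun hml => hdis i j hij m hm (hml ▸ hl)) (by
      have h3 : (fun z => xor ((∑ m ∈ T 0, u m (x z)) && (∑ m ∈ T 0, v m (y z)))
          ((∑ m ∈ T 1, u m (x z)) && (∑ m ∈ T 1, v m (y z)))) = fun z => xor (sm x y u v S z) (xor (o0 z) (o1 z)) := by
        funext z
        rw [← hbx _ _ _ _ _ (hs1 z), ← h0 z, ← h1 z]
        rfl
      rw [h3]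
      exact hV.add _ _ hS (hV.add _ _ ho0 ho1)) (by
      have h3 : (fun z => xor ((∑ m ∈ T 0, u m (x z)) && (∑ m ∈ T 0, v m (y z)))
          ((∑ m ∈ T 2, u m (x z)) && (∑ m ∈ T 2, v m (y z)))) = fun z => xor (sm x y u v S' z) (xor (o0 z) (o2 z)) := by
        funext z
        rw [← hbx _ _ _ _ _ (hs2 z), ← h0 z, ← h2 z]
        rfl
      rw [h3]
      exact hV.add _ _ hS' (hV.add _ _ ho0 ho2))
  have h4 : sm x y u v (S ∩ S') = fun z => xor ((∑ m ∈ T 0, u m (x z)) && (∑ m ∈ T 0, v m (y z))) (o0 z) := by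
    funext z
    rw [← hT0]
    exact b3 _ _ _ (h0 z)
  rw [h4]
  exact hV.add _ _ key ho0

/-- If the index sets `B j` cut out the single index `m`, then the product number `m` is generated. -/
theorem ring_single {Ω X Y M J : Type} [DecidableEq M] [Finite J] {V : Set (Ω → Bool)} (hV : Ok V) {x : Ω → X}
    {y : Ω → Y} (hx : Kn V x) (hy : Kn V y) (u : M → X → Bool) (v : M → Y → Bool)
    (h : ∀ m l, m ≠ l → (fun z => u m (x z) && v l (y z)) ∈ V) (B : J → Finset M)
    (hB : ∀ j, sm x y u v (B j) ∈ V) (j0 : J) (m : M) (hm : ∀ l, (∀ j, l ∈ B j) ↔ l = m) :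
    (fun z => u m (x z) && v m (y z)) ∈ V := by
  classical
  have : Fintype J := Fintype.ofFinite J
  have key : ∀ K : Finset J, ∃ A : Finset M, sm x y u v A ∈ V ∧ ∀ l, l ∈ A ↔ l ∈ B j0 ∧ ∀ j ∈ K, l ∈ B j := by
    intro K
    induction K using Finset.induction with
    | empty => exact ⟨B j0, hB j0, fun l => by simp⟩
    | insert a K ha ih =>
      obtain ⟨A, h1, h2⟩ := ih
      refine ⟨A ∩ B a, ring_inter hV hx hy u v h h1 (hB a), fun l => ?_⟩
      rw [Finset.mem_inter, h2]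
      simp only [Finset.mem_insert, forall_eq_or_imp]
      tauto
  obtain ⟨A, h1, h2⟩ := key Finset.univ
  have h3 : A = {m} := by
    ext l
    rw [h2, Finset.mem_singleton, ← hm]
    exact ⟨fun h3 j => h3.2 j (Finset.mem_univ j), fun h3 => ⟨h3 j0, fun j _ => h3 j⟩⟩
  rw [h3] at h1
  have h4 : sm x y u v {m} = fun z => u m (x z) && v m (y z) := by
    funext z
    rw [sm, Finset.sum_singleton]
    rfl
  rwa [h4] at h1

end H38P
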