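import Pool.Agent.Lib.H38P.Base
import Pool.Agent.Lib.H38P.Cert3

/-! # H38P, file Three: eight products instead of nine, and the ring of index sets -/

set_option autoImplicit false

namespace H38P

namespace Three

/-- the code of six bits -/
def cod (p0 p1 p2 q0 q1 q2 : Bool) : ℕ := p0.toNat + 2 * p1.toNat + 4 * p2.toNat +
  8 * q0.toNat + 16 * q1.toNat + 32 * q2.toNat

/-- the monomial with the index set `S` (bits of `S`) -/
def mo (S : ℕ) (p0 p1 p2 : Bool) : Bool :=
  (!S.testBit 0 || p0) && (!S.testBit 1 || p1) && (!S.testBit 2 || p2)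

end Three

open Three in
theorem three {Ω : Type} {V : Set (Ω → Bool)} (hV : Ok V) {a b : Ω → Fin 3 → Bool} (ha : Kn V a) (hb : Kn V b)
    (h : ∀ i j : Fin 3, i ≠ j → (fun z => a z i && b z j) ∈ V)
    (h1 : (fun z => xor (a z 0 && b z 0) (a z 1 && b z 1)) ∈ V)
    (h2 : (fun z => xor (a z 0 && b z 0) (a z 2 && b z 2)) ∈ V) : (fun z => a z 0 && b z 0) ∈ V := by
  obtain ⟨cd, hcd⟩ : ∃ cd : Ω → ℕ, ∀ z, cd z = cod (a z 0) (a z 1) (a z 2) (b z 0) (b z 1) (b z 2) :=
    ⟨_, fun _ => rfl⟩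
  have kx : ∀ {m n : ℕ}, (fun z => m.testBit (cd z)) ∈ V → (fun z => n.testBit (cd z)) ∈ V →
      (fun z => (m ^^^ n).testBit (cd z)) ∈ V := by
    intro m n hm hn
    have := hV.add _ _ hm hn
    simpa [Nat.testBit_xor] using this
  have kt : ∀ {p q r : ℕ}, (fun z => p.testBit (cd z)) ∈ V → (fun z => q.testBit (cd z)) ∈ V →
      (fun z => r.testBit (cd z)) ∈ V → (fun z => (p &&& q).testBit (cd z)) ∈ V →
      (fun z => (p &&& r).testBit (cd z)) ∈ V → (fun z => (q &&& r).testBit (cd z)) ∈ V →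
      (fun z => (p &&& q &&& r).testBit (cd z)) ∈ V := by
    intro p q r h1 h2 h3 h4 h5 h6
    simp only [Nat.testBit_and] at h4 h5 h6
    have := hV.tri _ _ _ h1 h2 h3 h4 h5 h6
    simpa only [Nat.testBit_and] using this
  have ka : ∀ m S : ℕ, (∀ p0 p1 p2 q0 q1 q2 : Bool, m.testBit (cod p0 p1 p2 q0 q1 q2) = mo S p0 p1 p2) →
      (fun z => m.testBit (cd z)) ∈ V := by
    intro m S hm
    have h1 := ha fun p => mo S (p 0) (p 1) (p 2)
    have h2 : (fun z => m.testBit (cd z)) = fun z => mo S (a z 0) (a z 1) (a z 2) := by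
      funext z
      rw [hcd, hm]
    rw [h2]
    exact h1
  have kb : ∀ m S : ℕ, (∀ p0 p1 p2 q0 q1 q2 : Bool, m.testBit (cod p0 p1 p2 q0 q1 q2) = mo S q0 q1 q2) →
      (fun z => m.testBit (cd z)) ∈ V := by
    intro m S hm
    have h1 := hb fun p => mo S (p 0) (p 1) (p 2)
    have h2 : (fun z => m.testBit (cd z)) = fun z => mo S (b z 0) (b z 1) (b z 2) := by
      funext z
      rw [hcd, hm]
    rw [h2]
    exact h1
  have kp : ∀ (m : ℕ) (i j : Fin 3), i ≠ j → (∀ p0 p1 p2 q0 q1 q2 : Bool, m.testBit (cod p0 p1 p2 q0 q1 q2) =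
      ((![p0, p1, p2] : Fin 3 → Bool) i && (![q0, q1, q2] : Fin 3 → Bool) j)) → (fun z => m.testBit (cd z)) ∈ V := by
    intro m i j hij hm
    have h2 : (fun z => m.testBit (cd z)) = fun z => a z i && b z j := by
      funext z
      rw [hcd, hm]
      congr 1
      · fin_cases i <;> rfl
      · fin_cases j <;> rfl
    rw [h2]
    exact h i j hij
  have kd1 : ∀ (m : ℕ), (∀ p0 p1 p2 q0 q1 q2 : Bool, m.testBit (cod p0 p1 p2 q0 q1 q2) =
      xor (p0 && q0) (p1 && q1)) → (fun z => m.testBit (cd z)) ∈ V := by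
    intro m hm
    have h3 : (fun z => m.testBit (cd z)) = fun z => xor (a z 0 && b z 0) (a z 1 && b z 1) := by
      funext z
      rw [hcd, hm]
    rw [h3]
    exact h1
  have kd2 : ∀ (m : ℕ), (∀ p0 p1 p2 q0 q1 q2 : Bool, m.testBit (cod p0 p1 p2 q0 q1 q2) =
      xor (p0 && q0) (p2 && q2)) → (fun z => m.testBit (cd z)) ∈ V := by
    intro m hm
    have h3 : (fun z => m.testBit (cd z)) = fun z => xor (a z 0 && b z 0) (a z 2 && b z 2) := by
      funext z
      rw [hcd, hm]
    rw [h3]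
    exact h2
  have key := gadget (K := fun m => (fun z => m.testBit (cd z)) ∈ V) kx kt
    (ka _ 1 (by decide +kernel)) (ka _ 2 (by decide +kernel)) (ka _ 3 (by decide +kernel)) (ka _ 4 (by decide +kernel))
    (ka _ 5 (by decide +kernel)) (ka _ 6 (by decide +kernel)) (ka _ 7 (by decide +kernel))
    (kb _ 1 (by decide +kernel)) (kb _ 2 (by decide +kernel)) (kb _ 3 (by decide +kernel)) (kb _ 4 (by decide +kernel))
    (kb _ 5 (by decide +kernel)) (kb _ 6 (by decide +kernel)) (kb _ 7 (by decide +kernel))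
    (kp _ 0 1 (by decide) (by decide +kernel)) (kp _ 0 2 (by decide) (by decide +kernel))
    (kp _ 1 0 (by decide) (by decide +kernel)) (kp _ 1 2 (by decide) (by decide +kernel))
    (kp _ 2 0 (by decide) (by decide +kernel)) (kp _ 2 1 (by decide) (by decide +kernel))
    (kd1 _ (by decide +kernel)) (kd2 _ (by decide +kernel))
  have h3 : ∀ p0 p1 p2 q0 q1 q2 : Bool, Nat.testBit 0xaa00aa00aa00aa00 (cod p0 p1 p2 q0 q1 q2) = (p0 && q0) := by
    decide +kernel
  have h4 : (fun z => Nat.testBit 0xaa00aa00aa00aa00 (cd z)) = fun z => a z 0 && b z 0 := by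
    funext z
    rw [hcd, h3]
  have h5 : (fun z => Nat.testBit 0xaa00aa00aa00aa00 (cd z)) ∈ V := key
  rwa [h4] at h5

end H38P
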